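import Pool.Agent.U725.MT.Main

/-!
# The adjoint action
-/

set_option autoImplicit false
set_option linter.unusedSectionVars false

open Matrix MvPolynomial

namespace Pool.Agent.U725.MT

open Pool.Agent.TH127.PT Pool.Agent.TH119.MX Pool.Agent.TH119.DR Pool.Agent.Y123.ST
  Pool.Agent.U725.OM

variable {B : Type} [Fintype B] [DecidableEq B] {wt : B → ℕ} {K : Subfield ℂ}
  {G T : Set (Matrix B B ℂ)}

theorem conj_pow (x y w : Matrix B B ℂ) (h1 : y * x = 1) (k : ℕ) :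
    (x * w * y) ^ k * x = x * w ^ k := by
  induction k with
  | zero => simp
  | succ k ih =>
    rw [pow_succ', Matrix.mul_assoc, ih, pow_succ', ← Matrix.mul_assoc, Matrix.mul_assoc (x * w) y x,
      h1, Matrix.mul_one, Matrix.mul_assoc]

theorem conj_exp (x y w : Matrix B B ℂ) (h1 : y * x = 1) (hw : IsNilpotent w) :
    IsNilpotent.exp (x * w * y) * x = x * IsNilpotent.exp w := by
  obtain ⟨n, hn⟩ := hw
  have h2 : (x * w * y) ^ n = 0 := by
    have h3 := conj_pow x y w h1 n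
    rw [hn, Matrix.mul_zero] at h3
    have h4 := congrArg (fun z => z * y) h3
    simp only [Matrix.zero_mul] at h4
    rw [Matrix.mul_assoc] at h4
    have h5 : x * y = 1 := mul_eq_one_comm.1 h1
    rwa [h5, Matrix.mul_one] at h4
  rw [IsNilpotent.exp_eq_sum h2, IsNilpotent.exp_eq_sum hn, Finset.sum_mul, Finset.mul_sum]
  refine Finset.sum_congr rfl fun k _ => ?_
  rw [Matrix.smul_mul, conj_pow x y w h1, Matrix.mul_smul]

theorem inv_eq {l : ℂ} (hl : l ≠ 0) {M : Matrix B B ℂ} (hM : Fk wt 1 M) :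
    (IsNilpotent.exp M * dg wt l)⁻¹ = dg wt l⁻¹ * IsNilpotent.exp (-M) := by
  refine Matrix.inv_eq_right_inv ?_
  rw [Matrix.mul_assoc, ← Matrix.mul_assoc (dg wt l), dg_mul, mul_inv_cancel₀ hl, dg_one,
    Matrix.one_mul, IsNilpotent.exp_mul_exp_neg_self hM.nil]

theorem Mt.inv_mul (h : Mt K wt G) {x : Matrix B B ℂ} (hx : x ∈ G) : x⁻¹ * x = 1 :=
  inv_mul' h.hG hx

theorem Mt.mul_inv (h : Mt K wt G) {x : Matrix B B ℂ} (hx : x ∈ G) : x * x⁻¹ = 1 :=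
  mul_inv' h.hG hx

/-- the triangular form -/
theorem Mt.tri' (h : Mt K wt G) {x : Matrix B B ℂ} (hx : x ∈ G) :
    ∃ (l : ℂ) (M : Matrix B B ℂ), l ≠ 0 ∧ fl M ∈ UU wt G ∧ x = IsNilpotent.exp M * dg wt l := by
  obtain ⟨l, M, hl, hM, h1⟩ := h.tri x hx
  refine ⟨l, M, hl, h.log_mem hM ?_, h1⟩
  have h2 := h.mul_mem hx (h.weight l⁻¹ (inv_ne_zero hl))
  rwa [h1, Matrix.mul_assoc, dg_mul, mul_inv_cancel₀ hl, dg_one, Matrix.mul_one] at h2

theorem dg_conj {k : ℕ} {w : Matrix B B ℂ} (hw : Fk wt k w) (l : ℂ) :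
    Fk wt k (dg wt l * w * dg wt l⁻¹) := by
  intro b b' h
  refine hw b b' fun h2 => h ?_
  rw [dg, dg, Matrix.mul_diagonal, Matrix.diagonal_mul, h2, mul_zero, zero_mul]

theorem Mt.dg_UU (h : Mt K wt G) {w : Matrix B B ℂ} (hw : fl w ∈ UU wt G) {l : ℂ} (hl : l ≠ 0) :
    fl (dg wt l * w * dg wt l⁻¹) ∈ UU wt G := by
  refine h.log_mem (dg_conj hw.1 l) ?_
  have h1 : dg wt l⁻¹ * dg wt l = (1 : Matrix B B ℂ) := by
    rw [dg_mul, inv_mul_cancel₀ hl, dg_one]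
  have h2 := conj_exp (dg wt l) (dg wt l⁻¹) w h1 hw.1.nil
  have h3 := h.mul_mem (h.mul_mem (h.weight l hl) (h.exp_mem hw))
    (h.weight l⁻¹ (inv_ne_zero hl))
  rwa [← h2, Matrix.mul_assoc, dg_mul, mul_inv_cancel₀ hl, dg_one, Matrix.mul_one] at h3

theorem prf_dg {d : ℕ} {f : B × B → ℂ} (hf : IsForm K wt d f) (w : Matrix B B ℂ) {l : ℂ}
    (hl : l ≠ 0) : prf f (fl (dg wt l * w * dg wt l⁻¹)) = l ^ d * prf f (fl w) := by
  rw [prf_apply, prf_apply, Finset.mul_sum]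
  refine Finset.sum_congr rfl fun b _ => ?_
  by_cases h0 : f b = 0
  · rw [h0]
    ring
  · simp only [fl]
    rw [dg, dg, Matrix.mul_diagonal, Matrix.diagonal_mul, hf.2 b h0, pow_add]
    have h1 : l ^ wt b.2 ≠ 0 := pow_ne_zero _ hl
    rw [inv_pow]
    field_simp

/-- conjugation of elements of the unipotent part -/
theorem Mt.conj_UU (h : Mt K wt G) {w : Matrix B B ℂ} (hw : fl w ∈ UU wt G) {l : ℂ} (hl : l ≠ 0)
    {M : Matrix B B ℂ} (hM : fl M ∈ UU wt G) :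
    fl (IsNilpotent.exp M * dg wt l * w * (IsNilpotent.exp M * dg wt l)⁻¹ -
      dg wt l * w * dg wt l⁻¹) ∈ CC wt G := by
  have hM1 : Fk wt 1 M := hM.1
  rw [inv_eq hl hM1]
  set w' := dg wt l * w * dg wt l⁻¹ with hw'
  have hwU : fl w' ∈ UU wt G := h.dg_UU hw hl
  have hN : IsNilpotent M := hM.1.nil
  have h1 : IsNilpotent.exp M * w' * IsNilpotent.exp (-M) - w' - adL M w' ∈ CS wt G :=
    conj_mod hN (CS wt G) (z := w') (ad_CS hM (br_UU hM hwU)) fun y hy => ad_CS hM (CC_le hy)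
  have h2 := Submodule.add_mem _ h1 (ad_CS hM hwU)
  rw [sub_add_cancel] at h2
  have h3 : IsNilpotent.exp M * dg wt l * w * (dg wt l⁻¹ * IsNilpotent.exp (-M)) =
      IsNilpotent.exp M * w' * IsNilpotent.exp (-M) := by
    rw [hw']
    simp only [Matrix.mul_assoc]
  rw [h3]
  exact h2

/-- conjugation of `H` -/
theorem Mt.conj_Hm (h : Mt K wt G) {l : ℂ} (hl : l ≠ 0) {M : Matrix B B ℂ}
    (hM : fl M ∈ UU wt G) :
    fl (IsNilpotent.exp M * dg wt l * MT.Hm wt * (IsNilpotent.exp M * dg wt l)⁻¹ -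
      (MT.Hm wt + (M * MT.Hm wt - MT.Hm wt * M))) ∈ CC wt G := by
  have hM1 : Fk wt 1 M := hM.1
  rw [inv_eq hl hM1]
  have h1 := logD_two h hM
  have h2 : dg wt l * MT.Hm wt * dg wt l⁻¹ = (MT.Hm wt : Matrix B B ℂ) := by
    rw [dg, dg, MT.Hm, Matrix.diagonal_mul_diagonal, Matrix.diagonal_mul_diagonal]
    congr 1
    funext b
    have h3 : l ^ wt b ≠ 0 := pow_ne_zero _ hl
    rw [inv_pow]
    field_simp
  have h3 : IsNilpotent.exp M * dg wt l * MT.Hm wt * (dg wt l⁻¹ * IsNilpotent.exp (-M)) =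
      IsNilpotent.exp M * MT.Hm wt * IsNilpotent.exp (-M) := by
    conv_rhs => rw [← h2]
    simp only [Matrix.mul_assoc]
  rw [h3]
  have h4 : IsNilpotent.exp M * MT.Hm wt * IsNilpotent.exp (-M) -
      (MT.Hm wt + (M * MT.Hm wt - MT.Hm wt * M)) = IsNilpotent.exp M * MT.Hm wt *
      IsNilpotent.exp (-M) - MT.Hm wt - (M * MT.Hm wt - MT.Hm wt * M) := by abel
  rw [h4]
  exact h1

section Form

variable (h : Mt K wt G) {d : ℕ} (hd : 1 ≤ d) {f : B × B → ℂ} (hf : IsForm K wt d f)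
  (hfC : ∀ w ∈ CC wt G, prf f w = 0)

include h hf hfC

theorem Mt.prf_conj {w : Matrix B B ℂ} (hw : fl w ∈ UU wt G) {l : ℂ} (hl : l ≠ 0)
    {M : Matrix B B ℂ} (hM : fl M ∈ UU wt G) :
    prf f (fl (IsNilpotent.exp M * dg wt l * w * (IsNilpotent.exp M * dg wt l)⁻¹)) =
      l ^ d * prf f (fl w) := by
  have h1 := hfC _ (h.conj_UU hw hl hM)
  have h2 : ∀ X Y : Matrix B B ℂ, fl (X - Y) = fl X - fl Y := fun _ _ => rfl
  rw [h2, map_sub, sub_eq_zero] at h1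
  rw [h1, prf_dg hf w hl]

include hd

theorem Mt.prf_conj_Hm {l : ℂ} (hl : l ≠ 0) {M : Matrix B B ℂ} (hM : fl M ∈ UU wt G) :
    prf f (fl (IsNilpotent.exp M * dg wt l * MT.Hm wt * (IsNilpotent.exp M * dg wt l)⁻¹)) =
      -(d * prf f (fl M)) := by
  have h1 := hfC _ (h.conj_Hm hl hM)
  have h2 : ∀ X Y : Matrix B B ℂ, fl (X - Y) = fl X - fl Y := fun _ _ => rfl
  rw [h2, map_sub, sub_eq_zero] at h1
  rw [h1, fl_add, map_add, prf_Hm hd hf, zero_add]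
  have h3 : fl (M * MT.Hm wt - MT.Hm wt * M) = -aH wt (fl M) := by
    rw [aH_fl]
    funext b
    simp only [fl, Pi.neg_apply, Matrix.sub_apply]
    ring
  rw [h3, map_neg, prf_aH hf]

omit hf hfC hd

theorem Mt.conj_mem {w : Matrix B B ℂ} (hw : fl w ∈ UU wt G) {x : Matrix B B ℂ} (hx : x ∈ G) :
    fl (x * w * x⁻¹) ∈ UU wt G := by
  obtain ⟨l, M, hl, hM, rfl⟩ := h.tri' hx
  have h1 := Submodule.add_mem _ (CC_le (h.conj_UU hw hl hM)) (h.dg_UU hw hl)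
  rwa [← fl_add, sub_add_cancel] at h1

theorem Mt.conj_Hm_mem {x : Matrix B B ℂ} (hx : x ∈ G) :
    fl (x * MT.Hm wt * x⁻¹ - MT.Hm wt) ∈ UU wt G := by
  obtain ⟨l, M, hl, hM, rfl⟩ := h.tri' hx
  have h1 := CC_le (h.conj_Hm hl hM)
  have h2 := Submodule.sub_mem _ h1 (h.Hm_UU hM)
  convert h2 using 1
  rw [← sub_eq_zero]
  funext b
  simp only [fl, Pi.sub_apply, Pi.zero_apply, Matrix.sub_apply, Matrix.add_apply]
  ring

end Form

end Pool.Agent.U725.MT
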