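import Mathlib

/-!
# Conjugation by the exponential of a nilpotent element
-/

set_option autoImplicit false
set_option linter.unusedSectionVars false

open Finset

namespace Pool.Agent.U725.MT

section Ring

variable {A : Type*} [Ring A] [Algebra ℚ A]

/-- the map `x ↦ l x - x l` -/
noncomputable def adL (l : A) : Module.End ℚ A := LinearMap.mulLeft ℚ l - LinearMap.mulRight ℚ l

theorem adL_apply (l x : A) : adL l x = l * x - x * l := rfl

theorem nil_left {l : A} (h : IsNilpotent l) : IsNilpotent (LinearMap.mulLeft ℚ l) := by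
  obtain ⟨n, hn⟩ := h
  exact ⟨n, by rw [LinearMap.pow_mulLeft, hn, LinearMap.mulLeft_zero_eq_zero]⟩

theorem nil_right {l : A} (h : IsNilpotent l) : IsNilpotent (LinearMap.mulRight ℚ l) := by
  obtain ⟨n, hn⟩ := h
  exact ⟨n, by rw [LinearMap.pow_mulRight, hn, LinearMap.mulRight_zero_eq_zero]⟩

theorem exp_left {l : A} (h : IsNilpotent l) (x : A) :
    IsNilpotent.exp (LinearMap.mulLeft ℚ l) x = IsNilpotent.exp l * x := by
  obtain ⟨n, hn⟩ := h
  rw [IsNilpotent.exp_eq_sum (k := n) (by rw [LinearMap.pow_mulLeft, hn,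
    LinearMap.mulLeft_zero_eq_zero]), IsNilpotent.exp_eq_sum hn, Finset.sum_mul,
    LinearMap.sum_apply]
  refine Finset.sum_congr rfl fun k _ => ?_
  rw [LinearMap.smul_apply, LinearMap.pow_mulLeft, LinearMap.mulLeft_apply, smul_mul_assoc]

theorem exp_right {l : A} (h : IsNilpotent l) (x : A) :
    IsNilpotent.exp (-LinearMap.mulRight ℚ l) x = x * IsNilpotent.exp (-l) := by
  obtain ⟨n, hn⟩ := h
  have h3 : -LinearMap.mulRight ℚ l = LinearMap.mulRight ℚ (-l) := by
    ext y
    simp
  have h2 : (-l) ^ n = 0 := by rw [neg_pow, hn, mul_zero]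
  have h1 : (LinearMap.mulRight ℚ (-l)) ^ n = 0 := by
    rw [LinearMap.pow_mulRight, h2, LinearMap.mulRight_zero_eq_zero]
  rw [h3, IsNilpotent.exp_eq_sum h1, IsNilpotent.exp_eq_sum h2, Finset.mul_sum,
    LinearMap.sum_apply]
  refine Finset.sum_congr rfl fun k _ => ?_
  rw [LinearMap.smul_apply, LinearMap.pow_mulRight, LinearMap.mulRight_apply, mul_smul_comm]

theorem nil_ad {l : A} (h : IsNilpotent l) : IsNilpotent (adL l) := by
  unfold adL
  exact Commute.isNilpotent_sub (LinearMap.commute_mulLeft_right (R := ℚ) l l) (nil_left h) (nil_right h)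

/-- conjugation by an exponential -/
theorem conj_eq {l : A} (h : IsNilpotent l) (z : A) :
    IsNilpotent.exp l * z * IsNilpotent.exp (-l) = IsNilpotent.exp (adL l) z := by
  unfold adL
  rw [sub_eq_add_neg, IsNilpotent.exp_add_of_commute
    ((LinearMap.commute_mulLeft_right (R := ℚ) l l).neg_right) (nil_left h) (nil_right h).neg,
    Module.End.mul_apply, exp_right h, exp_left h, mul_assoc]

/-- conjugation by an exponential, modulo a subspace -/
theorem conj_mod {l : A} (h : IsNilpotent l) (S : Submodule ℚ A) {z : A}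
    (h1 : adL l (adL l z) ∈ S) (hS : ∀ y ∈ S, adL l y ∈ S) :
    IsNilpotent.exp l * z * IsNilpotent.exp (-l) - z - adL l z ∈ S := by
  rw [conj_eq h]
  obtain ⟨n, hn⟩ := nil_ad h
  have hn2 : adL l ^ (n + 2) = 0 := by rw [pow_add, hn, zero_mul]
  rw [IsNilpotent.exp_eq_sum hn2, LinearMap.sum_apply, Finset.sum_range_succ',
    Finset.sum_range_succ']
  simp only [zero_add, Nat.factorial_one, Nat.factorial_zero, Nat.cast_one, inv_one, one_smul,
    pow_one, pow_zero, Module.End.one_apply]
  have h2 : ∀ k : ℕ, (adL l ^ (k + 1 + 1)) z ∈ S := by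
    intro k
    induction k with
    | zero =>
      rw [zero_add, pow_succ, pow_one, Module.End.mul_apply]
      exact h1
    | succ k ih =>
      rw [pow_succ' _ (k + 1 + 1), Module.End.mul_apply]
      exact hS _ ih
  have h3 : ∑ k ∈ range n, ((((k + 1 + 1).factorial : ℚ)⁻¹) • adL l ^ (k + 1 + 1)) z ∈ S := by
    refine Submodule.sum_mem _ fun k _ => ?_
    rw [LinearMap.smul_apply]
    exact S.smul_mem _ (h2 k)
  have h4 : ∀ a : A, a + adL l z + z - z - adL l z = a := fun a => by abel
  rw [h4]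
  exact h3

end Ring

section Der

variable {A : Type*} [Ring A] [Algebra ℚ A]

/-- the logarithmic derivative of an exponential, modulo commutators; `δ` is a derivation -/
theorem der_mod {l : A} (h : IsNilpotent l) (δ : Module.End ℚ A)
    (hδ : ∀ x y, δ (x * y) = δ x * y + x * δ y) (S : Submodule ℚ A)
    (h1 : adL l (δ l) ∈ S) (hS : ∀ y ∈ S, adL l y ∈ S) :
    δ (IsNilpotent.exp l) * IsNilpotent.exp (-l) - δ l ∈ S := by
  have hone : δ 1 = 0 := by
    have := hδ 1 1
    rw [mul_one, mul_one, one_mul] at this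
    exact left_eq_add.1 this
  -- in the ring of endomorphisms
  set lam : A →ₐ[ℚ] Module.End ℚ A := Algebra.lmul ℚ A with hlam
  have hl : ∀ x y, lam x y = x * y := fun x y => rfl
  have hcomm : ∀ x : A, δ * lam x - lam x * δ = lam (δ x) := by
    intro x
    ext y
    rw [LinearMap.sub_apply, Module.End.mul_apply, Module.End.mul_apply, hl, hl, hl, hδ]
    abel
  have had : adL (lam l) δ = -lam (δ l) := by
    rw [adL_apply, ← hcomm]
    abel
  have had2 : ∀ x, adL (lam l) (lam x) = lam (adL l x) := by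
    intro x
    rw [adL_apply, adL_apply, map_sub, map_mul, map_mul]
  have hn : IsNilpotent (lam l) := h.map lam
  have h2 := conj_mod hn (S.map lam.toLinearMap) (z := δ) (by
      rw [had, map_neg, had2]
      exact Submodule.neg_mem _ (Submodule.mem_map_of_mem h1)) (by
      rintro _ ⟨y, hy, rfl⟩
      exact ⟨adL l y, hS y hy, (had2 y).symm⟩)
  obtain ⟨y, hy, hy2⟩ := h2
  have h3 := congrArg (fun f : Module.End ℚ A => f 1) hy2
  have e1 : IsNilpotent.exp (lam l) = lam (IsNilpotent.exp l) := (IsNilpotent.map_exp h lam).symm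
  have e2 : IsNilpotent.exp (-lam l) = lam (IsNilpotent.exp (-l)) := by
    rw [IsNilpotent.map_exp h.neg lam, map_neg]
  rw [e1, e2, had, sub_neg_eq_add] at h3
  have h4 : (lam.toLinearMap y) 1 = y := mul_one y
  have h7 : (lam (IsNilpotent.exp l) * δ * lam (IsNilpotent.exp (-l)) - δ + lam (δ l)) 1 =
      IsNilpotent.exp l * δ (IsNilpotent.exp (-l)) + δ l := by
    change IsNilpotent.exp l * δ (IsNilpotent.exp (-l) * 1) - δ 1 + δ l * 1 = _
    rw [mul_one, hone, sub_zero, mul_one]
  have h8 : y = IsNilpotent.exp l * δ (IsNilpotent.exp (-l)) + δ l := by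
    rw [← h7, ← h4]
    exact h3
  -- `u δ(u⁻¹) = - δ(u) u⁻¹`
  have h5 : δ (IsNilpotent.exp l) * IsNilpotent.exp (-l) +
      IsNilpotent.exp l * δ (IsNilpotent.exp (-l)) = 0 := by
    rw [← hδ, IsNilpotent.exp_mul_exp_neg_self h, hone]
  have h6 : δ (IsNilpotent.exp l) * IsNilpotent.exp (-l) - δ l = -y := by
    rw [h8, eq_neg_of_add_eq_zero_left h5]
    abel
  rw [h6]
  exact Submodule.neg_mem _ hy

end Der

end Pool.Agent.U725.MT
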