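import Pool.Agent.U725.MT.Crit

/-!
# The converse
-/

set_option autoImplicit false
set_option linter.unusedSectionVars false

open Matrix MvPolynomial

namespace Pool.Agent.U725.MT

open Pool.Agent.TH127.PT Pool.Agent.TH119.MX Pool.Agent.TH119.DR Pool.Agent.Y123.ST
  Pool.Agent.U725.OM

variable {B : Type} [Fintype B] [DecidableEq B] {wt : B → ℕ} {K : Subfield ℂ}
  {G T : Set (Matrix B B ℂ)}

section Form

variable (h : Mt K wt G) {d : ℕ} (hd : 1 ≤ d) {f : B × B → ℂ} (hf : IsForm K wt d f)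
  (hfC : ∀ w ∈ CC wt G, prf f w = 0)

include h

include hf hfC hd

/-- **The converse.** -/
theorem Mt.conv {τ : ℂ} (hτ : τ ≠ 0) {L : Matrix B B ℂ} (hL : fl L ∈ UU wt G)
    (hall : ∀ T : Set (Matrix B B ℂ), IsSubtorsor K T → IsNilpotent.exp L * dg wt τ ∈ T → G ⊆ T)
    {a β : ℂ} (ha : a ∈ K) (hβ : β ∈ K) (hz : prf f (fl L) = a + β * τ ^ d) :
    ∀ w ∈ UU wt G, prf f w = 0 := by
  classical
  by_contra hcon
  push Not at hcon
  obtain ⟨w, hw, hfw⟩ := hcon
  obtain ⟨w', hw', hwK, hfw'⟩ := exists_rat (UU wt G) (aut_UU h.hG) (prf f) ⟨w, hw, hfw⟩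
  have hκK : prf f w' ∈ K := by
    rw [prf_apply]
    exact sum_mem fun b _ => MulMemClass.mul_mem (hf.1 b) (hwK b)
  set n : Matrix B B ℂ := um ((prf f w')⁻¹ • w') with hn
  have hnU : fl n ∈ UU wt G := Submodule.smul_mem _ _ hw'
  have hnK : ∀ b, fl n b ∈ K := fun b => MulMemClass.mul_mem (InvMemClass.inv_mem hκK) (hwK b)
  have hfn : prf f (fl n) = 1 := by
    rw [hn, fl_um, map_smul, smul_eq_mul, inv_mul_cancel₀ hfw']
  set γ : ℂ := d * β with hγ
  have hγK : γ ∈ K := MulMemClass.mul_mem (natCast_mem K d) hβ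
  set Y : Matrix B B ℂ := MT.Hm wt + γ • n with hY
  have hYK : ∀ b b', Y b b' ∈ K := by
    intro b b'
    rw [hY, Matrix.add_apply, Matrix.smul_apply, smul_eq_mul]
    refine add_mem ?_ (MulMemClass.mul_mem hγK (hnK (b, b')))
    rw [MT.Hm, Matrix.diagonal_apply]
    split_ifs
    · exact natCast_mem K _
    · exact K.zero_mem
  -- the value
  have hval : ∀ {l : ℂ}, l ≠ 0 → ∀ {M : Matrix B B ℂ}, fl M ∈ UU wt G →
      prf f (fl (IsNilpotent.exp M * dg wt l * Y * (IsNilpotent.exp M * dg wt l)⁻¹)) =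
        -(d * prf f (fl M)) + γ * l ^ d := by
    intro l hl M hM
    have h1 : IsNilpotent.exp M * dg wt l * Y * (IsNilpotent.exp M * dg wt l)⁻¹ =
        IsNilpotent.exp M * dg wt l * MT.Hm wt * (IsNilpotent.exp M * dg wt l)⁻¹ +
        γ • (IsNilpotent.exp M * dg wt l * n * (IsNilpotent.exp M * dg wt l)⁻¹) := by
      rw [hY, Matrix.mul_add, Matrix.add_mul, Matrix.mul_smul, Matrix.smul_mul]
    rw [h1, fl_add, fl_smul, map_add, map_smul, h.prf_conj_Hm hd hf hfC hl hM,
      h.prf_conj hf hfC hnU hl hM, hfn, smul_eq_mul, mul_one]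
  -- `x Y x⁻¹ - H`
  have hconjY : ∀ x ∈ G, fl (x * Y * x⁻¹ - MT.Hm wt) ∈ UU wt G := by
    intro x hx
    have h1 := Submodule.add_mem _ (h.conj_Hm_mem hx) (Submodule.smul_mem _ γ (h.conj_mem hnU hx))
    convert h1 using 1
    rw [hY, Matrix.mul_add, Matrix.add_mul, Matrix.mul_smul, Matrix.smul_mul, ← fl_smul, ← fl_add]
    congr 1
    abel
  have hker : ∀ w : Matrix B B ℂ, fl w ∈ UU wt G → prf f (fl w) = 0 → ∀ x ∈ G,
      prf f (fl (x * w * x⁻¹)) = 0 := by
    intro w hw h0 x hx
    obtain ⟨l, M, hl, hM, rfl⟩ := h.tri' hx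
    rw [h.prf_conj hf hfC hw hl hM, h0, mul_zero]
  set κ : ℂ := -(d * a) with hκ
  have hκ' : κ ∈ K := neg_mem (MulMemClass.mul_mem (natCast_mem K d) ha)
  let Tf : Set (Matrix B B ℂ) := {x | x ∈ G ∧ prf f (fl (x * Y * x⁻¹)) = κ}
  have hTf : IsSubtorsor K Tf := by
    refine ⟨fun x hx => h.hG.isUnit x hx.1, ?_, ?_⟩
    · rintro x ⟨hx, hx1⟩ y ⟨hy, hy1⟩ z ⟨hz, hz1⟩
      have hg := h.hG.torsor x hx y hy z hz
      refine ⟨hg, ?_⟩
      -- the difference
      set w₁ : Matrix B B ℂ := z * Y * z⁻¹ - y * Y * y⁻¹ with hw₁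
      have hw1U : fl w₁ ∈ UU wt G := by
        have h1 := Submodule.sub_mem _ (hconjY z hz) (hconjY y hy)
        convert h1 using 1
        funext b
        simp only [hw₁, fl, Pi.sub_apply, Matrix.sub_apply]
        ring
      have hw1f : prf f (fl w₁) = 0 := by
        have h1 : fl w₁ = fl (z * Y * z⁻¹) - fl (y * Y * y⁻¹) := rfl
        rw [h1, map_sub, hz1, hy1, sub_self]
      have hxy : x * y⁻¹ ∈ G := h.mul_mem hx (h.inv_mem hy)
      have h2 := hker w₁ hw1U hw1f _ hxy
      have h3 : (x * y⁻¹)⁻¹ = y * x⁻¹ := by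
        refine Matrix.inv_eq_right_inv ?_
        rw [Matrix.mul_assoc, ← Matrix.mul_assoc y⁻¹, h.inv_mul hy, Matrix.one_mul, h.mul_inv hx]
      have h4 : (x * y⁻¹ * z)⁻¹ = z⁻¹ * (y * x⁻¹) := by
        refine Matrix.inv_eq_right_inv ?_
        rw [Matrix.mul_assoc (x * y⁻¹), ← Matrix.mul_assoc z, h.mul_inv hz, Matrix.one_mul, ← h3,
          h.mul_inv hxy]
      have h5 : x * y⁻¹ * w₁ * (x * y⁻¹)⁻¹ =
          x * y⁻¹ * z * Y * (x * y⁻¹ * z)⁻¹ - x * Y * x⁻¹ := by
        rw [h3, h4, hw₁, Matrix.mul_sub, Matrix.sub_mul]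
        congr 1
        · simp only [Matrix.mul_assoc]
        · have e1 : x * y⁻¹ * (y * Y * y⁻¹) * (y * x⁻¹) = x * ((y⁻¹ * y) * Y * (y⁻¹ * y)) * x⁻¹ := by
            simp only [Matrix.mul_assoc]
          rw [e1, h.inv_mul hy, Matrix.one_mul, Matrix.mul_one]
      have h6 : fl (x * y⁻¹ * z * Y * (x * y⁻¹ * z)⁻¹ - x * Y * x⁻¹) =
        fl (x * y⁻¹ * z * Y * (x * y⁻¹ * z)⁻¹) - fl (x * Y * x⁻¹) := rfl
      rw [h5, h6, map_sub, hx1, sub_eq_zero] at h2
      exact h2
    · obtain ⟨I, hI1, hI2⟩ := h.hG.algebraic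
      -- the equation
      set gen : Matrix B B (MvPolynomial (B × B) K) := Matrix.of fun b b' => X (b, b') with hgen
      set YK : Matrix B B (MvPolynomial (B × B) K) :=
        Matrix.of fun b b' => C (⟨Y b b', hYK b b'⟩ : K) with hYK'
      set q : MvPolynomial (B × B) K := ∑ b : B × B, C (⟨f b, hf.1 b⟩ : K) *
        (gen * YK * gen.adjugate) b.1 b.2 - C (⟨κ, hκ'⟩ : K) * gen.det with hq
      have hev : ∀ x : Matrix B B ℂ, MvPolynomial.eval (fun b => x b.1 b.2)
          (MvPolynomial.map (algebraMap K ℂ) q) =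
          prf f (fl (x * Y * x.adjugate)) - κ * x.det := by
        intro x
        set φ : MvPolynomial (B × B) K →+* ℂ :=
          (MvPolynomial.eval (fun b : B × B => x b.1 b.2)).comp
            (MvPolynomial.map (algebraMap K ℂ)) with hφ
        have h1 : gen.map φ = x := by
          ext b b'
          simp [hgen, hφ]
        have h2 : YK.map φ = Y := by
          ext b b'
          simp only [hYK', hφ, Matrix.map_apply, Matrix.of_apply, RingHom.comp_apply,
            MvPolynomial.map_C, MvPolynomial.eval_C]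
          rfl
        have h3 : (gen * YK * gen.adjugate).map φ = x * Y * x.adjugate := by
          have e1 : (gen * YK * gen.adjugate).map φ =
              gen.map φ * YK.map φ * (gen.adjugate).map φ := by
            rw [Matrix.map_mul, Matrix.map_mul]
          have e2 : (gen.adjugate).map φ = (gen.map φ).adjugate := by
            have := RingHom.map_adjugate φ gen
            simpa [RingHom.mapMatrix_apply] using this
          rw [e1, e2, h1, h2]
        have h4 : φ gen.det = x.det := by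
          rw [RingHom.map_det, RingHom.mapMatrix_apply, h1]
        change φ q = _
        rw [hq, map_sub, map_sum, map_mul, h4, prf_apply]
        have h5 : ∀ c : K, φ (C c) = (c : ℂ) := by
          intro c
          simp only [hφ, RingHom.comp_apply, MvPolynomial.map_C, MvPolynomial.eval_C]
          rfl
        rw [h5]
        congr 1
        refine Finset.sum_congr rfl fun b _ => ?_
        rw [map_mul, h5, ← h3]
        rfl
      refine ⟨I ∪ {MvPolynomial.map (algebraMap K ℂ) q}, ?_, ?_⟩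
      · rintro p (hp | hp) m
        · exact hI1 p hp m
        · rw [Set.mem_singleton_iff.1 hp, MvPolynomial.coeff_map]
          exact (q.coeff m).2
      · intro x
        have key : ∀ x : Matrix B B ℂ, IsUnit x → (MvPolynomial.eval (fun b => x b.1 b.2)
            (MvPolynomial.map (algebraMap K ℂ) q) = 0 ↔ prf f (fl (x * Y * x⁻¹)) = κ) := by
          intro x hx
          have hdet : x.det ≠ 0 := by
            intro h0
            rw [Matrix.isUnit_iff_isUnit_det, h0] at hx
            exact not_isUnit_zero hx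
          rw [hev]
          have h1 : x * Y * x.adjugate = x.det • (x * Y * x⁻¹) := by
            rw [Matrix.inv_def, Ring.inverse_eq_inv', Matrix.mul_smul, smul_smul,
              mul_inv_cancel₀ hdet, one_smul]
          rw [h1, fl_smul, map_smul, smul_eq_mul, mul_comm κ, ← mul_sub, mul_eq_zero,
            sub_eq_zero]
          exact ⟨fun h2 => h2.resolve_left hdet, fun h2 => Or.inr h2⟩
        constructor
        · rintro ⟨hx, hx1⟩
          refine ⟨h.hG.isUnit x hx, ?_⟩
          rintro p (hp | hp)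
          · exact ((hI2 x).1 hx).2 p hp
          · rw [Set.mem_singleton_iff.1 hp]
            exact (key x (h.hG.isUnit x hx)).2 hx1
        · rintro ⟨hu, hp⟩
          exact ⟨(hI2 x).2 ⟨hu, fun p hpI => hp p (Or.inl hpI)⟩,
            (key x hu).1 (hp _ (Or.inr rfl))⟩
  have hcG : IsNilpotent.exp L * dg wt τ ∈ G := h.mul_mem (h.exp_mem hL) (h.weight τ hτ)
  have hGT := hall Tf hTf ⟨hcG, by
    rw [hval hτ hL, hz, hκ, hγ]
    ring⟩
  have e0 := (hGT h.one_mem).2
  have h0U : fl (0 : Matrix B B ℂ) ∈ UU wt G := by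
    rw [fl_zero]
    exact Submodule.zero_mem _
  have v0 := hval (l := 1) one_ne_zero h0U
  rw [IsNilpotent.exp_zero, dg_one, Matrix.mul_one] at v0
  have v1 := hval (l := 1) one_ne_zero hnU
  have e1 := (hGT (h.exp_mem hnU)).2
  rw [dg_one, Matrix.mul_one] at v1
  rw [v0, fl_zero, map_zero] at e0
  rw [v1, hfn] at e1
  have hd0 : (d : ℂ) = 0 := by linear_combination e0 - e1
  have : d = 0 := by exact_mod_cast hd0
  omega

end Form

end Pool.Agent.U725.MT
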