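import Pool.Agent.U725.MT.Grad

/-!
# The Lie algebra of the unipotent radical
-/

set_option autoImplicit false
set_option linter.unusedSectionVars false

open Matrix MvPolynomial

namespace Pool.Agent.U725.MT

open Pool.Agent.TH127.PT Pool.Agent.TH119.MX Pool.Agent.TH119.DR Pool.Agent.Y123.ST
  Pool.Agent.U725.OM

variable {B : Type} [Fintype B] [DecidableEq B] {wt : B → ℕ} {K : Subfield ℂ}
  {G T : Set (Matrix B B ℂ)}

/-- the Lie algebra of the unipotent part -/
def UU (wt : B → ℕ) (G : Set (Matrix B B ℂ)) : Submodule ℂ (B × B → ℂ) where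
  carrier := {w | Fk wt 1 (um w) ∧ w ∈ LL G}
  zero_mem' := ⟨Fk.zero, Submodule.zero_mem _⟩
  add_mem' := by
    intro v w hv hw
    exact ⟨by rw [um_add]; exact hv.1.add hw.1, Submodule.add_mem _ hv.2 hw.2⟩
  smul_mem' := by
    intro a v hv
    exact ⟨by rw [um_smul]; exact hv.1.smul a, Submodule.smul_mem _ _ hv.2⟩

theorem mem_UU {X : Matrix B B ℂ} : fl X ∈ UU wt G ↔ Fk wt 1 X ∧ fl X ∈ LL G := Iff.rfl

/-- the commutators -/
def CC (wt : B → ℕ) (G : Set (Matrix B B ℂ)) : Submodule ℂ (B × B → ℂ) :=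
  Submodule.span ℂ {w | ∃ X Y : Matrix B B ℂ, fl X ∈ UU wt G ∧ fl Y ∈ UU wt G ∧
    w = fl (X * Y - Y * X)}

theorem br_UU {X Y : Matrix B B ℂ} (hX : fl X ∈ UU wt G) (hY : fl Y ∈ UU wt G) :
    fl (X * Y - Y * X) ∈ UU wt G := by
  refine ⟨?_, lie_mem hX.2 hY.2⟩
  exact ((hX.1.mul hY.1).sub (hY.1.mul hX.1)).mono (by norm_num)

theorem br_CC {X Y : Matrix B B ℂ} (hX : fl X ∈ UU wt G) (hY : fl Y ∈ UU wt G) :
    fl (X * Y - Y * X) ∈ CC wt G := Submodule.subset_span ⟨X, Y, hX, hY, rfl⟩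

theorem CC_le : CC wt G ≤ UU wt G := by
  rw [CC, Submodule.span_le]
  rintro _ ⟨X, Y, hX, hY, rfl⟩
  exact br_UU hX hY

theorem aut_UU (hG : IsSubtorsor K G) (σ : ℂ ≃+* ℂ) (hσ : ∀ x ∈ K, σ x = x) (w : B × B → ℂ)
    (hw : w ∈ UU wt G) : (fun i => σ (w i)) ∈ UU wt G :=
  ⟨hw.1.map (map_zero σ), LL_aut hG σ hσ w hw.2⟩

theorem aut_CC (hG : IsSubtorsor K G) (σ : ℂ ≃+* ℂ) (hσ : ∀ x ∈ K, σ x = x) (w : B × B → ℂ)
    (hw : w ∈ CC wt G) : (fun i => σ (w i)) ∈ CC wt G := by
  unfold CC at hw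
  induction hw using Submodule.span_induction with
  | mem w hw =>
    obtain ⟨X, Y, hX, hY, rfl⟩ := hw
    have h1 : (fun i => σ (fl (X * Y - Y * X) i)) =
        fl (X.map σ * Y.map σ - Y.map σ * X.map σ) := by
      have e1 := fl_map_mul σ X Y
      have e2 := fl_map_mul σ Y X
      funext i
      have e3 := congrFun e1 i
      have e4 := congrFun e2 i
      simp only [fl, Matrix.map_apply, Matrix.sub_apply, map_sub] at e3 e4 ⊢
      rw [e3, e4]
    rw [h1]
    exact br_CC (aut_UU hG σ hσ _ hX) (aut_UU hG σ hσ _ hY)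
  | zero =>
    have : (fun i : B × B => σ ((0 : B × B → ℂ) i)) = 0 := by
      funext i
      exact map_zero σ
    rw [this]
    exact Submodule.zero_mem _
  | add v w _ _ hv hw =>
    have : (fun i => σ ((v + w) i)) = (fun i => σ (v i)) + fun i => σ (w i) := by
      funext i
      exact map_add σ _ _
    rw [this]
    exact Submodule.add_mem _ hv hw
  | smul a v _ hv =>
    have : (fun i => σ ((a • v) i)) = σ a • fun i => σ (v i) := by
      funext i
      exact map_mul σ _ _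
    rw [this]
    exact Submodule.smul_mem _ _ hv

/-- The situation: an algebraic group, with its weights. -/
structure Mt (K : Subfield ℂ) (wt : B → ℕ) (G : Set (Matrix B B ℂ)) : Prop where
  hK : ∀ x ∈ K, IsAlgebraic ℚ x
  hG : IsSubtorsor K G
  weight : ∀ l : ℂ, l ≠ 0 → dg wt l ∈ G
  tri : ∀ x ∈ G, ∃ (l : ℂ) (M : Matrix B B ℂ), l ≠ 0 ∧ Fk wt 1 M ∧
    x = IsNilpotent.exp M * dg wt l

theorem Mt.one_mem (h : Mt K wt G) : (1 : Matrix B B ℂ) ∈ G := by
  rw [← dg_one (wt := wt)]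
  exact h.weight 1 one_ne_zero

theorem Mt.mul_mem (h : Mt K wt G) {x y : Matrix B B ℂ} (hx : x ∈ G) (hy : y ∈ G) :
    x * y ∈ G := by
  have := h.hG.torsor x hx 1 h.one_mem y hy
  rwa [inv_one, Matrix.mul_one] at this

theorem Mt.inv_mem (h : Mt K wt G) {x : Matrix B B ℂ} (hx : x ∈ G) : x⁻¹ ∈ G := by
  have := h.hG.torsor 1 h.one_mem x hx 1 h.one_mem
  rwa [Matrix.one_mul, Matrix.mul_one] at this

theorem Mt.Hm (h : Mt K wt G) : fl (Hm wt) ∈ LL G :=
  Hm_mem fun s hs _ hx => h.mul_mem (h.weight s hs) hx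

theorem Mt.log_mem (h : Mt K wt G) {M : Matrix B B ℂ} (hM : Fk wt 1 M)
    (hG : IsNilpotent.exp M ∈ G) : fl M ∈ UU wt G := by
  refine ⟨hM, mem_LL_of_exp hM.nil fun s x hx => ?_⟩
  refine exp_all h.hG hM.nil (fun m => ?_) s
  induction m with
  | zero => rwa [Nat.cast_zero, zero_smul, IsNilpotent.exp_zero, Matrix.one_mul]
  | succ m ih =>
    have h1 : ((m + 1 : ℕ) : ℂ) • M = M + (m : ℂ) • M := by
      push_cast
      rw [add_smul, one_smul, add_comm]
    rw [h1, IsNilpotent.exp_add_of_commute (Commute.smul_right rfl _) hM.nil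
      (hM.smul _).nil, Matrix.mul_assoc]
    exact h.mul_mem hG ih

theorem Mt.exp_mem (h : Mt K wt G) {M : Matrix B B ℂ} (hM : fl M ∈ UU wt G) :
    IsNilpotent.exp M ∈ G := by
  have := MT.exp_mem h.hG hM.1.nil hM.2 h.one_mem 1
  rwa [one_smul, Matrix.mul_one] at this

theorem Mt.Hm_UU (h : Mt K wt G) {X : Matrix B B ℂ} (hX : fl X ∈ UU wt G) :
    fl (MT.Hm wt * X - X * MT.Hm wt) ∈ UU wt G :=
  ⟨hX.1.br_Hm, lie_mem h.Hm hX.2⟩

theorem Mt.Hm_CC (h : Mt K wt G) {X : Matrix B B ℂ} (hX : fl X ∈ CC wt G) :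
    fl (MT.Hm wt * X - X * MT.Hm wt) ∈ CC wt G := by
  have key : ∀ w ∈ CC wt G, fl (MT.Hm wt * um w - um w * MT.Hm wt) ∈ CC wt G := by
    intro w hw
    unfold CC at hw
    induction hw using Submodule.span_induction with
    | mem w hw =>
      obtain ⟨X, Y, hX, hY, rfl⟩ := hw
      rw [um_fl]
      have h1 : MT.Hm wt * (X * Y - Y * X) - (X * Y - Y * X) * MT.Hm wt =
          ((MT.Hm wt * X - X * MT.Hm wt) * Y - Y * (MT.Hm wt * X - X * MT.Hm wt)) +
          (X * (MT.Hm wt * Y - Y * MT.Hm wt) - (MT.Hm wt * Y - Y * MT.Hm wt) * X) := by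
        noncomm_ring
      rw [h1, fl_add]
      exact Submodule.add_mem _ (br_CC (h.Hm_UU hX) hY) (br_CC hX (h.Hm_UU hY))
    | zero =>
      rw [um_zero, Matrix.mul_zero, Matrix.zero_mul, sub_zero, fl_zero]
      exact Submodule.zero_mem _
    | add v w _ _ hv hw =>
      have h1 : MT.Hm wt * um (v + w) - um (v + w) * MT.Hm wt =
          (MT.Hm wt * um v - um v * MT.Hm wt) + (MT.Hm wt * um w - um w * MT.Hm wt) := by
        rw [um_add]
        noncomm_ring
      rw [h1, fl_add]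
      exact Submodule.add_mem _ hv hw
    | smul a v _ hv =>
      have h1 : MT.Hm wt * um (a • v) - um (a • v) * MT.Hm wt =
          a • (MT.Hm wt * um v - um v * MT.Hm wt) := by
        rw [um_smul, Matrix.mul_smul, Matrix.smul_mul, smul_sub]
      rw [h1, fl_smul]
      exact Submodule.smul_mem _ _ hv
  have h1 := key (fl X) hX
  rwa [um_fl] at h1

/-! ### Graded subspaces -/

/-- the operator `[H, ·]` -/
def aH (wt : B → ℕ) (w : B × B → ℂ) : B × B → ℂ := fun b => ((wt b.1 : ℂ) - wt b.2) * w b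

theorem aH_fl (X : Matrix B B ℂ) : aH wt (fl X) = fl (MT.Hm wt * X - X * MT.Hm wt) := by
  funext b
  exact (Hm_br X b.1 b.2).symm

/-- a subspace which is stable under `[H, ·]` is graded -/
theorem graded {W : Submodule ℂ (B × B → ℂ)} (hW : ∀ w ∈ W, aH wt w ∈ W)
    (hW1 : ∀ w ∈ W, Fk wt 1 (um w)) (d : ℕ) {w : B × B → ℂ} (hw : w ∈ W) :
    fl (dgr wt d (um w)) ∈ W := by
  classical
  obtain ⟨M, hM⟩ := exists_bound wt
  have h1 : ∀ S : Finset ℕ, (fun b : B × B => (∏ e ∈ S, (((wt b.1 : ℂ) - wt b.2) - e)) * w b) ∈ W := by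
    intro S
    induction S using Finset.induction_on with
    | empty => simpa using hw
    | insert e S he ih =>
      have h2 := Submodule.sub_mem _ (hW _ ih) (Submodule.smul_mem _ (e : ℂ) ih)
      convert h2 using 1
      funext b
      rw [Finset.prod_insert he]
      simp only [aH, Pi.sub_apply, Pi.smul_apply, smul_eq_mul]
      ring
  have h2 := h1 ((Finset.range (M + 1)).erase d)
  set a : ℂ := ∏ e ∈ (Finset.range (M + 1)).erase d, ((d : ℂ) - e) with ha
  have ha0 : a ≠ 0 := by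
    rw [ha, Finset.prod_ne_zero_iff]
    intro e he h3
    rw [sub_eq_zero] at h3
    exact (Finset.mem_erase.1 he).1 (by exact_mod_cast h3.symm)
  have h3 := Submodule.smul_mem _ a⁻¹ h2
  convert h3 using 1
  funext b
  simp only [fl, dgr, um, Matrix.of_apply, Pi.smul_apply, smul_eq_mul]
  by_cases hw0 : w b = 0
  · have : w (b.1, b.2) = 0 := hw0
    rw [this]
    simp
  have h4 : wt b.2 + 1 ≤ wt b.1 := hW1 w hw b.1 b.2 hw0
  split_ifs with h5
  · have h6 : (wt b.1 : ℂ) - wt b.2 = d := by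
      rw [h5]
      push_cast
      ring
    rw [h6, ← ha, ← mul_assoc, inv_mul_cancel₀ ha0, one_mul]
  · have h6 : ∏ e ∈ (Finset.range (M + 1)).erase d, (((wt b.1 : ℂ) - wt b.2) - e) = 0 := by
      refine Finset.prod_eq_zero (i := wt b.1 - wt b.2) ?_ ?_
      · rw [Finset.mem_erase, Finset.mem_range]
        have := hM b.1
        constructor
        · intro h7
          apply h5
          omega
        · omega
      · rw [Nat.cast_sub (by omega)]
        ring
    rw [h6]
    ring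

/-- a matrix is the sum of its graded parts -/
theorem sum_dgr {X : Matrix B B ℂ} (hX : Fk wt 1 X) {M : ℕ} (hM : ∀ b, wt b ≤ M) :
    fl X = ∑ d ∈ Finset.range M, fl (dgr wt (d + 1) X) := by
  funext b
  rw [Finset.sum_apply]
  simp only [fl, dgr, Matrix.of_apply]
  by_cases hX0 : X b.1 b.2 = 0
  · rw [hX0]
    simp
  have h1 := hX b.1 b.2 hX0
  have h2 := hM b.1
  rw [Finset.sum_eq_single (wt b.1 - wt b.2 - 1)]
  · rw [if_pos (by omega)]
  · intro d _ hd
    rw [if_neg (by omega)]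
  · intro h3
    rw [Finset.mem_range] at h3
    omega

/-- **Frattini.** -/
theorem frattini {S : Submodule ℂ (B × B → ℂ)} (hS : S ≤ UU wt G)
    (hbr : ∀ X Y : Matrix B B ℂ, fl X ∈ S → fl Y ∈ S → fl (X * Y - Y * X) ∈ S)
    (h : UU wt G ≤ S ⊔ CC wt G) : UU wt G ≤ S := by
  -- the filtration
  let F : ℕ → Submodule ℂ (B × B → ℂ) := fun k =>
    { carrier := {w | Fk wt k (um w) ∧ w ∈ UU wt G}
      zero_mem' := ⟨Fk.zero, Submodule.zero_mem _⟩
      add_mem' := by
        intro v w hv hw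
        exact ⟨by rw [um_add]; exact hv.1.add hw.1, Submodule.add_mem _ hv.2 hw.2⟩
      smul_mem' := by
        intro a v hv
        exact ⟨by rw [um_smul]; exact hv.1.smul a, Submodule.smul_mem _ _ hv.2⟩ }
  have h1 : ∀ k, UU wt G ≤ S ⊔ F k := by
    intro k
    induction k with
    | zero =>
      refine le_trans ?_ le_sup_right
      intro w hw
      exact ⟨hw.1.mono (Nat.zero_le _), hw⟩
    | succ k ih =>
      refine le_trans h (sup_le le_sup_left ?_)
      rw [CC, Submodule.span_le]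
      rintro _ ⟨X, Y, hX, hY, rfl⟩
      obtain ⟨s, hs, x, hx, hsx⟩ := Submodule.mem_sup.1 (ih hX)
      obtain ⟨s', hs', y, hy, hsy⟩ := Submodule.mem_sup.1 (ih hY)
      have e1 : X = um s + um x := by
        rw [← um_add, hsx, um_fl]
      have e2 : Y = um s' + um y := by
        rw [← um_add, hsy, um_fl]
      have e3 : X * Y - Y * X = (um s * um s' - um s' * um s) +
          ((um s * um y - um y * um s) + (um x * Y - Y * um x)) := by
        rw [e1, e2]
        noncomm_ring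
      rw [e3, fl_add]
      refine Submodule.add_mem_sup (hbr _ _ hs hs') ?_
      rw [fl_add]
      refine Submodule.add_mem _ ?_ ?_
      · refine ⟨?_, br_UU (hS hs) hy.2⟩
        rw [um_fl]
        have f1 := (hS hs).1.mul hy.1
        have f2 := hy.1.mul (hS hs).1
        rw [Nat.add_comm] at f1
        exact f1.sub f2
      · refine ⟨?_, br_UU hx.2 hY⟩
        rw [um_fl]
        have f1 := hx.1.mul hY.1
        have f2 := hY.1.mul hx.1
        rw [Nat.add_comm] at f2
        exact f1.sub f2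
  obtain ⟨M, hM⟩ := exists_bound wt
  have h2 : F (M + 1) ≤ S := by
    intro w hw
    have h3 : um w = 0 := hw.1.eq_zero hM (Nat.lt_succ_self M)
    have h4 : w = 0 := by
      have := congrArg fl h3
      rwa [fl_um, fl_zero] at this
    rw [h4]
    exact Submodule.zero_mem _
  exact le_trans (h1 (M + 1)) (sup_le le_rfl h2)

end Pool.Agent.U725.MT
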