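import Pool.Agent.U725.MT.Ad

/-!
# The criterion: the subtorsor is everything
-/

set_option autoImplicit false
set_option linter.unusedSectionVars false

open Matrix MvPolynomial

namespace Pool.Agent.U725.MT

open Pool.Agent.TH127.PT Pool.Agent.TH119.MX Pool.Agent.TH119.DR Pool.Agent.Y123.ST
  Pool.Agent.U725.OM

variable {B : Type} [Fintype B] [DecidableEq B] {wt : B → ℕ} {K : Subfield ℂ}
  {G T : Set (Matrix B B ℂ)}

/-- the elements of the Lie algebra of `T` in `ℂ H + 𝔲` -/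
def TT (wt : B → ℕ) (G T : Set (Matrix B B ℂ)) : Submodule ℂ (B × B → ℂ) where
  carrier := {w | w ∈ LL T ∧ ∃ a : ℂ, w - a • fl (Hm wt) ∈ UU wt G}
  zero_mem' := ⟨Submodule.zero_mem _, 0, by
    rw [zero_smul, sub_zero]
    exact Submodule.zero_mem _⟩
  add_mem' := by
    rintro v w ⟨hv, a, ha⟩ ⟨hw, a', ha'⟩
    refine ⟨Submodule.add_mem _ hv hw, a + a', ?_⟩
    have h1 : v + w - (a + a') • fl (Hm wt) = (v - a • fl (Hm wt)) + (w - a' • fl (Hm wt)) := by
      rw [add_smul]
      abel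
    rw [h1]
    exact Submodule.add_mem _ ha ha'
  smul_mem' := by
    rintro s v ⟨hv, a, ha⟩
    refine ⟨Submodule.smul_mem _ _ hv, s * a, ?_⟩
    rw [mul_smul, ← smul_sub]
    exact Submodule.smul_mem _ _ ha

theorem aut_Hm (σ : ℂ ≃+* ℂ) : (fun i => σ (fl (Hm wt) i)) = fl (Hm wt) := by
  funext i
  simp only [fl, Hm, Matrix.diagonal_apply]
  split_ifs
  · exact map_natCast σ _
  · exact map_zero σ

theorem aut_TT (hG : IsSubtorsor K G) (hT : IsSubtorsor K T) (σ : ℂ ≃+* ℂ)
    (hσ : ∀ x ∈ K, σ x = x) (w : B × B → ℂ) (hw : w ∈ TT wt G T) :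
    (fun i => σ (w i)) ∈ TT wt G T := by
  obtain ⟨h1, a, ha⟩ := hw
  refine ⟨LL_aut hT σ hσ w h1, σ a, ?_⟩
  have h2 := aut_UU hG σ hσ _ ha
  convert h2 using 1
  funext i
  have h3 := congrFun (aut_Hm (wt := wt) σ) i
  simp only [Pi.sub_apply, Pi.smul_apply, smul_eq_mul, map_sub, map_mul]
  rw [h3]

theorem UU_diag {w : B × B → ℂ} (hw : w ∈ UU wt G) (b : B) : w (b, b) = 0 := by
  by_contra h
  have h1 := hw.1 b b h
  omega

theorem Hm_diag (b : B) : fl (Hm wt) (b, b) = (wt b : ℂ) := by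
  simp [fl, Hm]

/-- a number which is killed by all derivations over `K` -/
theorem alg_of_der (hK : ∀ x ∈ K, IsAlgebraic ℚ x) {z : ℂ}
    (h : ∀ D : Derivation K ℂ ℂ, D z = 0) : IsAlgebraic ℚ z := by
  by_contra hz
  have hz' : Transcendental ℚ z := hz
  have _ : Algebra.IsAlgebraic ℚ K := ⟨fun x => by
    have h1 := hK x x.2
    exact (isAlgebraic_algebraMap_iff (A := ℂ) (algebraMap K ℂ).injective).1 h1⟩
  have hzK : Transcendental K z := by
    intro h
    exact hz' (h.restrictScalars ℚ)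
  have hind : AlgebraicIndependent K (fun _ : Unit => z) :=
    (algebraicIndependent_unique_type_iff).2 hzK
  obtain ⟨D, hD⟩ := Pool.Agent.H135R2.VS.exists_der hind (fun _ => (1 : ℂ))
  have h1 := hD ()
  rw [h D] at h1
  exact zero_ne_one h1

/-- **The criterion.** -/
theorem crit (h : Mt K wt G) {τ : ℂ} (hτ : Transcendental ℚ τ) {L : Matrix B B ℂ} (hL : fl L ∈ UU wt G)
    (hcr : ∀ d : ℕ, 1 ≤ d → ∀ f : B × B → ℂ, IsForm K wt d f → (∀ w ∈ CC wt G, prf f w = 0) →
      (∃ a ∈ K, ∃ β ∈ K, prf f (fl L) = a + β * τ ^ d) → ∀ w ∈ UU wt G, prf f w = 0)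
    (hT : IsSubtorsor K T) (hc : IsNilpotent.exp L * dg wt τ ∈ T) : G ⊆ T := by
  classical
  have hτ0 : τ ≠ 0 := fun h0 => hτ (by rw [h0]; exact isAlgebraic_zero)
  by_cases hwt : ∃ b, wt b ≠ 0
  swap
  · push Not at hwt
    have hz : ∀ M : Matrix B B ℂ, Fk wt 1 M → M = 0 := fun M hM =>
      hM.eq_zero (M := 0) (fun b => (hwt b).le) (by norm_num)
    have hd : ∀ l : ℂ, dg wt l = 1 := by
      intro l
      unfold dg
      rw [← Matrix.diagonal_one]
      congr 1
      funext b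
      rw [hwt b, pow_zero]
    intro x hx
    obtain ⟨l, M, _, hM, rfl⟩ := h.tri x hx
    rw [hz M hM, hd]
    rw [hz L hL.1, hd] at hc
    exact hc
  obtain ⟨b₀, hb₀⟩ := hwt
  have hb₀' : (wt b₀ : ℂ) ≠ 0 := by exact_mod_cast hb₀
  -- a rational element with `H`-coordinate one
  obtain ⟨D₀, hD₀⟩ : ∃ D : Derivation K ℂ ℂ, D τ ≠ 0 := by
    by_contra hcon
    push Not at hcon
    exact hτ (alg_of_der h.hK hcon)
  have hwTT : ∀ D : Derivation K ℂ ℂ, fl (wD wt D τ L) ∈ TT wt G T := fun D =>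
    ⟨wD_mem hT D hτ0 hL.1 hc, D τ / τ, wD_UU h D τ hL⟩
  obtain ⟨h₀, ⟨hh1, a, ha⟩, hhK, hh2⟩ := exists_rat (TT wt G T) (aut_TT h.hG hT)
    (LinearMap.proj (b₀, b₀)) ⟨_, hwTT D₀, by
      rw [LinearMap.proj_apply]
      have h1 := UU_diag (wD_UU h D₀ τ hL) b₀
      have h2 : fl (wD wt D₀ τ L - (D₀ τ / τ) • Hm wt) (b₀, b₀) =
        fl (wD wt D₀ τ L) (b₀, b₀) - (D₀ τ / τ) * fl (Hm wt) (b₀, b₀) := rfl
      rw [h2, Hm_diag, sub_eq_zero] at h1
      rw [h1]
      exact mul_ne_zero (div_ne_zero hD₀ hτ0) hb₀'⟩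
  rw [LinearMap.proj_apply] at hh2
  have ha1 : h₀ (b₀, b₀) = a * (wt b₀ : ℂ) := by
    have h1 := UU_diag ha b₀
    have h2 : (h₀ - a • fl (Hm wt)) (b₀, b₀) = h₀ (b₀, b₀) - a * fl (Hm wt) (b₀, b₀) := rfl
    rw [h2, Hm_diag, sub_eq_zero] at h1
    exact h1
  have ha0 : a ≠ 0 := by
    rintro rfl
    rw [zero_mul] at ha1
    exact hh2 ha1
  have haK : a ∈ K := by
    have h1 : a = h₀ (b₀, b₀) / (wt b₀ : ℂ) := by
      rw [ha1, mul_div_cancel_right₀ _ hb₀']
    rw [h1]
    exact div_mem (hhK _) (natCast_mem K _)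
  set Y₀ : Matrix B B ℂ := um (a⁻¹ • (h₀ - a • fl (Hm wt))) with hY₀
  have hYU : fl Y₀ ∈ UU wt G := Submodule.smul_mem _ _ ha
  have hYK : ∀ b, fl Y₀ b ∈ K := by
    intro b
    rw [hY₀, fl_um]
    refine mul_mem (inv_mem haK) (sub_mem (hhK b) (mul_mem haK ?_))
    simp only [fl, Hm, Matrix.diagonal_apply]
    split_ifs
    · exact natCast_mem K _
    · exact K.zero_mem
  have hHY : fl (Hm wt + Y₀) ∈ LL T := by
    have h1 : fl (Hm wt + Y₀) = a⁻¹ • h₀ := by
      rw [fl_add, hY₀, fl_um, smul_sub, smul_smul, inv_mul_cancel₀ ha0, one_smul]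
      abel
    rw [h1]
    exact Submodule.smul_mem _ _ hh1
  -- the rational subspaces
  set S : Submodule ℂ (B × B → ℂ) := LL T ⊓ UU wt G with hS
  set W : Submodule ℂ (B × B → ℂ) := S ⊔ CC wt G with hW
  have hWU : W ≤ UU wt G := sup_le inf_le_right CC_le
  have hWaut : ∀ σ : ℂ ≃+* ℂ, (∀ x ∈ K, σ x = x) → ∀ v ∈ W, (fun i => σ (v i)) ∈ W := by
    intro σ hσ v hv
    obtain ⟨s, hs, c, hc', hsc⟩ := Submodule.mem_sup.1 hv
    have h1 : (fun i => σ (v i)) = (fun i => σ (s i)) + fun i => σ (c i) := by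
      funext i
      rw [← hsc]
      exact map_add σ _ _
    rw [h1]
    exact Submodule.add_mem_sup ⟨LL_aut hT σ hσ s hs.1, aut_UU h.hG σ hσ s hs.2⟩
      (aut_CC h.hG σ hσ c hc')
  have hWaH : ∀ w ∈ W, aH wt w ∈ W := by
    intro v hv
    obtain ⟨s, hs, c, hc', hsc⟩ := Submodule.mem_sup.1 hv
    have h1 : aH wt v = aH wt s + aH wt c := by
      funext i
      rw [← hsc]
      simp only [aH, Pi.add_apply]
      ring
    have h2 : aH wt c ∈ CC wt G := by
      have h3 := h.Hm_CC (X := um c) hc'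
      rwa [← aH_fl, fl_um] at h3
    have hsU : fl (um s) ∈ UU wt G := hs.2
    have hsT : fl (um s) ∈ LL T := hs.1
    have h3 : aH wt s = fl ((Hm wt + Y₀) * um s - um s * (Hm wt + Y₀)) -
        fl (Y₀ * um s - um s * Y₀) := by
      have h4 := aH_fl (wt := wt) (um s)
      rw [fl_um] at h4
      rw [h4]
      funext b
      simp only [fl, Pi.sub_apply, Matrix.sub_apply, Matrix.add_mul, Matrix.mul_add,
        Matrix.add_apply]
      ring
    have h5 : fl (Y₀ * um s - um s * Y₀) ∈ CC wt G := br_CC hYU hsU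
    have h6 : fl ((Hm wt + Y₀) * um s - um s * (Hm wt + Y₀)) ∈ S := by
      refine ⟨lie_mem hHY hsT, ?_⟩
      have h7 := Submodule.add_mem _ (h.Hm_UU hsU) (br_UU hYU hsU)
      have h8 : fl ((Hm wt + Y₀) * um s - um s * (Hm wt + Y₀)) =
          fl (Hm wt * um s - um s * Hm wt) + fl (Y₀ * um s - um s * Y₀) := by
        rw [← fl_add]
        congr 1
        noncomm_ring
      rw [h8]
      exact h7
    rw [h1]
    refine Submodule.add_mem _ ?_ (Submodule.mem_sup_right h2)
    rw [h3]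
    exact Submodule.sub_mem _ (Submodule.mem_sup_left h6) (Submodule.mem_sup_right h5)
  -- the main claim
  have hUW : UU wt G ≤ W := by
    by_contra hcon
    obtain ⟨w₀, hw₀, hw₀'⟩ := SetLike.not_le_iff_exists.1 hcon
    obtain ⟨M, hM⟩ := exists_bound wt
    obtain ⟨d, hd⟩ : ∃ d : ℕ, fl (dgr wt (d + 1) (um w₀)) ∉ W := by
      by_contra hcon2
      push Not at hcon2
      apply hw₀'
      have h1 := sum_dgr (X := um w₀) hw₀.1 hM
      rw [fl_um] at h1
      rw [h1]
      exact Submodule.sum_mem _ fun d _ => hcon2 d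
    have hUaH : ∀ w ∈ UU wt G, aH wt w ∈ UU wt G := by
      intro w hw
      have h3 := h.Hm_UU (X := um w) hw
      rwa [← aH_fl, fl_um] at h3
    have hvU := graded hUaH (fun w hw => hw.1) (d + 1) hw₀
    obtain ⟨f, hfK, hfW, hfv⟩ := exists_form W hWaut hd
    set g : B × B → ℂ := fun b => if wt b.1 = wt b.2 + (d + 1) then f b else 0 with hg
    have hgform : IsForm K wt (d + 1) g := by
      constructor
      · intro b
        rw [hg]
        dsimp only
        split_ifs
        · exact hfK b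
        · exact K.zero_mem
      · intro b hb
        by_contra h1
        apply hb
        rw [hg]
        dsimp only
        rw [if_neg h1]
    have hgf : ∀ w : B × B → ℂ, prf g w = prf f (fl (dgr wt (d + 1) (um w))) := by
      intro w
      rw [prf_apply, prf_apply]
      refine Finset.sum_congr rfl fun b _ => ?_
      simp only [hg, fl, dgr, um, Matrix.of_apply]
      split_ifs
      · rfl
      · rw [zero_mul, mul_zero]
    have hgW : ∀ w ∈ W, prf g w = 0 := by
      intro w hw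
      rw [hgf]
      exact hfW _ (graded hWaH (fun w hw => (hWU hw).1) (d + 1) hw)
    have hgC : ∀ w ∈ CC wt G, prf g w = 0 := fun w hw => hgW w (Submodule.mem_sup_right hw)
    have hgv : prf g (fl (dgr wt (d + 1) (um w₀))) ≠ 0 := by
      rw [hgf]
      have h1 : dgr wt (d + 1) (um (fl (dgr wt (d + 1) (um w₀)))) = dgr wt (d + 1) (um w₀) := by
        ext b b'
        simp only [um_fl, dgr, Matrix.of_apply]
        split_ifs <;> rfl
      rw [h1]
      exact hfv
    apply hgv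
    refine hcr (d + 1) (Nat.le_add_left 1 d) g hgform hgC ?_ _ hvU
    -- the relation
    set z : ℂ := prf g (fl L) with hz
    set a₀ : ℂ := prf g (fl Y₀) with ha₀
    have ha₀K : a₀ ∈ K := by
      rw [ha₀, prf_apply]
      exact sum_mem fun b _ => mul_mem (hgform.1 b) (hYK b)
    have hd1 : ((d + 1 : ℕ) : ℂ) ≠ 0 := by exact_mod_cast Nat.succ_ne_zero d
    have hLG : IsNilpotent.exp L ∈ G := h.exp_mem hL
    have hcG : IsNilpotent.exp L * dg wt τ ∈ G := h.mul_mem hLG (h.weight τ hτ0)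
    have hy : (z + a₀ / (d + 1 : ℕ)) / τ ^ (d + 1) ∈ K := by
      refine mem_of_fixed fun σ hσ => ?_
      -- the conjugate point
      have hcσ : (IsNilpotent.exp L * dg wt τ).map σ =
          IsNilpotent.exp (L.map σ) * dg wt (σ τ) := by
        have e1 : (IsNilpotent.exp L * dg wt τ).map σ =
            (IsNilpotent.exp L).map σ * (dg wt τ).map σ :=
          Matrix.map_mul (f := (σ : ℂ →+* ℂ))
        have e2 : (IsNilpotent.exp L).map σ = IsNilpotent.exp (L.map σ) :=
          IsNilpotent.map_exp (A := Matrix B B ℂ) hL.1.nil ((σ : ℂ →+* ℂ).mapMatrix (m := B))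
        have e3 : (dg wt τ).map σ = dg wt (σ τ) := by
          unfold dg
          rw [Matrix.diagonal_map (map_zero σ)]
          congr 1
          funext b
          exact map_pow σ _ _
        rw [e1, e2, e3]
      have hcσT := aut_mem hT hσ hc
      have hστ : σ τ ≠ 0 := by
        intro h0
        exact hτ0 (by simpa using h0)
      have hLσ : fl (L.map σ) ∈ UU wt G := aut_UU h.hG σ hσ _ hL
      have hcσG := aut_mem h.hG hσ hcG
      rw [hcσ] at hcσT hcσG
      set c := IsNilpotent.exp L * dg wt τ with hc'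
      set c' := IsNilpotent.exp (L.map σ) * dg wt (σ τ) with hc''
      -- the element of the right Lie algebra
      set r : Matrix B B ℂ := c'⁻¹ * (Hm wt + Y₀) * c' with hr
      have hrR : fl r ∈ RR T := conj_mem hT hcσT hHY
      have hrL : fl (c * r * c⁻¹) ∈ LL T := conj_mem' hT hc hrR
      have hcinv : c'⁻¹ ∈ G := h.inv_mem hcσG
      have hcinv2 : (c'⁻¹)⁻¹ = c' := Matrix.nonsing_inv_nonsing_inv _
        ((Matrix.isUnit_iff_isUnit_det _).1 (h.hG.isUnit _ hcσG))
      set R : Matrix B B ℂ := r - Hm wt with hR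
      have hRU : fl R ∈ UU wt G := by
        have e1 := Submodule.add_mem _ (h.conj_Hm_mem hcinv) (h.conj_mem hYU hcinv)
        rw [hcinv2] at e1
        have e2 : fl R = fl (c'⁻¹ * Hm wt * c' - Hm wt) + fl (c'⁻¹ * Y₀ * c') := by
          rw [← fl_add, hR, hr, Matrix.mul_add, Matrix.add_mul]
          congr 1
          abel
        rw [e2]
        exact e1
      have hrR' : r = Hm wt + R := by rw [hR]; abel
      have hval : ∀ {l : ℂ}, l ≠ 0 → ∀ {M : Matrix B B ℂ}, fl M ∈ UU wt G →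
          ∀ {V : Matrix B B ℂ}, fl V ∈ UU wt G →
          prf g (fl (IsNilpotent.exp M * dg wt l * (Hm wt + V) *
            (IsNilpotent.exp M * dg wt l)⁻¹)) =
            -((d + 1 : ℕ) * prf g (fl M)) + l ^ (d + 1) * prf g (fl V) := by
        intro l hl M hM V hV
        rw [Matrix.mul_add, Matrix.add_mul, fl_add, map_add,
          h.prf_conj_Hm (Nat.le_add_left 1 d) hgform hgC hl hM, h.prf_conj hgform hgC hV hl hM]
      have e1 : prf g (fl (c' * r * c'⁻¹)) = a₀ := by
        have e2 : c' * r * c'⁻¹ = Hm wt + Y₀ := by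
          rw [hr]
          have e3 : c' * (c'⁻¹ * (Hm wt + Y₀) * c') * c'⁻¹ =
              (c' * c'⁻¹) * (Hm wt + Y₀) * (c' * c'⁻¹) := by
            simp only [Matrix.mul_assoc]
          rw [e3, h.mul_inv hcσG, Matrix.one_mul, Matrix.mul_one]
        rw [e2, fl_add, map_add, prf_Hm (Nat.le_add_left 1 d) hgform, zero_add]
      have e2 := hval hστ hLσ hRU
      rw [← hrR', ← hc'', e1] at e2
      have e3 := hval hτ0 hL hRU
      rw [← hrR', ← hc'] at e3
      have e4 : prf g (fl (c * r * c⁻¹)) = a₀ := by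
        have e5 : fl (c * r * c⁻¹) - fl (Hm wt + Y₀) ∈ S := by
          refine ⟨Submodule.sub_mem _ hrL hHY, ?_⟩
          have e6 := Submodule.sub_mem _ (Submodule.add_mem _ (h.conj_Hm_mem hcG)
            (h.conj_mem hRU hcG)) hYU
          have e7 : fl (c * r * c⁻¹) - fl (Hm wt + Y₀) =
              fl (c * Hm wt * c⁻¹ - Hm wt) + fl (c * R * c⁻¹) - fl Y₀ := by
            rw [hrR', Matrix.mul_add, Matrix.add_mul]
            funext b
            simp only [fl, Pi.sub_apply, Pi.add_apply, Matrix.add_apply, Matrix.sub_apply]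
            ring
          rw [e7]
          exact e6
        have e8 := hgW _ (Submodule.mem_sup_left e5)
        rw [map_sub, sub_eq_zero] at e8
        rw [e8, fl_add, map_add, prf_Hm (Nat.le_add_left 1 d) hgform, zero_add]
      rw [e4] at e3
      have e5 : prf g (fl (L.map σ)) = σ z := by
        rw [hz, prf_apply, prf_apply, map_sum]
        refine Finset.sum_congr rfl fun b _ => ?_
        rw [map_mul, hσ _ (hgform.1 b)]
        rfl
      rw [e5] at e2
      have hστd : (σ τ) ^ (d + 1) ≠ 0 := pow_ne_zero _ hστ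
      have hτd : τ ^ (d + 1) ≠ 0 := pow_ne_zero _ hτ0
      have e6 : σ ((z + a₀ / (d + 1 : ℕ)) / τ ^ (d + 1)) =
          (σ z + a₀ / (d + 1 : ℕ)) / (σ τ) ^ (d + 1) := by
        rw [map_div₀, map_add, map_div₀, map_pow, hσ a₀ ha₀K, map_natCast]
      rw [e6, div_eq_div_iff hστd hτd]
      have e7 : σ z + a₀ / (d + 1 : ℕ) = (σ τ) ^ (d + 1) * prf g (fl R) / (d + 1 : ℕ) := by
        field_simp
        linear_combination e2
      have e8 : z + a₀ / (d + 1 : ℕ) = τ ^ (d + 1) * prf g (fl R) / (d + 1 : ℕ) := by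
        field_simp
        linear_combination e3
      rw [e7, e8]
      ring
    refine ⟨-(a₀ / (d + 1 : ℕ)), neg_mem (div_mem ha₀K (natCast_mem K _)), _, hy, ?_⟩
    rw [div_mul_cancel₀ _ (pow_ne_zero _ hτ0)]
    ring
  -- Frattini
  have hUS : UU wt G ≤ S := frattini inf_le_right
    (fun X Y hX hY => ⟨lie_mem hX.1 hY.1, br_UU hX.2 hY.2⟩) hUW
  have hUT : UU wt G ≤ LL T := le_trans hUS inf_le_left
  have hHT : fl (Hm wt) ∈ LL T := by
    have h1 := Submodule.sub_mem _ hHY (hUT hYU)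
    rwa [fl_add, add_sub_cancel_right] at h1
  -- the group
  intro x hx
  obtain ⟨l, M, hl, hM, rfl⟩ := h.tri x hx
  have hMG : IsNilpotent.exp M ∈ G := by
    have h1 := h.mul_mem hx (h.weight l⁻¹ (inv_ne_zero hl))
    rwa [Matrix.mul_assoc, dg_mul, mul_inv_cancel₀ hl, dg_one, Matrix.mul_one] at h1
  have hMU := h.log_mem hM hMG
  have h1 : dg wt τ ∈ T := by
    have h4 : IsNilpotent.exp ((-1 : ℂ) • L) * (IsNilpotent.exp L * dg wt τ) ∈ T :=
      exp_mem hT hL.1.nil (hUT hL) hc (-1)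
    have h5 : IsNilpotent L := hL.1.nil
    rwa [neg_one_smul, ← Matrix.mul_assoc, IsNilpotent.exp_neg_mul_exp_self h5,
      Matrix.one_mul] at h4
  have h2 : dg wt l ∈ T := by
    have h3 := dg_mem hT hHT h1 (s := l / τ) (div_ne_zero hl hτ0)
    rwa [dg_mul, div_mul_cancel₀ _ hτ0] at h3
  have h3 := exp_mem hT hMU.1.nil (hUT hMU) h2 1
  have h4 : (1 : ℂ) • M = M := one_smul _ _
  have h5 : IsNilpotent.exp ((1 : ℂ) • M) * dg wt l ∈ T := h3
  rwa [h4] at h5

end Pool.Agent.U725.MT
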