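import Pool.Agent.U725.OM.Full2

/-!
# Curves in subtorsors
-/

set_option autoImplicit false
set_option linter.unusedSectionVars false

open Matrix MvPolynomial

namespace Pool.Agent.U725.MT

open Pool.Agent.TH127.PT Pool.Agent.TH119.MX Pool.Agent.TH119.DR Pool.Agent.Y123.ST
  Pool.Agent.U725.OM

variable {N : Type} [Fintype N] [DecidableEq N] {K : Subfield ℂ} {T : Set (Matrix N N ℂ)}

theorem eval_aeval_poly {B : Type*} (γ : B → Polynomial ℂ) (P : MvPolynomial B ℂ) (s : ℂ) :
    Polynomial.eval s (aeval γ P) = eval (fun b => (γ b).eval s) P := by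
  induction P using MvPolynomial.induction_on with
  | C a => simp
  | add p q hp hq => rw [map_add, Polynomial.eval_add, hp, hq, map_add]
  | mul_X p b hp => rw [map_mul, Polynomial.eval_mul, hp, aeval_X, map_mul, eval_X]

theorem aeval_sb' {B : Type*} [Fintype B] [DecidableEq B] (L : (B → ℂ) →ₗ[ℂ] (B → ℂ))
    (γ : B → Polynomial ℂ) (b : B) :
    aeval γ (sb L b) = ∑ j, Polynomial.C (L (Pi.single j 1) b) * γ j := by
  unfold sb
  rw [map_sum]
  refine Finset.sum_congr rfl fun j _ => ?_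
  rw [map_mul, aeval_X, aeval_C]
  rfl

theorem aeval_DL {w : Matrix N N ℂ} {γ : N × N → Polynomial ℂ} {u : Polynomial ℂ}
    (hγ : ∀ b, ∑ j, Polynomial.C (ml w (Pi.single j 1) b) * γ j =
      u * Polynomial.derivative (γ b)) (P : MvPolynomial (N × N) ℂ) :
    aeval γ (DL w P) = u * Polynomial.derivative (aeval γ P) := by
  unfold DL
  rw [map_sum, deriv_aeval, Finset.mul_sum]
  refine Finset.sum_congr rfl fun b _ => ?_
  rw [map_mul, aeval_sb', hγ]
  ring

/-- integral curves of the Lie algebra stay in the torsor -/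
theorem curve_mem (hT : IsSubtorsor K T) {w : Matrix N N ℂ} (hw : fl w ∈ LL T)
    (γ : N × N → Polynomial ℂ) (u : Polynomial ℂ) (a : ℂ) (hu : u.eval a ≠ 0)
    (ha : (um fun b => (γ b).eval a) ∈ T)
    (hγ : ∀ b, ∑ j, Polynomial.C (ml w (Pi.single j 1) b) * γ j =
      u * Polynomial.derivative (γ b))
    {s : ℂ} (hs : IsUnit (um fun b => (γ b).eval s)) : (um fun b => (γ b).eval s) ∈ T := by
  have hz := all_zero (Van T) (fun P => aeval γ P) (DL w) a u hu (by
      intro P hP
      rw [eval_aeval_poly]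
      have h1 := hP (um fun b => (γ b).eval a) ha
      rw [fl_um] at h1
      exact h1) (fun P hP => van_DL hw hP) (fun P _ => aeval_DL hγ P)
  obtain ⟨I, h1, h2⟩ := hT.algebraic
  rw [h2]
  refine ⟨hs, fun p hp => ?_⟩
  have h3 := hz p fun y hy => ((h2 y).1 hy).2 p hp
  have h4 := eval_aeval_poly γ p s
  rw [h3, Polynomial.eval_zero] at h4
  have h8 : (fun b : N × N => (um fun b => (γ b).eval s) b.1 b.2) =
    fun b => (γ b).eval s := rfl
  rw [h8]
  exact h4.symm

/-- a linear vector field -/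
theorem ml_sum (w : Matrix N N ℂ) (y : N × N → ℂ) (b : N × N) :
    ∑ j, ml w (Pi.single j 1) b * y j = ml w y b := by
  rw [lin_apply (ml w) y b]

/-- the curve of a one-parameter group of unipotent matrices -/
noncomputable def expC (E x : Matrix N N ℂ) (n : ℕ) (b : N × N) : Polynomial ℂ :=
  ∑ k ∈ Finset.range n, Polynomial.C (((k.factorial : ℂ)⁻¹) * (E ^ k * x) b.1 b.2) *
    Polynomial.X ^ k

theorem expC_eval (E x : Matrix N N ℂ) (n : ℕ) (s : ℂ) :
    (um fun b => (expC E x n b).eval s) =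
      (∑ k ∈ Finset.range n, ((k.factorial : ℂ)⁻¹) • (s • E) ^ k) * x := by
  ext i j
  simp only [um, expC, Matrix.of_apply, Polynomial.eval_finsetSum, Polynomial.eval_mul,
    Polynomial.eval_C, Polynomial.eval_pow, Polynomial.eval_X, Finset.sum_mul, Matrix.sum_apply]
  refine Finset.sum_congr rfl fun k _ => ?_
  rw [smul_pow, Matrix.smul_mul, Matrix.smul_mul, Matrix.smul_apply, Matrix.smul_apply,
    smul_eq_mul, smul_eq_mul]
  ring

theorem expC_field (E x : Matrix N N ℂ) {n : ℕ} (hE : E ^ n = 0) (b : N × N) :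
    ∑ j, Polynomial.C (ml E (Pi.single j 1) b) * expC E x n j =
      1 * Polynomial.derivative (expC E x n b) := by
  have h1 : ∀ j : N × N, Polynomial.C (ml E (Pi.single j 1) b) * expC E x n j =
      ∑ k ∈ Finset.range n, Polynomial.C (((k.factorial : ℂ)⁻¹) *
        (ml E (Pi.single j 1) b * fl (E ^ k * x) j)) * Polynomial.X ^ k := by
    intro j
    unfold expC
    rw [Finset.mul_sum]
    refine Finset.sum_congr rfl fun k _ => ?_
    rw [← mul_assoc, ← Polynomial.C_mul]
    congr 2
    simp only [fl]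
    ring
  rw [Finset.sum_congr rfl fun j _ => h1 j, Finset.sum_comm]
  have h2 : ∀ k, ∑ j, Polynomial.C (((k.factorial : ℂ)⁻¹) *
        (ml E (Pi.single j 1) b * fl (E ^ k * x) j)) * Polynomial.X ^ k =
      Polynomial.C (((k.factorial : ℂ)⁻¹) * (E ^ (k + 1) * x) b.1 b.2) * Polynomial.X ^ k := by
    intro k
    rw [← Finset.sum_mul, ← map_sum, ← Finset.mul_sum, ml_sum, ml_fl, pow_succ', Matrix.mul_assoc]
    rfl
  rw [Finset.sum_congr rfl fun k _ => h2 k, one_mul]
  unfold expC
  rw [Polynomial.derivative_sum]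
  rcases n with _ | n
  · simp
  rw [Finset.sum_range_succ, Finset.sum_range_succ' _ n]
  have h3 : (E ^ (n + 1) * x) b.1 b.2 = 0 := by
    rw [hE, Matrix.zero_mul]
    rfl
  rw [h3, mul_zero, Polynomial.C_0, zero_mul, add_zero]
  simp only [pow_zero, mul_one, Polynomial.derivative_C, add_zero]
  refine Finset.sum_congr rfl fun k _ => ?_
  rw [Polynomial.derivative_C_mul_X_pow]
  congr 2
  have h4 : ((k.factorial : ℂ)) ≠ 0 := by exact_mod_cast k.factorial_ne_zero
  have h5 : ((k + 1 : ℕ) : ℂ) ≠ 0 := by exact_mod_cast Nat.succ_ne_zero k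
  rw [Nat.factorial_succ]
  push_cast at h5 ⊢
  field_simp

open IsNilpotent in
/-- the exponential as a finite sum -/
theorem exp_sum {E : Matrix N N ℂ} {n : ℕ} (hE : E ^ n = 0) (s : ℂ) :
    IsNilpotent.exp (s • E) = ∑ k ∈ Finset.range n, ((k.factorial : ℂ)⁻¹) • (s • E) ^ k := by
  rw [exp_eq_sum (k := n) (by rw [smul_pow, hE, smul_zero])]
  refine Finset.sum_congr rfl fun k _ => ?_
  rw [← Rat.cast_smul_eq_qsmul ℂ]
  push_cast
  rfl

theorem nil_smul {E : Matrix N N ℂ} {n : ℕ} (hE : E ^ n = 0) (s : ℂ) : IsNilpotent (s • E) :=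
  ⟨n, by rw [smul_pow, hE, smul_zero]⟩

/-- nilpotent elements of the Lie algebra can be exponentiated -/
theorem exp_mem (hT : IsSubtorsor K T) {E x : Matrix N N ℂ} (hE : IsNilpotent E)
    (hEL : fl E ∈ LL T) (hx : x ∈ T) (s : ℂ) : IsNilpotent.exp (s • E) * x ∈ T := by
  obtain ⟨n, hn⟩ := hE
  have h1 := expC_eval E x n s
  rw [← exp_sum hn s] at h1
  rw [← h1]
  refine curve_mem hT hEL (expC E x n) 1 0 (by simp) ?_ (expC_field E x hn) ?_
  · rw [expC_eval, ← exp_sum hn, zero_smul, IsNilpotent.exp_zero, Matrix.one_mul]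
    exact hx
  · rw [h1]
    exact (IsNilpotent.isUnit_exp (nil_smul hn s)).mul (hT.isUnit x hx)

/-- conversely -/
theorem mem_LL_of_exp {E : Matrix N N ℂ} (hE : IsNilpotent E)
    (h : ∀ s : ℂ, ∀ x ∈ T, IsNilpotent.exp (s • E) * x ∈ T) : fl E ∈ LL T := by
  obtain ⟨n, hn⟩ := hE
  intro P hP x hx
  have h0 : aeval (expC E x n) P = 0 := by
    refine Polynomial.funext fun s => ?_
    rw [eval_aeval_poly, Polynomial.eval_zero]
    have h1 := hP _ (h s x hx)
    rw [exp_sum hn s, ← expC_eval, fl_um] at h1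
    exact h1
  have h2 := aeval_DL (expC_field E x hn) P
  rw [h0, Polynomial.derivative_zero, mul_zero] at h2
  have h3 := congrArg (Polynomial.eval 0) h2
  rw [eval_aeval_poly, Polynomial.eval_zero, eval_DL] at h3
  have h4 : (fun b => (expC E x n b).eval 0) = fl x := by
    have h5 := expC_eval E x n 0
    rw [← exp_sum hn, zero_smul, IsNilpotent.exp_zero, Matrix.one_mul] at h5
    exact congrArg fl h5
  rw [h4] at h3
  exact h3

/-- integral multiples are enough -/
theorem exp_all (hT : IsSubtorsor K T) {E x : Matrix N N ℂ} (hE : IsNilpotent E)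
    (h : ∀ m : ℕ, IsNilpotent.exp ((m : ℂ) • E) * x ∈ T) (s : ℂ) :
    IsNilpotent.exp (s • E) * x ∈ T := by
  have hx : x ∈ T := by
    have := h 0
    rwa [Nat.cast_zero, zero_smul, IsNilpotent.exp_zero, Matrix.one_mul] at this
  obtain ⟨n, hn⟩ := hE
  have hT' := hT
  obtain ⟨I, h1, h2⟩ := hT.algebraic
  rw [h2]
  refine ⟨(IsNilpotent.isUnit_exp (nil_smul hn s)).mul (hT'.isUnit x hx),
    fun p hp => ?_⟩
  have h3 : aeval (expC E x n) p = 0 := by
    by_contra hne
    have h4 : (Set.range fun m : ℕ => (m : ℂ)) ⊆ {z | (aeval (expC E x n) p).IsRoot z} := by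
      rintro _ ⟨m, rfl⟩
      change Polynomial.eval (m : ℂ) (aeval (expC E x n) p) = 0
      rw [eval_aeval_poly]
      have h5 := ((h2 _).1 (h m)).2 p hp
      rw [exp_sum hn, ← expC_eval] at h5
      have h8 : (fun b : N × N => (um fun b => (expC E x n b).eval (m : ℂ)) b.1 b.2) =
        fun b => (expC E x n b).eval (m : ℂ) := rfl
      rw [h8] at h5
      exact h5
    have h6 : (Set.range fun m : ℕ => (m : ℂ)).Finite :=
      (Polynomial.finite_setOfPred_isRoot hne).subset h4
    exact Set.infinite_range_of_injective Nat.cast_injective h6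
  have h7 := eval_aeval_poly (expC E x n) p s
  rw [h3, Polynomial.eval_zero] at h7
  rw [exp_sum hn, ← expC_eval]
  have h8 : (fun b : N × N => (um fun b => (expC E x n b).eval s) b.1 b.2) =
    fun b => (expC E x n b).eval s := rfl
  rw [h8]
  exact h7.symm

end Pool.Agent.U725.MT
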