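import Pool.Agent.U725.MT.Fin

/-!
# Groups whose unipotent Lie algebra is generated in degree one
-/

set_option autoImplicit false
set_option linter.unusedSectionVars false

open Matrix MvPolynomial

namespace Pool.Agent.U725.MT

open Pool.Agent.TH127.PT Pool.Agent.TH119.MX Pool.Agent.TH119.DR Pool.Agent.Y123.ST
  Pool.Agent.U725.OM

variable {B : Type} [Fintype B] [DecidableEq B] {wt : B → ℕ} {K : Subfield ℂ}
  {G T : Set (Matrix B B ℂ)}

/-- multiplicatively independent numbers have logarithms which are independent modulo `2πi` -/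
theorem indep_of_mul {m : ℕ} {l : Fin m → ℂ}
    (h : ∀ u : Fin m → ℤ, ∏ j, Complex.exp (l j) ^ u j = 1 → u = 0) :
    LinearIndependent ℚ (Fin.cons (2 * Real.pi * Complex.I) l : Fin (m + 1) → ℂ) := by
  rw [Fintype.linearIndependent_iff]
  intro g hg
  -- a common denominator
  obtain ⟨D, hD, hDg⟩ : ∃ D : ℤ, D ≠ 0 ∧ ∀ i, ∃ k : ℤ, (k : ℚ) = D * g i := by
    refine ⟨∏ i, ((g i).den : ℤ), ?_, fun i => ?_⟩
    · exact Finset.prod_ne_zero_iff.2 fun i _ => by exact_mod_cast (g i).den_nz
    · refine ⟨(∏ j ∈ Finset.univ.erase i, ((g j).den : ℤ)) * (g i).num, ?_⟩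
      rw [← Finset.mul_prod_erase Finset.univ _ (Finset.mem_univ i)]
      push_cast
      have h1 : ((g i).den : ℚ) * g i = (g i).num := by
        rw [mul_comm]
        exact Rat.mul_den_eq_num _
      rw [← h1]
      ring
  choose k hk using hDg
  rw [Fin.sum_univ_succ] at hg
  simp only [Fin.cons_zero, Fin.cons_succ] at hg
  have h2 : ∑ j : Fin m, (k j.succ : ℂ) * l j = (-k 0 : ℤ) * (2 * Real.pi * Complex.I) := by
    have h3 := congrArg (fun z => (D : ℂ) * z) hg
    simp only [mul_zero, mul_add, Finset.mul_sum] at h3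
    have h4 : ∀ (i : Fin (m + 1)) (z : ℂ), (D : ℂ) * (g i • z) = (k i : ℂ) * z := by
      intro i z
      rw [Rat.smul_def, ← mul_assoc]
      congr 1
      have := hk i
      have h5 : ((k i : ℚ) : ℂ) = ((D * g i : ℚ) : ℂ) := by rw [this]
      push_cast at h5
      exact h5.symm
    simp only [h4] at h3
    push_cast
    linear_combination h3
  have h5 : (fun j => k (Fin.succ j)) = 0 := by
    refine h _ ?_
    have h6 : ∏ j, Complex.exp (l j) ^ k j.succ = Complex.exp (∑ j, (k j.succ : ℂ) * l j) := by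
      rw [Complex.exp_sum]
      exact Finset.prod_congr rfl fun j _ => (Complex.exp_int_mul _ _).symm
    rw [h6, h2]
    exact Complex.exp_int_mul_two_pi_mul_I _
  have hgk : ∀ i, k i = 0 → g i = 0 := by
    intro i hi
    have h7 := hk i
    rw [hi, Int.cast_zero] at h7
    exact (mul_eq_zero.1 h7.symm).resolve_left (by exact_mod_cast hD)
  intro i
  refine Fin.cases ?_ (fun j => ?_) i
  · apply hgk
    have h8 : ∑ j : Fin m, (k j.succ : ℂ) * l j = 0 := by
      refine Finset.sum_eq_zero fun j _ => ?_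
      have := congrFun h5 j
      change k j.succ = 0 at this
      rw [this, Int.cast_zero, zero_mul]
    rw [h8] at h2
    have h9 := (mul_eq_zero.1 h2.symm).resolve_right Complex.two_pi_I_ne_zero
    have h10 : -k 0 = 0 := by exact_mod_cast h9
    omega
  · exact hgk _ (congrFun h5 j)

/-- **the unipotent Lie algebra is generated in degree one** -/
theorem Mt.degOne (h : Mt K wt G) {m : ℕ} (N : Fin m → Matrix B B ℂ)
    (hNd : ∀ n, ∀ b b', N n b b' ≠ 0 → wt b = wt b' + 1) (hNK : ∀ n, ∀ b b', N n b b' ∈ K)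
    (hspan : ∀ X : Matrix B B ℂ, fl X ∈ UU wt G → ∃ x : Fin m → ℂ,
      fl (X - ∑ n, x n • N n) ∈ CC wt G)
    {L : Matrix B B ℂ} (hL : fl L ∈ UU wt G) (z : Fin m → ℂ)
    (hz : ∀ n, IsAlgebraic ℚ (Complex.exp (z n)))
    (hi : LinearIndependent ℚ (Fin.cons (2 * Real.pi * Complex.I) z : Fin (m + 1) → ℂ))
    (hLz : fl (L - ∑ n, z n • N n) ∈ CC wt G)
    (hT : IsSubtorsor K T)
    (hcT : IsNilpotent.exp L * dg wt (2 * Real.pi * Complex.I) ∈ T) : G ⊆ T := by
  classical
  have hval : ∀ {d : ℕ} {f : B × B → ℂ}, IsForm K wt d f → (∀ w ∈ CC wt G, prf f w = 0) →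
      ∀ (X : Matrix B B ℂ) (x : Fin m → ℂ), fl (X - ∑ n, x n • N n) ∈ CC wt G →
      prf f (fl X) = ∑ n, x n * prf f (fl (N n)) := by
    intro d f hf hfC X x hX
    have h1 := hfC _ hX
    have h2 : fl (X - ∑ n, x n • N n) = fl X - ∑ n, x n • fl (N n) := by
      funext b
      simp only [fl, Pi.sub_apply, Matrix.sub_apply, Matrix.sum_apply, Finset.sum_apply,
        Matrix.smul_apply, Pi.smul_apply]
    rw [h2, map_sub, map_sum, sub_eq_zero] at h1
    rw [h1]
    refine Finset.sum_congr rfl fun n _ => ?_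
    rw [map_smul, smul_eq_mul]
  refine crit h transc hL ?_ hT hcT
  intro d hd f hf hfC hrel w hw
  -- the values of the form on the generators
  have h0 : ∀ n, prf f (fl (N n)) = 0 := by
    by_cases hd1 : d = 1
    · subst hd1
      obtain ⟨a, ha, β, hβ, h2⟩ := hrel
      rw [hval hf hfC L z hLz, pow_one] at h2
      have hfK : ∀ n, prf f (fl (N n)) ∈ K := by
        intro n
        rw [prf_apply]
        exact sum_mem fun b _ => MulMemClass.mul_mem (hf.1 b) (hNK n b.1 b.2)
      have h3 := (bak_of hz hi (fun n => prf f (fl (N n))) (-β) (fun n => h.hK _ (hfK n))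
        (h.hK _ (neg_mem hβ)) (by
          have h4 : ∑ n, prf f (fl (N n)) * z n + -β * (2 * Real.pi * Complex.I) = a := by
            have h5 : ∑ n, prf f (fl (N n)) * z n = ∑ n, z n * prf f (fl (N n)) :=
              Finset.sum_congr rfl fun n _ => mul_comm _ _
            rw [h5, h2]
            ring
          rw [h4]
          exact h.hK a ha)).1
      exact fun n => congrFun h3 n
    · exact fun n => prf_homog hf (hNd n) hd1
  obtain ⟨x, hx⟩ := hspan (um w) hw
  have h1 := hval hf hfC (um w) x hx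
  rw [fl_um] at h1
  rw [h1]
  exact Finset.sum_eq_zero fun n _ => by rw [h0 n, mul_zero]

/-- the same for an arbitrary finite set of generators -/
theorem Mt.degOne' (h : Mt K wt G) {J : Type} [Fintype J] (N : J → Matrix B B ℂ)
    (hNd : ∀ j, ∀ b b', N j b b' ≠ 0 → wt b = wt b' + 1) (hNK : ∀ j, ∀ b b', N j b b' ∈ K)
    (hspan : ∀ X : Matrix B B ℂ, fl X ∈ UU wt G → ∃ x : J → ℂ,
      fl (X - ∑ j, x j • N j) ∈ CC wt G)
    {L : Matrix B B ℂ} (hL : fl L ∈ UU wt G) (z : J → ℂ)
    (hz : ∀ j, IsAlgebraic ℚ (Complex.exp (z j)))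
    (hi : ∀ u : J → ℤ, ∏ j, Complex.exp (z j) ^ u j = 1 → u = 0)
    (hLz : fl (L - ∑ j, z j • N j) ∈ CC wt G)
    (hT : IsSubtorsor K T)
    (hcT : IsNilpotent.exp L * dg wt (2 * Real.pi * Complex.I) ∈ T) : G ⊆ T := by
  classical
  obtain ⟨m, ⟨e⟩⟩ : ∃ m, Nonempty (Fin m ≃ J) := ⟨_, ⟨(Fintype.equivFin J).symm⟩⟩
  refine h.degOne (fun i => N (e i)) (fun i => hNd _) (fun i => hNK _) (fun X hX => ?_) hL
    (fun i => z (e i)) (fun i => hz _) (indep_of_mul fun u hu => ?_) ?_ hT hcT
  · obtain ⟨x, hx⟩ := hspan X hX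
    refine ⟨fun i => x (e i), ?_⟩
    rw [e.sum_comp (fun j => x j • N j)]
    exact hx
  · have h1 := hi (fun j => u (e.symm j)) (by
      rw [← e.prod_comp]
      simpa only [Equiv.symm_apply_apply] using hu)
    funext i
    have h2 : u (e.symm (e i)) = 0 := congrFun h1 (e i)
    rw [Equiv.symm_apply_apply] at h2
    exact h2
  · rw [e.sum_comp (fun j => z j • N j)]
    exact hLz

end Pool.Agent.U725.MT
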