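import Pool.Agent.U725.MT.Log
import Pool.Agent.U725.OM.Arith

/-!
# The criterion in terms of generators
-/

set_option autoImplicit false
set_option linter.unusedSectionVars false

open Matrix MvPolynomial

namespace Pool.Agent.U725.MT

open Pool.Agent.TH127.PT Pool.Agent.TH119.MX Pool.Agent.TH119.DR Pool.Agent.Y123.ST
  Pool.Agent.U725.OM

variable {B : Type} [Fintype B] [DecidableEq B] {wt : B → ℕ} {K : Subfield ℂ}
  {G T : Set (Matrix B B ℂ)}

theorem subT_iff {K : Subfield ℂ} {T : Set (Matrix B B ℂ)} :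
    ((∀ x ∈ T, ∀ y ∈ T, ∀ z ∈ T, x * y⁻¹ * z ∈ T) ∧
      ∃ I : Set (MvPolynomial (B × B) K), ∀ x : Matrix B B ℂ, x ∈ T ↔ IsUnit x ∧
        ∀ p ∈ I, MvPolynomial.eval (fun b => x b.1 b.2) (MvPolynomial.map (algebraMap K ℂ) p) = 0) ↔
    IsSubtorsor K T := by
  constructor
  · rintro ⟨h1, I, h2⟩
    refine ⟨fun x hx => ((h2 x).1 hx).1, h1, (MvPolynomial.map (algebraMap K ℂ)) '' I, ?_,
      fun x => ?_⟩
    · rintro _ ⟨p, -, rfl⟩ m
      rw [MvPolynomial.coeff_map]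
      exact (p.coeff m).2
    · rw [h2]
      refine and_congr_right fun _ => ⟨?_, ?_⟩
      · rintro h _ ⟨p, hp, rfl⟩
        exact h p hp
      · intro h p hp
        exact h _ ⟨p, hp, rfl⟩
  · intro h
    obtain ⟨I, h1, h2⟩ := h.algebraic
    refine ⟨h.torsor, {p | MvPolynomial.map (algebraMap K ℂ) p ∈ I}, fun x => ?_⟩
    rw [h2]
    refine and_congr_right fun _ => ⟨?_, ?_⟩
    · intro h3 p hp
      exact h3 _ hp
    · intro h3 p hp
      obtain ⟨P0, hP0⟩ := exists_map p (h1 p hp)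
      have h4 := h3 P0 (by
        change MvPolynomial.map (algebraMap K ℂ) P0 ∈ I
        rw [hP0]
        exact hp)
      rwa [hP0] at h4

/-- a subtorsor over a smaller field -/
theorem sub_mono {K K' : Subfield ℂ} (hKK : K ≤ K') {T : Set (Matrix B B ℂ)}
    (hT : IsSubtorsor K T) : IsSubtorsor K' T := by
  obtain ⟨I, h1, h2⟩ := hT.algebraic
  exact ⟨hT.isUnit, hT.torsor, I, fun p hp m => hKK (h1 p hp m), h2⟩

theorem transc : Transcendental ℚ (2 * Real.pi * Complex.I : ℂ) := by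
  intro h
  have hi : LinearIndependent ℚ
      (Fin.cons (2 * Real.pi * Complex.I) Fin.elim0 : Fin (0 + 1) → ℂ) := by
    rw [Fintype.linearIndependent_iff]
    intro g hg i
    obtain rfl : i = 0 := Subsingleton.elim (α := Fin 1) _ _
    rw [Fin.sum_univ_succ, Fin.cons_zero] at hg
    have h2 : g 0 • (2 * Real.pi * Complex.I : ℂ) = 0 := by
      simpa using hg
    exact (smul_eq_zero.1 h2).resolve_right Complex.two_pi_I_ne_zero
  have h1 := (bak_of (m := 0) (b := Fin.elim0) (fun i => i.elim0) hi Fin.elim0 1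
    (fun i => i.elim0) isAlgebraic_one (by simpa using h)).2
  exact one_ne_zero h1

theorem Mt.of_tri (hK : ∀ x ∈ K, IsAlgebraic ℚ x) (hG : IsSubtorsor K G)
    (hw : ∀ l : ℂ, l ≠ 0 → dg wt l ∈ G)
    (ht : ∀ x ∈ G, ∃ l : ℂ, l ≠ 0 ∧ Fk wt 1 (x * dg wt l⁻¹ - 1)) : Mt K wt G := by
  refine ⟨hK, hG, hw, fun x hx => ?_⟩
  obtain ⟨l, hl, h1⟩ := ht x hx
  obtain ⟨M, hM, h2⟩ := exists_log h1
  refine ⟨l, M, hl, hM, ?_⟩
  rw [h2, Matrix.mul_assoc, dg_mul, inv_mul_cancel₀ hl, dg_one, Matrix.mul_one]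

/-- `CC` is graded -/
theorem Mt.graded_CC (h : Mt K wt G) (d : ℕ) {w : B × B → ℂ} (hw : w ∈ CC wt G) :
    fl (dgr wt d (um w)) ∈ CC wt G := by
  refine graded (fun w hw => ?_) (fun w hw => (CC_le hw).1) d hw
  have h3 := h.Hm_CC (X := um w) hw
  rwa [← aH_fl, fl_um] at h3

/-- homogeneous elements which are not commutators are detected by forms -/
theorem Mt.exists_form (h : Mt K wt G) {d : ℕ} {n : Matrix B B ℂ}
    (hn : ∀ b b', n b b' ≠ 0 → wt b = wt b' + d) (hnC : fl n ∉ CC wt G) :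
    ∃ f, IsForm K wt d f ∧ (∀ w ∈ CC wt G, prf f w = 0) ∧ prf f (fl n) ≠ 0 := by
  obtain ⟨f, hfK, hfW, hfv⟩ := MT.exists_form (CC wt G) (aut_CC h.hG) hnC
  set g : B × B → ℂ := fun b => if wt b.1 = wt b.2 + d then f b else 0 with hg
  have hgf : ∀ w : B × B → ℂ, prf g w = prf f (fl (dgr wt d (um w))) := by
    intro w
    rw [prf_apply, prf_apply]
    refine Finset.sum_congr rfl fun b _ => ?_
    simp only [hg, fl, dgr, um, Matrix.of_apply]
    split_ifs
    · rfl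
    · rw [zero_mul, mul_zero]
  refine ⟨g, ⟨?_, ?_⟩, ?_, ?_⟩
  · intro b
    rw [hg]
    dsimp only
    split_ifs
    · exact hfK b
    · exact K.zero_mem
  · intro b hb
    by_contra h1
    apply hb
    rw [hg]
    dsimp only
    rw [if_neg h1]
  · intro w hw
    rw [hgf]
    exact hfW _ (h.graded_CC d hw)
  · rw [hgf]
    have h1 : dgr wt d (um (fl n)) = n := by
      ext b b'
      simp only [um_fl, dgr, Matrix.of_apply]
      split_ifs with h2
      · rfl
      · by_contra h3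
        exact h2 (hn b b' fun h4 => h3 h4.symm)
    rw [h1]
    exact hfv

theorem prf_homog {d n : ℕ} {f : B × B → ℂ} (hf : IsForm K wt d f) {X : Matrix B B ℂ}
    (hX : ∀ b b', X b b' ≠ 0 → wt b = wt b' + n) (hdn : d ≠ n) : prf f (fl X) = 0 := by
  rw [prf_apply]
  refine Finset.sum_eq_zero fun b _ => ?_
  by_cases h0 : f b = 0
  · rw [h0, zero_mul]
  by_cases h1 : X b.1 b.2 = 0
  · change f b * X b.1 b.2 = 0
    rw [h1, mul_zero]
  · have h2 := hf.2 b h0
    have h3 := hX b.1 b.2 h1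
    omega

/-- one generator in each degree -/
theorem Mt.single (h : Mt K wt G) {τ : ℂ} (hτ : Transcendental ℚ τ) (S : Finset ℕ)
    (hS : ∀ n ∈ S, 1 ≤ n) (N : ℕ → Matrix B B ℂ)
    (hNU : ∀ n ∈ S, fl (N n) ∈ UU wt G) (hNC : ∀ n ∈ S, fl (N n) ∉ CC wt G) (hNd : ∀ n ∈ S, ∀ b b', N n b b' ≠ 0 → wt b = wt b' + n)
    (hNK : ∀ n ∈ S, ∀ b b', N n b b' ∈ K)
    (hspan : ∀ X : Matrix B B ℂ, fl X ∈ UU wt G → ∃ x : ℕ → ℂ,
      fl (X - ∑ n ∈ S, x n • N n) ∈ CC wt G)
    {L : Matrix B B ℂ} (hL : fl L ∈ UU wt G) (z : ℕ → ℂ)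
    (hLz : fl (L - ∑ n ∈ S, z n • N n) ∈ CC wt G) :
    (∀ T : Set (Matrix B B ℂ), IsSubtorsor K T → IsNilpotent.exp L * dg wt τ ∈ T → G ⊆ T) ↔
      ∀ n ∈ S, ∀ a ∈ K, ∀ b ∈ K, z n ≠ a + b * τ ^ n := by
  classical
  have hτ0 : τ ≠ 0 := fun h0 => hτ (by rw [h0]; exact isAlgebraic_zero)
  -- the values of the forms
  have hval : ∀ {d : ℕ} {f : B × B → ℂ}, IsForm K wt d f → (∀ w ∈ CC wt G, prf f w = 0) →
      ∀ (X : Matrix B B ℂ) (x : ℕ → ℂ), fl (X - ∑ n ∈ S, x n • N n) ∈ CC wt G →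
      prf f (fl X) = if d ∈ S then x d * prf f (fl (N d)) else 0 := by
    intro d f hf hfC X x hX
    have h1 := hfC _ hX
    have h2 : fl (X - ∑ n ∈ S, x n • N n) = fl X - ∑ n ∈ S, x n • fl (N n) := by
      funext b
      simp only [fl, Pi.sub_apply, Matrix.sub_apply, Matrix.sum_apply, Finset.sum_apply,
        Matrix.smul_apply, Pi.smul_apply]
    rw [h2, map_sub, map_sum, sub_eq_zero] at h1
    rw [h1]
    have h3 : ∀ n ∈ S, prf f (x n • fl (N n)) = if n = d then x d * prf f (fl (N d)) else 0 := by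
      intro n hn
      rw [map_smul, smul_eq_mul]
      by_cases hnd : n = d
      · rw [if_pos hnd, hnd]
      · rw [if_neg hnd, prf_homog hf (hNd n hn) (fun h4 => hnd h4.symm), mul_zero]
    rw [Finset.sum_congr rfl h3, Finset.sum_ite_eq']
  constructor
  · intro hall n hn a ha b hb hz
    obtain ⟨f, hf, hfC, hfn⟩ := h.exists_form (hNd n hn) (hNC n hn)
    have h1 := hval hf hfC L z hLz
    rw [if_pos hn, hz] at h1
    have hfK : prf f (fl (N n)) ∈ K := by
      rw [prf_apply]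
      exact sum_mem fun b _ => MulMemClass.mul_mem (hf.1 b) (hNK n hn b.1 b.2)
    have h2 := h.conv (hS n hn) hf hfC hτ0 hL hall (MulMemClass.mul_mem ha hfK) (MulMemClass.mul_mem hb hfK)
      (by rw [h1]; ring)
    exact hfn (h2 _ (hNU n hn))
  · intro hz T hT hcT
    refine crit h hτ hL ?_ hT hcT
    intro d hd f hf hfC hrel w hw
    obtain ⟨x, hx⟩ := hspan (um w) hw
    have h1 := hval hf hfC (um w) x hx
    rw [fl_um] at h1
    rw [h1]
    split_ifs with hdS
    · by_contra hne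
      have hfd : prf f (fl (N d)) ≠ 0 := right_ne_zero_of_mul hne
      obtain ⟨a, ha, β, hβ, h2⟩ := hrel
      rw [hval hf hfC L z hLz, if_pos hdS] at h2
      have hfK : prf f (fl (N d)) ∈ K := by
        rw [prf_apply]
        exact sum_mem fun b _ => MulMemClass.mul_mem (hf.1 b) (hNK d hdS b.1 b.2)
      refine hz d hdS (a / prf f (fl (N d))) (div_mem ha hfK) (β / prf f (fl (N d)))
        (div_mem hβ hfK) ?_
      field_simp
      linear_combination h2
    · rfl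

end Pool.Agent.U725.MT
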