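import Pool.Agent.U725.MT.Curve
import Pool.Agent.U725.MT.Conj

/-!
# Matrices with weights
-/

set_option autoImplicit false
set_option linter.unusedSectionVars false

open Matrix MvPolynomial

namespace Pool.Agent.U725.MT

open Pool.Agent.TH127.PT Pool.Agent.TH119.MX Pool.Agent.TH119.DR Pool.Agent.Y123.ST
  Pool.Agent.U725.OM

variable {B : Type} [Fintype B] [DecidableEq B] (wt : B → ℕ)

/-- the weight torus -/
noncomputable def dg (l : ℂ) : Matrix B B ℂ := Matrix.diagonal fun b => l ^ wt b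

/-- its Lie algebra -/
noncomputable def Hm : Matrix B B ℂ := Matrix.diagonal fun b => (wt b : ℂ)

/-- the filtration by the weights -/
def Fk (k : ℕ) (X : Matrix B B ℂ) : Prop := ∀ b b', X b b' ≠ 0 → wt b' + k ≤ wt b

/-- strictly triangular matrices -/
def Strict (X : Matrix B B ℂ) : Prop := ∀ b b', X b b' ≠ 0 → wt b' < wt b

variable {wt}

theorem strict_iff {X : Matrix B B ℂ} : Strict wt X ↔ Fk wt 1 X := Iff.rfl

theorem Fk.zero {k : ℕ} : Fk wt k (0 : Matrix B B ℂ) := fun _ _ h => absurd rfl h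

theorem Fk.add {k : ℕ} {X Y : Matrix B B ℂ} (hX : Fk wt k X) (hY : Fk wt k Y) :
    Fk wt k (X + Y) := by
  intro b b' h
  by_cases h1 : X b b' = 0
  · refine hY b b' fun h2 => h ?_
    rw [Matrix.add_apply, h1, h2, add_zero]
  · exact hX b b' h1

theorem Fk.smul {k : ℕ} {X : Matrix B B ℂ} (hX : Fk wt k X) (s : ℂ) : Fk wt k (s • X) := by
  intro b b' h
  refine hX b b' fun h2 => h ?_
  rw [Matrix.smul_apply, h2, smul_zero]

theorem Fk.neg {k : ℕ} {X : Matrix B B ℂ} (hX : Fk wt k X) : Fk wt k (-X) := by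
  have := hX.smul (-1)
  rwa [neg_one_smul] at this

theorem Fk.sub {k : ℕ} {X Y : Matrix B B ℂ} (hX : Fk wt k X) (hY : Fk wt k Y) :
    Fk wt k (X - Y) := by
  rw [sub_eq_add_neg]
  exact hX.add hY.neg

theorem Fk.mul {j k : ℕ} {X Y : Matrix B B ℂ} (hX : Fk wt j X) (hY : Fk wt k Y) :
    Fk wt (j + k) (X * Y) := by
  intro b b' h
  rw [Matrix.mul_apply] at h
  obtain ⟨c, _, hc⟩ := Finset.exists_ne_zero_of_sum_ne_zero h
  have h1 := hX b c (left_ne_zero_of_mul hc)
  have h2 := hY c b' (right_ne_zero_of_mul hc)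
  omega

theorem Fk.mono {j k : ℕ} (hjk : j ≤ k) {X : Matrix B B ℂ} (hX : Fk wt k X) : Fk wt j X :=
  fun b b' h => (Nat.add_le_add_left hjk _).trans (hX b b' h)

theorem Fk.pow {X : Matrix B B ℂ} (hX : Fk wt 1 X) (k : ℕ) : Fk wt k (X ^ k) := by
  induction k with
  | zero =>
    intro b b' h
    rw [pow_zero] at h
    have : b = b' := by
      by_contra hne
      exact h (Matrix.one_apply_ne hne)
    rw [this]
    exact le_rfl
  | succ k ih =>
    rw [pow_succ]
    exact ih.mul hX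

theorem Fk.map {k : ℕ} {X : Matrix B B ℂ} (hX : Fk wt k X) {f : ℂ → ℂ} (hf : f 0 = 0) :
    Fk wt k (X.map f) := by
  intro b b' h
  refine hX b b' fun h2 => h ?_
  rw [Matrix.map_apply, h2, hf]

theorem exists_bound (wt : B → ℕ) : ∃ M : ℕ, ∀ b, wt b ≤ M :=
  ⟨Finset.univ.sup wt, fun b => Finset.le_sup (Finset.mem_univ b)⟩

theorem Fk.eq_zero {M k : ℕ} (hM : ∀ b, wt b ≤ M) (hk : M < k) {X : Matrix B B ℂ}
    (hX : Fk wt k X) : X = 0 := by
  ext b b'
  by_contra h
  have h1 := hX b b' h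
  have h2 := hM b
  omega

theorem Fk.nil {X : Matrix B B ℂ} (hX : Fk wt 1 X) : IsNilpotent X := by
  obtain ⟨M, hM⟩ := exists_bound wt
  exact ⟨M + 1, (hX.pow (M + 1)).eq_zero hM (Nat.lt_succ_self M)⟩

/-- the degree `d` part -/
def dgr (wt : B → ℕ) (d : ℕ) (X : Matrix B B ℂ) : Matrix B B ℂ :=
  Matrix.of fun b b' => if wt b = wt b' + d then X b b' else 0

theorem Hm_br (X : Matrix B B ℂ) (b b' : B) :
    (Hm wt * X - X * Hm wt) b b' = ((wt b : ℂ) - wt b') * X b b' := by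
  rw [Matrix.sub_apply, Hm, Matrix.diagonal_mul, Matrix.mul_diagonal]
  ring

theorem Fk.br_Hm {k : ℕ} {X : Matrix B B ℂ} (hX : Fk wt k X) :
    Fk wt k (Hm wt * X - X * Hm wt) := by
  intro b b' h
  refine hX b b' fun h2 => h ?_
  rw [Hm_br, h2, mul_zero]

theorem dg_mul (l s : ℂ) : dg wt l * dg wt s = dg wt (l * s) := by
  unfold dg
  rw [Matrix.diagonal_mul_diagonal]
  congr 1
  funext b
  rw [mul_pow]

theorem dg_one : dg wt 1 = 1 := by
  unfold dg
  simp

theorem dg_inv {l : ℂ} (hl : l ≠ 0) : (dg wt l)⁻¹ = dg wt l⁻¹ := by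
  refine Matrix.inv_eq_right_inv ?_
  rw [dg_mul, mul_inv_cancel₀ hl, dg_one]

theorem dg_unit {l : ℂ} (hl : l ≠ 0) : IsUnit (dg wt l) :=
  IsUnit.of_mul_eq_one (dg wt l⁻¹) (by rw [dg_mul, mul_inv_cancel₀ hl, dg_one])

variable {K : Subfield ℂ} {T : Set (Matrix B B ℂ)}

/-- the curve of the weight torus -/
noncomputable def wC (wt : B → ℕ) (x : Matrix B B ℂ) (b : B × B) : Polynomial ℂ :=
  Polynomial.C (x b.1 b.2) * Polynomial.X ^ wt b.1

theorem wC_eval (x : Matrix B B ℂ) (s : ℂ) :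
    (um fun b => (wC wt x b).eval s) = dg wt s * x := by
  ext i j
  simp only [um, wC, Matrix.of_apply, Polynomial.eval_mul, Polynomial.eval_C, Polynomial.eval_pow,
    Polynomial.eval_X]
  rw [dg, Matrix.diagonal_mul, mul_comm]

theorem ml_Hm (j b : B × B) : ml (Hm wt) (Pi.single j 1) b = if j = b then (wt b.1 : ℂ) else 0 := by
  change (Hm wt * um (Pi.single j 1)) b.1 b.2 = _
  rw [Hm, Matrix.diagonal_mul]
  change (wt b.1 : ℂ) * (Pi.single j (1 : ℂ) : B × B → ℂ) (b.1, b.2) = _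
  rw [Pi.single_apply]
  by_cases h : j = b
  · subst h
    simp
  · rw [if_neg h, if_neg, mul_zero]
    intro h2
    exact h h2.symm

theorem wC_field (x : Matrix B B ℂ) (b : B × B) :
    ∑ j, Polynomial.C (ml (Hm wt) (Pi.single j 1) b) * wC wt x j =
      Polynomial.X * Polynomial.derivative (wC wt x b) := by
  have h1 : ∀ j : B × B, Polynomial.C (ml (Hm wt) (Pi.single j 1) b) * wC wt x j =
      if j = b then Polynomial.C (wt b.1 : ℂ) * wC wt x b else 0 := by
    intro j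
    rw [ml_Hm]
    by_cases h : j = b
    · rw [if_pos h, if_pos h, h]
    · rw [if_neg h, if_neg h, Polynomial.C_0, zero_mul]
  rw [Finset.sum_congr rfl fun j _ => h1 j, Finset.sum_ite_eq' Finset.univ b, if_pos
    (Finset.mem_univ _)]
  unfold wC
  rcases h : wt b.1 with _ | n
  · simp
  · rw [Polynomial.derivative_C_mul_X_pow, Nat.add_sub_cancel, Polynomial.C_mul]
    ring

/-- the weight torus in a subtorsor -/
theorem dg_mem (hT : IsSubtorsor K T) (hH : fl (Hm wt) ∈ LL T) {x : Matrix B B ℂ} (hx : x ∈ T)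
    {s : ℂ} (hs : s ≠ 0) : dg wt s * x ∈ T := by
  have h1 := wC_eval (wt := wt) x s
  rw [← h1]
  refine curve_mem hT hH (wC wt x) Polynomial.X 1 (by simp) ?_ (wC_field x) ?_
  · rw [wC_eval, dg_one, Matrix.one_mul]
    exact hx
  · rw [h1]
    exact (dg_unit hs).mul (hT.isUnit x hx)

/-- conversely -/
theorem Hm_mem (h : ∀ s : ℂ, s ≠ 0 → ∀ x ∈ T, dg wt s * x ∈ T) : fl (Hm wt) ∈ LL T := by
  intro P hP x hx
  have h0 : aeval (wC wt x) P = 0 := by
    by_contra hne
    have h4 : (Set.range fun m : ℕ => ((m + 1 : ℕ) : ℂ)) ⊆ {z | (aeval (wC wt x) P).IsRoot z} := by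
      rintro _ ⟨m, rfl⟩
      change Polynomial.eval ((m + 1 : ℕ) : ℂ) (aeval (wC wt x) P) = 0
      rw [eval_aeval_poly]
      have h5 := hP _ (h ((m + 1 : ℕ) : ℂ) (by exact_mod_cast Nat.succ_ne_zero m) x hx)
      rw [← wC_eval, fl_um] at h5
      exact h5
    have h6 : (Set.range fun m : ℕ => ((m + 1 : ℕ) : ℂ)).Finite :=
      (Polynomial.finite_setOfPred_isRoot hne).subset h4
    refine Set.infinite_range_of_injective (fun a b hab => ?_) h6
    have : a + 1 = b + 1 := by exact_mod_cast hab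
    omega
  have h2 := aeval_DL (wC_field (wt := wt) x) P
  rw [h0, Polynomial.derivative_zero, mul_zero] at h2
  have h3 := congrArg (Polynomial.eval 1) h2
  rw [eval_aeval_poly, Polynomial.eval_zero, eval_DL] at h3
  have h4 : (fun b => (wC wt x b).eval 1) = fl x := by
    have h5 := wC_eval (wt := wt) x 1
    rw [dg_one, Matrix.one_mul] at h5
    exact congrArg fl h5
  rw [h4] at h3
  exact h3

end Pool.Agent.U725.MT
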