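import Pool.Agent.U725.MT.Conv

/-!
# Logarithms of unipotent matrices
-/

set_option autoImplicit false
set_option linter.unusedSectionVars false

open Matrix MvPolynomial

namespace Pool.Agent.U725.MT

open Pool.Agent.TH127.PT Pool.Agent.TH119.MX Pool.Agent.TH119.DR Pool.Agent.Y123.ST
  Pool.Agent.U725.OM

variable {B : Type} [Fintype B] [DecidableEq B] {wt : B → ℕ} {K : Subfield ℂ}

theorem pow_diff {k : ℕ} (hk : 1 ≤ k) {M E : Matrix B B ℂ} (hM : Fk wt 1 M) (hE : Fk wt k E)
    (j : ℕ) : Fk wt (k + j) ((M + E) ^ (j + 1) - M ^ (j + 1)) := by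
  induction j with
  | zero =>
    rw [zero_add, pow_one, pow_one, add_sub_cancel_left]
    exact hE
  | succ j ih =>
    have h1 : (M + E) ^ (j + 1 + 1) - M ^ (j + 1 + 1) =
        (M + E) * ((M + E) ^ (j + 1) - M ^ (j + 1)) + E * M ^ (j + 1) := by
      rw [pow_succ' (M + E), pow_succ' M (j + 1)]
      noncomm_ring
    rw [h1]
    have h2 : Fk wt (1 + (k + j)) ((M + E) * ((M + E) ^ (j + 1) - M ^ (j + 1))) :=
      (hM.add (hE.mono hk)).mul ih
    have h3 : Fk wt (k + (j + 1)) (E * M ^ (j + 1)) := hE.mul (hM.pow _)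
    exact (h2.mono (by omega)).add h3

theorem exp_diff {k : ℕ} (hk : 1 ≤ k) {M E : Matrix B B ℂ} (hM : Fk wt 1 M) (hE : Fk wt k E) :
    Fk wt (k + 1) (IsNilpotent.exp (M + E) - IsNilpotent.exp M - E) := by
  obtain ⟨N, hN⟩ := exists_bound wt
  have h1 : (M + E) ^ (N + 2) = 0 :=
    ((hM.add (hE.mono hk)).pow (N + 2)).eq_zero hN (by omega)
  have h2 : M ^ (N + 2) = 0 := (hM.pow (N + 2)).eq_zero hN (by omega)
  have e1 := exp_sum h1 1
  have e2 := exp_sum h2 1
  simp only [one_smul] at e1 e2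
  rw [e1, e2, ← Finset.sum_sub_distrib, Finset.sum_range_succ', Finset.sum_range_succ']
  simp only [pow_zero, sub_self, add_zero, zero_add, pow_one, Nat.factorial_one, Nat.cast_one,
    inv_one, one_smul, add_sub_cancel_left]
  rw [add_sub_cancel_right]
  refine Finset.sum_induction _ (Fk wt (k + 1)) (fun X Y hX hY => hX.add hY) Fk.zero fun j _ => ?_
  rw [← smul_sub]
  exact ((pow_diff hk hM hE (j + 1)).mono (by omega)).smul _

/-- unipotent matrices are exponentials -/
theorem exists_log {u : Matrix B B ℂ} (hu : Fk wt 1 (u - 1)) :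
    ∃ M : Matrix B B ℂ, Fk wt 1 M ∧ IsNilpotent.exp M = u := by
  obtain ⟨N, hN⟩ := exists_bound wt
  have key : ∀ k, 1 ≤ k → ∃ M : Matrix B B ℂ, Fk wt 1 M ∧ Fk wt k (u - IsNilpotent.exp M) := by
    intro k hk
    induction k, hk using Nat.le_induction with
    | base =>
      refine ⟨0, Fk.zero, ?_⟩
      rw [IsNilpotent.exp_zero]
      exact hu
    | succ k hk ih =>
      obtain ⟨M, hM, hE⟩ := ih
      refine ⟨M + (u - IsNilpotent.exp M), hM.add (hE.mono hk), ?_⟩
      have h1 := (exp_diff hk hM hE).neg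
      have h2 : u - IsNilpotent.exp (M + (u - IsNilpotent.exp M)) =
          -(IsNilpotent.exp (M + (u - IsNilpotent.exp M)) - IsNilpotent.exp M -
            (u - IsNilpotent.exp M)) := by abel
      rw [h2]
      exact h1
  obtain ⟨M, hM, h1⟩ := key (N + 1) (by omega)
  refine ⟨M, hM, ?_⟩
  have h2 := h1.eq_zero hN (Nat.lt_succ_self N)
  exact (sub_eq_zero.1 h2).symm

/-- the logarithm is unique -/
theorem exp_inj {M M' : Matrix B B ℂ} (hM : Fk wt 1 M) (hM' : Fk wt 1 M')
    (h : IsNilpotent.exp M = IsNilpotent.exp M') : M = M' := by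
  obtain ⟨N, hN⟩ := exists_bound wt
  have key : ∀ k, 1 ≤ k → Fk wt k (M' - M) := by
    intro k hk
    induction k, hk using Nat.le_induction with
    | base => exact hM'.sub hM
    | succ k hk ih =>
      have h1 := (exp_diff hk hM ih).neg
      rw [add_sub_cancel, ← h, sub_self, zero_sub, neg_neg] at h1
      exact h1
  have h2 := (key (N + 1) (by omega)).eq_zero hN (Nat.lt_succ_self N)
  exact (sub_eq_zero.1 h2).symm

/-- the degree one part of an exponential -/
theorem exp_deg_one {M : Matrix B B ℂ} (hM : Fk wt 1 M) {b b' : B} (hb : wt b = wt b' + 1) :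
    IsNilpotent.exp M b b' = M b b' := by
  have h1 := exp_diff (wt := wt) le_rfl Fk.zero hM
  rw [zero_add, IsNilpotent.exp_zero] at h1
  by_contra hne
  have h2 : (IsNilpotent.exp M - 1 - M) b b' ≠ 0 := by
    rw [Matrix.sub_apply, Matrix.sub_apply]
    have h3 : b ≠ b' := by
      rintro rfl
      omega
    rw [Matrix.one_apply_ne h3, sub_zero]
    exact sub_ne_zero.2 hne
  have := h1 b b' h2
  omega

end Pool.Agent.U725.MT
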