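import Pool.Agent.U725.MT.Core

/-!
# The criterion
-/

set_option autoImplicit false
set_option linter.unusedSectionVars false

open Matrix MvPolynomial

namespace Pool.Agent.U725.MT

open Pool.Agent.TH127.PT Pool.Agent.TH119.MX Pool.Agent.TH119.DR Pool.Agent.Y123.ST
  Pool.Agent.U725.OM

variable {B : Type} [Fintype B] [DecidableEq B] {wt : B → ℕ} {K : Subfield ℂ}
  {G T : Set (Matrix B B ℂ)}

/-- the pairing -/
def prf {J : Type} [Fintype J] (f : J → ℂ) : (J → ℂ) →ₗ[ℂ] ℂ where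
  toFun w := ∑ b, f b * w b
  map_add' v w := by simp [mul_add, Finset.sum_add_distrib]
  map_smul' a v := by
    simp only [Pi.smul_apply, smul_eq_mul, RingHom.id_apply, Finset.mul_sum]
    exact Finset.sum_congr rfl fun b _ => by ring

theorem prf_apply {J : Type} [Fintype J] (f w : J → ℂ) : prf f w = ∑ b, f b * w b := rfl

/-- a rational form which separates -/
theorem exists_form {J : Type} [Fintype J] (W : Submodule ℂ (J → ℂ))
    (hW : ∀ σ : ℂ ≃+* ℂ, (∀ x ∈ K, σ x = x) → ∀ v ∈ W, (fun i => σ (v i)) ∈ W)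
    {v : J → ℂ} (hv : v ∉ W) :
    ∃ f : J → ℂ, (∀ j, f j ∈ K) ∧ (∀ y ∈ W, prf f y = 0) ∧ prf f v ≠ 0 := by
  classical
  obtain ⟨f, hf1, hf2⟩ : ∃ f : (J → ℂ) →ₗ[ℂ] ℂ, f v ≠ 0 ∧ W ≤ LinearMap.ker f := by
    obtain ⟨f, h1, h2⟩ := Submodule.exists_dual_map_eq_bot_of_notMem hv inferInstance
    refine ⟨f, h1, fun w hw => ?_⟩
    have h3 : f w ∈ W.map f := Submodule.mem_map_of_mem hw
    rw [h2] at h3
    exact (Submodule.mem_bot ℂ).1 h3
  have hf3 : ∀ a : J → ℂ, f a = ∑ b, f (Pi.single b 1) * a b := by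
    intro a
    conv_lhs => rw [LinearMap.pi_apply_eq_sum_univ f a]
    refine Finset.sum_congr rfl fun b _ => ?_
    have h : (fun j => if b = j then (1 : ℂ) else 0) = Pi.single b 1 := by
      funext j
      simp [Pi.single_apply, eq_comm]
    rw [h, smul_eq_mul, mul_comm]
  let An : Submodule ℂ (J → ℂ) :=
    { carrier := {u | ∀ a ∈ W, ∑ b, u b * a b = 0}
      zero_mem' := by intro a _; simp
      add_mem' := by
        intro u v hu hv a ha
        simp only [Pi.add_apply, add_mul, Finset.sum_add_distrib]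
        rw [hu a ha, hv a ha, add_zero]
      smul_mem' := by
        intro z u hu a ha
        simp only [Pi.smul_apply, smul_eq_mul, mul_assoc, ← Finset.mul_sum]
        rw [hu a ha, mul_zero] }
  have hAn : ∀ σ : ℂ ≃+* ℂ, (∀ x ∈ K, σ x = x) → ∀ v ∈ An, (fun i => σ (v i)) ∈ An := by
    intro σ hσ u hu a ha
    have h1 := hu _ (hW σ.symm (symm_fix hσ) a ha)
    have h2 := congrArg σ h1
    rw [map_zero, map_sum] at h2
    rw [← h2]
    refine Finset.sum_congr rfl fun b _ => ?_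
    rw [map_mul]
    simp
  have hfA : (fun j => f (Pi.single j 1)) ∈ An := by
    intro a ha
    rw [← hf3]
    exact hf2 ha
  obtain ⟨lam, h1, h2, h3⟩ := exists_rat An hAn (prf v) ⟨_, hfA, by
    rw [prf_apply]
    have h4 := hf3 v
    have h5 : ∑ b, v b * f (Pi.single b 1) = f v := by
      rw [h4]
      exact Finset.sum_congr rfl fun b _ => mul_comm _ _
    rw [h5]
    exact hf1⟩
  refine ⟨lam, h2, fun y hy => h1 y hy, ?_⟩
  rw [prf_apply] at h3 ⊢
  have h5 : ∑ b, lam b * v b = ∑ b, v b * lam b :=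
    Finset.sum_congr rfl fun b _ => mul_comm _ _
  rwa [h5]

/-- derivatives of vectors in rational subspaces -/
theorem der_sub {J : Type} [Fintype J] (W : Submodule ℂ (J → ℂ))
    (hW : ∀ σ : ℂ ≃+* ℂ, (∀ x ∈ K, σ x = x) → ∀ v ∈ W, (fun i => σ (v i)) ∈ W)
    (D : Derivation K ℂ ℂ) {v : J → ℂ} (hv : v ∈ W) : (fun i => D (v i)) ∈ W := by
  have h1 : v ∈ Submodule.span ℂ {w | w ∈ W ∧ ∀ a, w a ∈ K} := defOver_of_aut W hW hv
  have h2 : Submodule.span ℂ {w | w ∈ W ∧ ∀ a, w a ∈ K} ≤ W := by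
    rw [Submodule.span_le]
    exact fun w hw => hw.1
  clear hv
  induction h1 using Submodule.span_induction with
  | mem w hw =>
    have : (fun i => D (w i)) = 0 := by
      funext i
      exact der_of_mem D (hw.2 i)
    rw [this]
    exact Submodule.zero_mem _
  | zero =>
    have : (fun i => D ((0 : J → ℂ) i)) = 0 := by
      funext i
      exact map_zero D
    rw [this]
    exact Submodule.zero_mem _
  | add v w hv' hw' hv hw =>
    have : (fun i => D ((v + w) i)) = (fun i => D (v i)) + fun i => D (w i) := by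
      funext i
      exact map_add D _ _
    rw [this]
    exact Submodule.add_mem _ hv hw
  | smul a v hv' hv =>
    have : (fun i => D ((a • v) i)) = D a • v + a • fun i => D (v i) := by
      funext i
      simp only [Pi.smul_apply, Pi.add_apply, smul_eq_mul, Derivation.leibniz]
      ring
    rw [this]
    exact Submodule.add_mem _ (Submodule.smul_mem _ _ (h2 hv'))
      (Submodule.smul_mem _ _ hv)

/-- the commutators, as a rational subspace of matrices -/
def CS (wt : B → ℕ) (G : Set (Matrix B B ℂ)) : Submodule ℚ (Matrix B B ℂ) where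
  carrier := {X | fl X ∈ CC wt G}
  zero_mem' := by
    change fl (0 : Matrix B B ℂ) ∈ CC wt G
    rw [fl_zero]
    exact Submodule.zero_mem _
  add_mem' := by
    intro X Y hX hY
    change fl (X + Y) ∈ CC wt G
    rw [fl_add]
    exact Submodule.add_mem _ hX hY
  smul_mem' := by
    intro q X hX
    change fl (q • X) ∈ CC wt G
    rw [← Rat.cast_smul_eq_qsmul ℂ, fl_smul]
    exact Submodule.smul_mem _ _ hX

theorem mem_CS {X : Matrix B B ℂ} : X ∈ CS wt G ↔ fl X ∈ CC wt G := Iff.rfl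

/-- the derivation of the matrices -/
noncomputable def dMat (D : Derivation K ℂ ℂ) : Module.End ℚ (Matrix B B ℂ) :=
  (AddMonoidHom.mapMatrix (D : ℂ →ₗ[K] ℂ).toAddMonoidHom).toRatLinearMap

theorem dMat_apply (D : Derivation K ℂ ℂ) (X : Matrix B B ℂ) : dMat D X = X.map D := rfl

theorem dMat_mul (D : Derivation K ℂ ℂ) (X Y : Matrix B B ℂ) :
    dMat D (X * Y) = dMat D X * Y + X * dMat D Y := by
  ext i j
  simp only [dMat_apply, Matrix.map_apply, Matrix.mul_apply, Matrix.add_apply, map_sum,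
    Derivation.leibniz, smul_eq_mul, ← Finset.sum_add_distrib]
  refine Finset.sum_congr rfl fun k _ => ?_
  ring

theorem ad_CS {L : Matrix B B ℂ} (hL : fl L ∈ UU wt G) {X : Matrix B B ℂ}
    (hX : fl X ∈ UU wt G) : adL L X ∈ CS wt G := br_CC hL hX

theorem logD_one (hG : IsSubtorsor K G) (D : Derivation K ℂ ℂ) {L : Matrix B B ℂ}
    (hL : fl L ∈ UU wt G) :
    fl ((IsNilpotent.exp L).map D * IsNilpotent.exp (-L) - L.map D) ∈ CC wt G := by
  have hD : fl (L.map D) ∈ UU wt G := der_sub (UU wt G) (aut_UU hG) D hL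
  exact der_mod hL.1.nil (dMat D) (dMat_mul D) (CS wt G) (ad_CS hL hD)
    fun y hy => ad_CS hL (CC_le hy)

theorem logD_two (h : Mt K wt G) {L : Matrix B B ℂ} (hL : fl L ∈ UU wt G) :
    fl (IsNilpotent.exp L * MT.Hm wt * IsNilpotent.exp (-L) - MT.Hm wt -
      (L * MT.Hm wt - MT.Hm wt * L)) ∈ CC wt G := by
  have hN : IsNilpotent L := hL.1.nil
  have h1 := Submodule.neg_mem _ (h.Hm_UU hL)
  have h2 : adL L (MT.Hm wt) = -(MT.Hm wt * L - L * MT.Hm wt) := by
    rw [adL_apply]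
    abel
  have h3 : fl (adL L (MT.Hm wt)) ∈ UU wt G := by
    rw [h2]
    exact h1
  exact conj_mod hN (CS wt G) (z := MT.Hm wt) (ad_CS hL h3) fun y hy => ad_CS hL (CC_le hy)

theorem dg_der (D : Derivation K ℂ ℂ) {τ : ℂ} (hτ : τ ≠ 0) :
    (dg wt τ).map D = (D τ / τ) • (MT.Hm wt * dg wt τ) := by
  ext i j
  rw [Matrix.map_apply, Matrix.smul_apply, MT.Hm, dg, Matrix.diagonal_mul_diagonal]
  by_cases hij : i = j
  · subst hij
    rw [Matrix.diagonal_apply_eq, Matrix.diagonal_apply_eq, Derivation.leibniz_pow, smul_eq_mul,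
      smul_eq_mul, nsmul_eq_mul]
    rcases hn : wt i with _ | n
    · simp
    · rw [Nat.add_sub_cancel, pow_succ]
      field_simp
  · rw [Matrix.diagonal_apply_ne _ hij, Matrix.diagonal_apply_ne _ hij, map_zero, smul_zero]

/-- the logarithmic derivative of the period matrix -/
noncomputable def wD (wt : B → ℕ) (D : Derivation K ℂ ℂ) (τ : ℂ) (L : Matrix B B ℂ) :
    Matrix B B ℂ :=
  (IsNilpotent.exp L).map D * IsNilpotent.exp (-L) +
    (D τ / τ) • (IsNilpotent.exp L * MT.Hm wt * IsNilpotent.exp (-L))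

theorem wD_mem (hT : IsSubtorsor K T) (D : Derivation K ℂ ℂ) {τ : ℂ} (hτ : τ ≠ 0)
    {L : Matrix B B ℂ} (hL : Fk wt 1 L) (hc : IsNilpotent.exp L * dg wt τ ∈ T) :
    fl (wD wt D τ L) ∈ LL T := by
  have h1 := logder_mem hT D hc
  have h2 : (IsNilpotent.exp L * dg wt τ).map D = (IsNilpotent.exp L).map D * dg wt τ +
      IsNilpotent.exp L * (dg wt τ).map D := dMat_mul D _ _
  have h3 : (IsNilpotent.exp L * dg wt τ)⁻¹ = dg wt τ⁻¹ * IsNilpotent.exp (-L) := by
    refine Matrix.inv_eq_right_inv ?_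
    rw [Matrix.mul_assoc, ← Matrix.mul_assoc (dg wt τ), dg_mul, mul_inv_cancel₀ hτ, dg_one,
      Matrix.one_mul, IsNilpotent.exp_mul_exp_neg_self hL.nil]
  have h4 : (IsNilpotent.exp L * dg wt τ).map D * (IsNilpotent.exp L * dg wt τ)⁻¹ =
      wD wt D τ L := by
    rw [h2, h3, dg_der D hτ, Matrix.add_mul, Matrix.mul_assoc _ (dg wt τ), ← Matrix.mul_assoc
      (dg wt τ), dg_mul, mul_inv_cancel₀ hτ, dg_one, Matrix.one_mul]
    unfold wD
    congr 1
    rw [Matrix.mul_smul, Matrix.smul_mul]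
    congr 1
    rw [Matrix.mul_assoc, Matrix.mul_assoc, ← Matrix.mul_assoc (dg wt τ), dg_mul,
      mul_inv_cancel₀ hτ, dg_one, Matrix.one_mul, Matrix.mul_assoc]
  rwa [h4] at h1

/-- the logarithmic derivative modulo commutators -/
theorem wD_eq (h : Mt K wt G) (D : Derivation K ℂ ℂ) (τ : ℂ) {L : Matrix B B ℂ}
    (hL : fl L ∈ UU wt G) :
    fl (wD wt D τ L - (L.map D + (D τ / τ) • (MT.Hm wt + (L * MT.Hm wt - MT.Hm wt * L)))) ∈
      CC wt G := by
  have h1 := logD_one h.hG D hL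
  have h2 := Submodule.smul_mem _ (D τ / τ) (logD_two h hL)
  have h3 := Submodule.add_mem _ h1 h2
  rw [← fl_smul, ← fl_add] at h3
  convert h3 using 2
  unfold wD
  rw [smul_sub, smul_sub, smul_add]
  abel

theorem wD_UU (h : Mt K wt G) (D : Derivation K ℂ ℂ) (τ : ℂ) {L : Matrix B B ℂ}
    (hL : fl L ∈ UU wt G) : fl (wD wt D τ L - (D τ / τ) • MT.Hm wt) ∈ UU wt G := by
  have h1 := CC_le (wD_eq h D τ hL)
  have hD : fl (L.map D) ∈ UU wt G := der_sub (UU wt G) (aut_UU h.hG) D hL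
  have h2 := Submodule.smul_mem _ (D τ / τ) (Submodule.neg_mem _ (h.Hm_UU hL))
  have h3 := Submodule.add_mem _ h1 (Submodule.add_mem _ hD h2)
  have h4 : fl (wD wt D τ L - (D τ / τ) • MT.Hm wt) =
      fl (wD wt D τ L - (L.map D + (D τ / τ) • (MT.Hm wt + (L * MT.Hm wt - MT.Hm wt * L)))) +
      (fl (L.map D) + (D τ / τ) • -fl (MT.Hm wt * L - L * MT.Hm wt)) := by
    funext b
    simp only [fl, Pi.add_apply, Pi.smul_apply, Pi.neg_apply, Matrix.sub_apply, Matrix.add_apply,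
      Matrix.smul_apply, smul_eq_mul]
    ring
  rw [h4]
  exact h3

/-- linear forms of degree `d` over `K` -/
def IsForm (K : Subfield ℂ) (wt : B → ℕ) (d : ℕ) (f : B × B → ℂ) : Prop :=
  (∀ b, f b ∈ K) ∧ ∀ b, f b ≠ 0 → wt b.1 = wt b.2 + d

theorem prf_aH {d : ℕ} {f : B × B → ℂ} (hf : IsForm K wt d f) (w : B × B → ℂ) :
    prf f (aH wt w) = d * prf f w := by
  rw [prf_apply, prf_apply, Finset.mul_sum]
  refine Finset.sum_congr rfl fun b _ => ?_
  by_cases h0 : f b = 0
  · rw [h0]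
    ring
  · rw [aH, hf.2 b h0]
    push_cast
    ring

theorem prf_Hm {d : ℕ} (hd : 1 ≤ d) {f : B × B → ℂ} (hf : IsForm K wt d f) :
    prf f (fl (MT.Hm wt)) = 0 := by
  rw [prf_apply]
  refine Finset.sum_eq_zero fun b _ => ?_
  by_cases h0 : f b = 0
  · rw [h0, zero_mul]
  · have h1 := hf.2 b h0
    have h2 : b.1 ≠ b.2 := by
      intro h3
      rw [h3] at h1
      omega
    rw [fl, MT.Hm, Matrix.diagonal_apply_ne _ h2, mul_zero]

theorem prf_der (D : Derivation K ℂ ℂ) {d : ℕ} {f : B × B → ℂ} (hf : IsForm K wt d f)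
    (L : Matrix B B ℂ) : prf f (fl (L.map D)) = D (prf f (fl L)) := by
  rw [prf_apply, prf_apply, map_sum]
  refine Finset.sum_congr rfl fun b _ => ?_
  rw [Derivation.leibniz, der_of_mem D (hf.1 b), smul_zero, add_zero, smul_eq_mul]
  rfl

theorem prf_wD (h : Mt K wt G) (D : Derivation K ℂ ℂ) (τ : ℂ) {L : Matrix B B ℂ}
    (hL : fl L ∈ UU wt G) {d : ℕ} (hd : 1 ≤ d) {f : B × B → ℂ} (hf : IsForm K wt d f)
    (hfC : ∀ w ∈ CC wt G, prf f w = 0) :
    prf f (fl (wD wt D τ L)) = D (prf f (fl L)) - (D τ / τ) * (d * prf f (fl L)) := by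
  have h1 := hfC _ (wD_eq h D τ hL)
  have h4 : fl (wD wt D τ L - (L.map D + (D τ / τ) • (MT.Hm wt + (L * MT.Hm wt - MT.Hm wt * L)))) =
      fl (wD wt D τ L) - (fl (L.map D) + (D τ / τ) • (fl (MT.Hm wt) - aH wt (fl L))) := by
    rw [aH_fl]
    funext b
    simp only [fl, Pi.add_apply, Pi.smul_apply, Pi.sub_apply, Matrix.sub_apply, Matrix.add_apply,
      Matrix.smul_apply, smul_eq_mul]
    ring
  rw [h4, map_sub, map_add, map_smul, map_sub, prf_Hm hd hf, prf_aH hf, prf_der D hf,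
    smul_eq_mul] at h1
  linear_combination h1

end Pool.Agent.U725.MT
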