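import Pool.Agent.U725.MT.DegOne

/-!
# Groups whose unipotent Lie algebra is generated in degree one and by one element of degree `k ≥ 2`
-/

set_option autoImplicit false
set_option linter.unusedSectionVars false

open Matrix MvPolynomial

namespace Pool.Agent.U725.MT

open Pool.Agent.TH127.PT Pool.Agent.TH119.MX Pool.Agent.TH119.DR Pool.Agent.Y123.ST
  Pool.Agent.U725.OM

variable {B : Type} [Fintype B] [DecidableEq B] {wt : B → ℕ} {K : Subfield ℂ}
  {G T : Set (Matrix B B ℂ)}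

/-- **the unipotent Lie algebra is generated in degree one and by `M` of degree `k`** -/
theorem Mt.oneMore (h : Mt K wt G) {m : ℕ} (N : Fin m → Matrix B B ℂ)
    (hNd : ∀ n, ∀ b b', N n b b' ≠ 0 → wt b = wt b' + 1) (hNK : ∀ n, ∀ b b', N n b b' ∈ K)
    (k : ℕ) (hk : k ≠ 1) (M : Matrix B B ℂ) (hMd : ∀ b b', M b b' ≠ 0 → wt b = wt b' + k)
    (hMK : ∀ b b', M b b' ∈ K)
    (hspan : ∀ X : Matrix B B ℂ, fl X ∈ UU wt G → ∃ (x : Fin m → ℂ) (y : ℂ),
      fl (X - (∑ n, x n • N n + y • M)) ∈ CC wt G)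
    {L : Matrix B B ℂ} (hL : fl L ∈ UU wt G) (z : Fin m → ℂ)
    (hz : ∀ n, IsAlgebraic ℚ (Complex.exp (z n)))
    (hi : LinearIndependent ℚ (Fin.cons (2 * Real.pi * Complex.I) z : Fin (m + 1) → ℂ))
    (y : ℂ) (hy : ∀ a ∈ K, ∀ b ∈ K, y ≠ a + b * (2 * Real.pi * Complex.I) ^ k)
    (hLz : fl (L - (∑ n, z n • N n + y • M)) ∈ CC wt G)
    (hT : IsSubtorsor K T)
    (hcT : IsNilpotent.exp L * dg wt (2 * Real.pi * Complex.I) ∈ T) : G ⊆ T := by
  classical
  have hval : ∀ {d : ℕ} {f : B × B → ℂ}, IsForm K wt d f → (∀ w ∈ CC wt G, prf f w = 0) →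
      ∀ (X : Matrix B B ℂ) (x : Fin m → ℂ) (t : ℂ), fl (X - (∑ n, x n • N n + t • M)) ∈ CC wt G →
      prf f (fl X) = ∑ n, x n * prf f (fl (N n)) + t * prf f (fl M) := by
    intro d f hf hfC X x t hX
    have h1 := hfC _ hX
    have h2 : fl (X - (∑ n, x n • N n + t • M)) = fl X - (∑ n, x n • fl (N n) + t • fl M) := by
      funext b
      simp only [fl, Pi.sub_apply, Matrix.sub_apply, Matrix.add_apply, Matrix.sum_apply, Finset.sum_apply,
        Matrix.smul_apply, Pi.smul_apply, Pi.add_apply]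
    rw [h2, map_sub, map_add, map_sum, sub_eq_zero] at h1
    rw [h1, map_smul, smul_eq_mul]
    congr 1
    refine Finset.sum_congr rfl fun n _ => ?_
    rw [map_smul, smul_eq_mul]
  refine crit h transc hL ?_ hT hcT
  intro d hd f hf hfC hrel w hw
  have hMf : prf f (fl M) ∈ K := by
    rw [prf_apply]
    exact sum_mem fun b _ => MulMemClass.mul_mem (hf.1 b) (hMK b.1 b.2)
  -- the values of the form on the generators
  have h0 : (∀ n, prf f (fl (N n)) = 0) ∧ prf f (fl M) = 0 := by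
    by_cases hd1 : d = 1
    · subst hd1
      have hM0 : prf f (fl M) = 0 := prf_homog hf hMd (Ne.symm hk)
      refine ⟨?_, hM0⟩
      obtain ⟨a, ha, β, hβ, h2⟩ := hrel
      rw [hval hf hfC L z y hLz, pow_one, hM0, mul_zero, add_zero] at h2
      have hfK : ∀ n, prf f (fl (N n)) ∈ K := by
        intro n
        rw [prf_apply]
        exact sum_mem fun b _ => MulMemClass.mul_mem (hf.1 b) (hNK n b.1 b.2)
      have h3 := (bak_of hz hi (fun n => prf f (fl (N n))) (-β) (fun n => h.hK _ (hfK n))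
        (h.hK _ (neg_mem hβ)) (by
          have h4 : ∑ n, prf f (fl (N n)) * z n + -β * (2 * Real.pi * Complex.I) = a := by
            have h5 : ∑ n, prf f (fl (N n)) * z n = ∑ n, z n * prf f (fl (N n)) :=
              Finset.sum_congr rfl fun n _ => mul_comm _ _
            rw [h5, h2]
            ring
          rw [h4]
          exact h.hK a ha)).1
      exact fun n => congrFun h3 n
    · have hN0 : ∀ n, prf f (fl (N n)) = 0 := fun n => prf_homog hf (hNd n) hd1
      refine ⟨hN0, ?_⟩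
      by_cases hdk : d = k
      · subst hdk
        by_contra hne
        obtain ⟨a, ha, β, hβ, h2⟩ := hrel
        have h3 : ∑ n, z n * prf f (fl (N n)) = 0 :=
          Finset.sum_eq_zero fun n _ => by rw [hN0 n, mul_zero]
        rw [hval hf hfC L z y hLz, h3, zero_add] at h2
        refine hy (a / prf f (fl M)) (div_mem ha hMf) (β / prf f (fl M)) (div_mem hβ hMf) ?_
        field_simp
        linear_combination h2
      · exact prf_homog hf hMd hdk
  obtain ⟨x, t, hx⟩ := hspan (um w) hw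
  have h1 := hval hf hfC (um w) x t hx
  rw [fl_um] at h1
  rw [h1, h0.2, mul_zero, add_zero]
  exact Finset.sum_eq_zero fun n _ => by rw [h0.1 n, mul_zero]

/-- the same for an arbitrary finite set of generators of degree one -/
theorem Mt.oneMore' (h : Mt K wt G) {J : Type} [Fintype J] (N : J → Matrix B B ℂ)
    (hNd : ∀ j, ∀ b b', N j b b' ≠ 0 → wt b = wt b' + 1) (hNK : ∀ j, ∀ b b', N j b b' ∈ K)
    (k : ℕ) (hk : k ≠ 1) (M : Matrix B B ℂ) (hMd : ∀ b b', M b b' ≠ 0 → wt b = wt b' + k)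
    (hMK : ∀ b b', M b b' ∈ K)
    (hspan : ∀ X : Matrix B B ℂ, fl X ∈ UU wt G → ∃ (x : J → ℂ) (y : ℂ),
      fl (X - (∑ j, x j • N j + y • M)) ∈ CC wt G)
    {L : Matrix B B ℂ} (hL : fl L ∈ UU wt G) (z : J → ℂ)
    (hz : ∀ j, IsAlgebraic ℚ (Complex.exp (z j)))
    (hi : ∀ u : J → ℤ, ∏ j, Complex.exp (z j) ^ u j = 1 → u = 0)
    (y : ℂ) (hy : ∀ a ∈ K, ∀ b ∈ K, y ≠ a + b * (2 * Real.pi * Complex.I) ^ k)
    (hLz : fl (L - (∑ j, z j • N j + y • M)) ∈ CC wt G)
    (hT : IsSubtorsor K T)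
    (hcT : IsNilpotent.exp L * dg wt (2 * Real.pi * Complex.I) ∈ T) : G ⊆ T := by
  classical
  obtain ⟨m, ⟨e⟩⟩ : ∃ m, Nonempty (Fin m ≃ J) := ⟨_, ⟨(Fintype.equivFin J).symm⟩⟩
  refine h.oneMore (fun i => N (e i)) (fun i => hNd _) (fun i => hNK _) k hk M hMd hMK (fun X hX => ?_) hL
    (fun i => z (e i)) (fun i => hz _) (indep_of_mul fun u hu => ?_) y hy ?_ hT hcT
  · obtain ⟨x, t, hx⟩ := hspan X hX
    refine ⟨fun i => x (e i), t, ?_⟩
    rw [e.sum_comp (fun j => x j • N j)]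
    exact hx
  · have h1 := hi (fun j => u (e.symm j)) (by
      rw [← e.prod_comp]
      simpa only [Equiv.symm_apply_apply] using hu)
    funext i
    have h2 : u (e.symm (e i)) = 0 := congrFun h1 (e i)
    rw [Equiv.symm_apply_apply] at h2
    exact h2
  · rw [e.sum_comp (fun j => z j • N j)]
    exact hLz

end Pool.Agent.U725.MT
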