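import Pool.Agent.U725.MT.DegOne

/-!
# The group of the sums of polylogarithm motives
-/

set_option autoImplicit false
set_option linter.unusedSectionVars false

open Matrix MvPolynomial

namespace Pool.Agent.U725.MT.Pol

open Pool.Agent.TH127.PT Pool.Agent.TH119.MX Pool.Agent.TH119.DR Pool.Agent.Y123.ST
  Pool.Agent.U725.OM

open scoped Nat

/-- the binomial theorem -/
theorem binom (l l' t t' : ℂ) {j k N : ℕ} (hjk : j ≤ k) (hk : k < N) :
    ∑ m ∈ Finset.range N, (if j ≤ m ∧ m ≤ k then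
      l ^ m * t ^ (k - m) / ((k - m)! : ℂ) * (l' ^ j * t' ^ (m - j) / ((m - j)! : ℂ)) else 0) =
    (l * l') ^ j * (t + l * t') ^ (k - j) / ((k - j)! : ℂ) := by
  rw [← Finset.sum_filter]
  have h1 : (Finset.range N).filter (fun m => j ≤ m ∧ m ≤ k) = Finset.Ico j (k + 1) := by
    ext m
    rw [Finset.mem_filter, Finset.mem_range, Finset.mem_Ico]
    omega
  rw [h1, Finset.sum_Ico_eq_sum_range, show k + 1 - j = (k - j) + 1 by omega, add_comm t, add_pow,
    Finset.mul_sum, Finset.sum_div]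
  refine Finset.sum_congr rfl fun p hp => ?_
  have hp' : p ≤ k - j := Nat.lt_succ_iff.1 (Finset.mem_range.1 hp)
  have e1 : k - (j + p) = k - j - p := by omega
  have e2 : j + p - j = p := by omega
  rw [e1, e2]
  have h2 : (((k - j).choose p : ℕ) : ℂ) * ((p)! : ℂ) * ((k - j - p)! : ℂ) = ((k - j)! : ℂ) := by
    exact_mod_cast Nat.choose_mul_factorial_mul_factorial hp'
  have h3 : ((p)! : ℂ) ≠ 0 := by exact_mod_cast p.factorial_ne_zero
  have h4 : ((k - j - p)! : ℂ) ≠ 0 := by exact_mod_cast (k - j - p).factorial_ne_zero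
  have h5 : ((k - j)! : ℂ) ≠ 0 := by exact_mod_cast (k - j).factorial_ne_zero
  have h6 : ((k - j).choose p : ℂ) = ((k - j)! : ℂ) / (((p)! : ℂ) * ((k - j - p)! : ℂ)) := by
    rw [eq_div_iff (mul_ne_zero h3 h4), ← h2]
    ring
  rw [h6]
  field_simp
  ring

variable {I : Type} [Fintype I] [DecidableEq I] {n : ℕ}

/-- the matrices of the group -/
noncomputable def polM (l : ℂ) (t : I → ℂ) (y : I → Fin (n + 3) → ℂ) :
    Matrix (I × Fin (n + 3)) (I × Fin (n + 3)) ℂ :=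
  Matrix.of fun b b' => if b.1 = b'.1 ∧ b'.2 ≤ b.2 then
    (if b'.2 = 0 then (if b.2 = 0 then 1 else y b.1 b.2) else
      l ^ (b'.2 : ℕ) * t b.1 ^ ((b.2 : ℕ) - b'.2) / (((b.2 : ℕ) - b'.2)! : ℂ)) else 0

/-- the conditions -/
structure InG (x : Matrix (I × Fin (n + 3)) (I × Fin (n + 3)) ℂ) (l : ℂ) (t : I → ℂ) : Prop where
  z : ∀ b b' : I × Fin (n + 3), ¬(b.1 = b'.1 ∧ b'.2 ≤ b.2) → x b b' = 0
  o : ∀ i, x (i, 0) (i, 0) = 1
  e : ∀ (i : I) (k j : Fin (n + 3)), j ≠ 0 → j ≤ k →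
    x (i, k) (i, j) = l ^ (j : ℕ) * t i ^ ((k : ℕ) - j) / (((k : ℕ) - j)! : ℂ)

theorem inG_polM (l : ℂ) (t : I → ℂ) (y : I → Fin (n + 3) → ℂ) : InG (polM l t y) l t := by
  refine ⟨fun b b' h => ?_, fun i => ?_, fun i k j hj hjk => ?_⟩
  · rw [polM, Matrix.of_apply, if_neg h]
  · rw [polM, Matrix.of_apply, if_pos ⟨rfl, le_rfl⟩, if_pos rfl, if_pos rfl]
  · rw [polM, Matrix.of_apply, if_pos ⟨rfl, hjk⟩, if_neg hj]

theorem InG.eq {x : Matrix (I × Fin (n + 3)) (I × Fin (n + 3)) ℂ} {l : ℂ} {t : I → ℂ}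
    (h : InG x l t) : x = polM l t (fun i k => x (i, k) (i, 0)) := by
  ext ⟨i, k⟩ ⟨i', j⟩
  rw [polM, Matrix.of_apply]
  split_ifs with h1 h2 h3
  · dsimp only at h1 h2 h3
    obtain ⟨rfl, -⟩ := h1
    rw [h2, h3]
    exact h.o i
  · dsimp only at h1 h2 h3
    obtain ⟨rfl, -⟩ := h1
    rw [h2]
  · dsimp only at h1 h2
    obtain ⟨rfl, h4⟩ := h1
    exact h.e i k j h2 h4
  · exact h.z _ _ h1

theorem InG.mul {x x' : Matrix (I × Fin (n + 3)) (I × Fin (n + 3)) ℂ} {l l' : ℂ} {t t' : I → ℂ}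
    (h : InG x l t) (h' : InG x' l' t') : InG (x * x') (l * l') (fun i => t i + l * t' i) := by
  have hs : ∀ (i : I) (k j : Fin (n + 3)), (x * x') (i, k) (i, j) =
      ∑ m : Fin (n + 3), x (i, k) (i, m) * x' (i, m) (i, j) := by
    intro i k j
    rw [Matrix.mul_apply, Fintype.sum_prod_type, Finset.sum_eq_single i]
    · intro c _ hc
      refine Finset.sum_eq_zero fun m _ => ?_
      rw [h.z _ _ fun h1 => hc h1.1.symm, zero_mul]
    · exact fun h1 => absurd (Finset.mem_univ i) h1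
  refine ⟨fun b b' hb => ?_, fun i => ?_, fun i k j hj hjk => ?_⟩
  · rw [Matrix.mul_apply]
    refine Finset.sum_eq_zero fun c _ => ?_
    by_cases h1 : b.1 = c.1 ∧ c.2 ≤ b.2
    · rw [h'.z c b' fun h2 => hb ⟨h1.1.trans h2.1, h2.2.trans h1.2⟩, mul_zero]
    · rw [h.z b c h1, zero_mul]
  · rw [hs, Finset.sum_eq_single 0]
    · rw [h.o, h'.o, one_mul]
    · intro m _ hm
      rw [h.z _ _ fun h1 => hm (Fin.le_zero_iff.1 h1.2), zero_mul]
    · exact fun h1 => absurd (Finset.mem_univ _) h1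
  · rw [hs]
    have h1 := binom l l' (t i) (t' i) (j := (j : ℕ)) (k := (k : ℕ)) (N := n + 3) hjk k.2
    rw [← h1, ← Fin.sum_univ_eq_sum_range (fun m => if (j : ℕ) ≤ m ∧ m ≤ (k : ℕ) then
      l ^ m * t i ^ ((k : ℕ) - m) / (((k : ℕ) - m)! : ℂ) *
        (l' ^ (j : ℕ) * t' i ^ (m - (j : ℕ)) / ((m - (j : ℕ))! : ℂ)) else 0)]
    refine Finset.sum_congr rfl fun m _ => ?_
    split_ifs with h2
    · have hjm : j ≤ m := h2.1
      have hmk : m ≤ k := h2.2
      have hm : m ≠ 0 := by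
        rintro rfl
        exact hj (Fin.le_zero_iff.1 hjm)
      rw [h.e i k m hm hmk, h'.e i m j hj hjm]
    · by_cases h3 : m ≤ k
      · rw [h'.z (i, m) (i, j) fun h4 => h2 ⟨h4.2, h3⟩, mul_zero]
      · rw [h.z (i, k) (i, m) fun h4 => h3 h4.2, zero_mul]

/-- the group -/
def GG (I : Type) [Fintype I] [DecidableEq I] (n : ℕ) :
    Set (Matrix (I × Fin (n + 3)) (I × Fin (n + 3)) ℂ) :=
  {x | ∃ l : ℂ, l ≠ 0 ∧ ∃ t : I → ℂ, ∃ y : I → Fin (n + 3) → ℂ, x = polM l t y}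

theorem mem_GG {x : Matrix (I × Fin (n + 3)) (I × Fin (n + 3)) ℂ} :
    x ∈ GG I n ↔ ∃ l : ℂ, l ≠ 0 ∧ ∃ t : I → ℂ, InG x l t := by
  constructor
  · rintro ⟨l, hl, t, y, rfl⟩
    exact ⟨l, hl, t, inG_polM l t y⟩
  · rintro ⟨l, hl, t, h⟩
    exact ⟨l, hl, t, _, h.eq⟩

theorem mul_mem {x x' : Matrix (I × Fin (n + 3)) (I × Fin (n + 3)) ℂ} (h : x ∈ GG I n)
    (h' : x' ∈ GG I n) : x * x' ∈ GG I n := by
  rw [mem_GG] at h h' ⊢
  obtain ⟨l, hl, t, h⟩ := h
  obtain ⟨l', hl', t', h'⟩ := h'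
  exact ⟨_, mul_ne_zero hl hl', _, h.mul h'⟩

theorem inG_one : InG (1 : Matrix (I × Fin (n + 3)) (I × Fin (n + 3)) ℂ) 1 0 := by
  refine ⟨fun b b' h => ?_, fun i => Matrix.one_apply_eq _, fun i k j hj hjk => ?_⟩
  · refine Matrix.one_apply_ne ?_
    rintro rfl
    exact h ⟨rfl, le_rfl⟩
  · by_cases h : j = k
    · subst h
      rw [Matrix.one_apply_eq]
      simp
    · have h1 : (j : ℕ) < k := lt_of_le_of_ne hjk fun h2 => h (Fin.ext h2)
      rw [Matrix.one_apply_ne (fun h2 => h (Prod.ext_iff.1 h2).2.symm), Pi.zero_apply,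
        zero_pow (by omega), mul_zero, zero_div]

/-- matrices with `l = 1`, `t = 0` -/
theorem inv_one_zero {x : Matrix (I × Fin (n + 3)) (I × Fin (n + 3)) ℂ} (h : InG x 1 0) :
    polM 1 0 (fun i k => -x (i, k) (i, 0)) * x = 1 := by
  have h1 := (inG_polM 1 0 (fun i k => -x (i, k) (i, 0))).mul h
  have h2 : (fun i : I => (0 : I → ℂ) i + 1 * (0 : I → ℂ) i) = 0 := by
    funext i
    simp
  rw [h2, mul_one] at h1
  have h3 : ∀ (i : I) (k m : Fin (n + 3)), m ≠ 0 →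
      polM 1 0 (fun i k => -x (i, k) (i, 0)) (i, k) (i, m) = if k = m then 1 else 0 := by
    intro i k m hm
    split_ifs with hkm
    · subst hkm
      rw [(inG_polM 1 0 _).e i k k hm le_rfl]
      simp
    · by_cases h4 : m ≤ k
      · have h5 : (m : ℕ) < k := lt_of_le_of_ne h4 fun h6 => hkm (Fin.ext h6.symm)
        rw [(inG_polM 1 0 _).e i k m hm h4, Pi.zero_apply, zero_pow (by omega), mul_zero, zero_div]
      · exact (inG_polM 1 0 _).z _ _ fun h5 => h4 h5.2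
  rw [h1.eq, inG_one.eq]
  congr 1
  funext i k
  by_cases hk : k = 0
  · subst hk
    rw [h1.o, Matrix.one_apply_eq]
  · rw [Matrix.one_apply_ne (fun h2 => hk (Prod.ext_iff.1 h2).2), Matrix.mul_apply,
      Fintype.sum_prod_type, Finset.sum_eq_single i]
    · rw [Fin.sum_univ_succ, h.o, mul_one]
      have h4 : polM 1 0 (fun i k => -x (i, k) (i, 0)) (i, k) (i, 0) = -x (i, k) (i, 0) := by
        rw [polM, Matrix.of_apply, if_pos ⟨rfl, Fin.zero_le _⟩, if_pos rfl, if_neg hk]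
      rw [h4]
      obtain ⟨p, rfl⟩ : ∃ p : Fin (n + 2), k = p.succ := ⟨k.pred hk, (Fin.succ_pred k hk).symm⟩
      rw [Finset.sum_eq_single p]
      · rw [h3 i p.succ p.succ (Fin.succ_ne_zero p), if_pos rfl, one_mul, neg_add_cancel]
      · intro q _ hq
        rw [h3 i p.succ q.succ (Fin.succ_ne_zero q), if_neg fun h5 => hq (Fin.succ_injective _ h5).symm,
          zero_mul]
      · exact fun h5 => absurd (Finset.mem_univ _) h5
    · intro c _ hc
      refine Finset.sum_eq_zero fun m _ => ?_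
      rw [(inG_polM 1 0 _).z _ _ fun h1 => hc h1.1.symm, zero_mul]
    · exact fun h1 => absurd (Finset.mem_univ i) h1

theorem exists_inv {x : Matrix (I × Fin (n + 3)) (I × Fin (n + 3)) ℂ} (h : x ∈ GG I n) :
    ∃ x' ∈ GG I n, x' * x = 1 := by
  obtain ⟨l, hl, t, h⟩ := mem_GG.1 h
  have h1 := (inG_polM (n := n) l⁻¹ (fun i => -t i / l) 0).mul h
  have h2 : (fun i : I => -t i / l + l⁻¹ * t i) = 0 := by
    funext i
    rw [Pi.zero_apply]
    field_simp
    ring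
  rw [h2, inv_mul_cancel₀ hl] at h1
  have h3 := inv_one_zero h1
  rw [← Matrix.mul_assoc] at h3
  exact ⟨_, mul_mem ⟨1, one_ne_zero, 0, _, rfl⟩ ⟨l⁻¹, inv_ne_zero hl, _, 0, rfl⟩, h3⟩

theorem inv_mem {x : Matrix (I × Fin (n + 3)) (I × Fin (n + 3)) ℂ} (h : x ∈ GG I n) :
    IsUnit x ∧ x⁻¹ ∈ GG I n := by
  obtain ⟨x', h1, h2⟩ := exists_inv h
  have h3 := Matrix.inv_eq_left_inv h2
  rw [h3]
  exact ⟨(Matrix.isUnit_iff_isUnit_det _).2 (Matrix.isUnit_det_of_left_inverse h2), h1⟩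

/-- the equations -/
def eqs (K : Subfield ℂ) (I : Type) (n : ℕ) :
    Set (MvPolynomial ((I × Fin (n + 3)) × (I × Fin (n + 3))) K) :=
  {p | (∃ b b' : I × Fin (n + 3), ¬(b.1 = b'.1 ∧ b'.2 ≤ b.2) ∧ p = X (b, b')) ∨
    (∃ i : I, p = X ((i, 0), (i, 0)) - 1) ∨
    (∃ i i' : I, p = X ((i, 1), (i, 1)) - X ((i', 1), (i', 1))) ∨
    (∃ (i : I) (k j : Fin (n + 3)), j ≠ 0 ∧ j ≤ k ∧
      p = (((k : ℕ) - j)! : MvPolynomial _ K) * X ((i, k), (i, j)) * X ((i, 1), (i, 1)) ^ ((k : ℕ) - j) -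
        X ((i, 1), (i, 1)) ^ (j : ℕ) * X ((i, 2), (i, 1)) ^ ((k : ℕ) - j))}

theorem one_val : ((1 : Fin (n + 3)) : ℕ) = 1 := by
  rw [Fin.val_one]

theorem two_val : ((2 : Fin (n + 3)) : ℕ) = 2 := by
  rfl

theorem mem_iff (K : Subfield ℂ) (x : Matrix (I × Fin (n + 3)) (I × Fin (n + 3)) ℂ) :
    x ∈ GG I n ↔ IsUnit x ∧ ∀ p ∈ eqs K I n,
      eval (fun b => x b.1 b.2) (map (algebraMap K ℂ) p) = 0 := by
  constructor
  · intro hx
    refine ⟨(inv_mem hx).1, ?_⟩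
    obtain ⟨l, hl, t, h⟩ := mem_GG.1 hx
    have h1 : ∀ i, x (i, 1) (i, 1) = l := by
      intro i
      rw [h.e i 1 1 (by simp) le_rfl, one_val]
      simp
    have h2 : ∀ i, x (i, 2) (i, 1) = l * t i := by
      intro i
      rw [h.e i 2 1 (by simp) (by rw [Fin.le_def, one_val, two_val]; norm_num), one_val, two_val]
      simp
    rintro p (⟨b, b', hb, rfl⟩ | ⟨i, rfl⟩ | ⟨i, i', rfl⟩ | ⟨i, k, j, hj, hjk, rfl⟩)
    · simp only [map_X, eval_X]
      exact h.z b b' hb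
    · simp only [map_sub, map_X, eval_X, map_one]
      rw [h.o, sub_self]
    · simp only [map_sub, map_X, eval_X]
      rw [h1, h1, sub_self]
    · simp only [map_sub, map_mul, map_pow, map_X, eval_X, map_natCast]
      rw [h1, h2, h.e i k j hj hjk]
      have h3 : (((k : ℕ) - j)! : ℂ) ≠ 0 := by exact_mod_cast ((k : ℕ) - j).factorial_ne_zero
      field_simp
      ring
  · rintro ⟨hu, hp⟩
    have hz : ∀ b b' : I × Fin (n + 3), ¬(b.1 = b'.1 ∧ b'.2 ≤ b.2) → x b b' = 0 := by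
      intro b b' hb
      have := hp _ (Or.inl ⟨b, b', hb, rfl⟩)
      simpa only [map_X, eval_X] using this
    have ho : ∀ i, x (i, 0) (i, 0) = 1 := by
      intro i
      have := hp _ (Or.inr (Or.inl ⟨i, rfl⟩))
      simp only [map_sub, map_X, eval_X, map_one] at this
      exact sub_eq_zero.1 this
    have h11 : ∀ i i', x (i, 1) (i, 1) = x (i', 1) (i', 1) := by
      intro i i'
      have := hp _ (Or.inr (Or.inr (Or.inl ⟨i, i', rfl⟩)))
      simp only [map_sub, map_X, eval_X] at this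
      exact sub_eq_zero.1 this
    have hkj : ∀ (i : I) (k j : Fin (n + 3)), j ≠ 0 → j ≤ k →
        (((k : ℕ) - j)! : ℂ) * x (i, k) (i, j) * x (i, 1) (i, 1) ^ ((k : ℕ) - j) =
          x (i, 1) (i, 1) ^ (j : ℕ) * x (i, 2) (i, 1) ^ ((k : ℕ) - j) := by
      intro i k j hj hjk
      have := hp _ (Or.inr (Or.inr (Or.inr ⟨i, k, j, hj, hjk, rfl⟩)))
      simp only [map_sub, map_mul, map_pow, map_X, eval_X, map_natCast] at this
      exact sub_eq_zero.1 this
    have h0 : ∀ i, x (i, 1) (i, 1) ≠ 0 := by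
      intro i hi
      have h1 := hkj i (Fin.last _) (Fin.last _) (by simp [Fin.ext_iff]) le_rfl
      rw [hi, Nat.sub_self, pow_zero, pow_zero, mul_one, mul_one, Nat.factorial_zero, Nat.cast_one,
        one_mul, zero_pow (by simp)] at h1
      have h2 : x.det = 0 := by
        refine Matrix.det_eq_zero_of_column_eq_zero (i, Fin.last _) fun b => ?_
        by_cases hb : b = (i, Fin.last _)
        · rw [hb]
          exact h1
        · refine hz _ _ fun h3 => hb ?_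
          have h4 : b.2 = Fin.last _ := le_antisymm (Fin.le_last _) h3.2
          exact Prod.ext h3.1 h4
      have h3 := (Matrix.isUnit_iff_isUnit_det _).1 hu
      rw [h2] at h3
      exact not_isUnit_zero h3
    rw [mem_GG]
    rcases isEmpty_or_nonempty I with hI | ⟨⟨i₀⟩⟩
    · exact ⟨1, one_ne_zero, 0, ⟨hz, ho, fun i => (hI.false i).elim⟩⟩
    refine ⟨x (i₀, 1) (i₀, 1), h0 i₀, fun i => x (i, 2) (i, 1) / x (i₀, 1) (i₀, 1), hz, ho, ?_⟩
    intro i k j hj hjk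
    have h1 := hkj i k j hj hjk
    rw [h11 i i₀] at h1
    have h3 : (((k : ℕ) - j)! : ℂ) ≠ 0 := by exact_mod_cast ((k : ℕ) - j).factorial_ne_zero
    have h4 : x (i₀, 1) (i₀, 1) ^ ((k : ℕ) - j) ≠ 0 := pow_ne_zero _ (h0 i₀)
    rw [div_pow, eq_div_iff h3, mul_div_assoc', eq_div_iff h4, ← h1]
    ring

end Pool.Agent.U725.MT.Pol
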