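import Pool.Agent.U725.MT.Pol

/-!
# The Lie algebra of the group of the sums of polylogarithm motives
-/

set_option autoImplicit false
set_option linter.unusedSectionVars false

open Matrix MvPolynomial

namespace Pool.Agent.U725.MT.Pol

open Pool.Agent.TH127.PT Pool.Agent.TH119.MX Pool.Agent.TH119.DR Pool.Agent.Y123.ST
  Pool.Agent.U725.OM

open scoped Nat

variable {I : Type} [Fintype I] [DecidableEq I] {n : ℕ} {K : Subfield ℂ}

/-- the weights -/
def pw (b : I × Fin (n + 3)) : ℕ := b.2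

theorem dg_eq (l : ℂ) : dg (pw (I := I) (n := n)) l = polM l 0 0 := by
  ext ⟨i, k⟩ ⟨i', j⟩
  rw [dg, Matrix.diagonal_apply, polM, Matrix.of_apply]
  dsimp only [pw]
  split_ifs with h1 h2 h3 h4 h5 h6 h7
  · have h9 := (Prod.ext_iff.1 h1).2
    dsimp only at h9
    rw [h4]
    simp
  · exact absurd ((Prod.ext_iff.1 h1).2.trans h3) h4
  · have h9 := (Prod.ext_iff.1 h1).2
    dsimp only at h9
    subst h9
    simp
  · exact absurd ⟨(Prod.ext_iff.1 h1).1, (Prod.ext_iff.1 h1).2.ge⟩ h2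
  · exact absurd (Prod.ext h5.1 (h7.trans h6.symm)) h1
  · rfl
  · have h9 : (j : ℕ) < k := lt_of_le_of_ne h5.2 fun h10 => h1 (Prod.ext h5.1 (Fin.ext h10.symm))
    rw [Pi.zero_apply, zero_pow (by omega), mul_zero, zero_div]
  · rfl

theorem isSub : IsSubtorsor K (GG I n) := by
  rw [← subT_iff]
  exact ⟨fun x hx y hy z hz => mul_mem (mul_mem hx (inv_mem hy).2) hz, eqs K I n, mem_iff K⟩

theorem tri {x : Matrix (I × Fin (n + 3)) (I × Fin (n + 3)) ℂ} (hx : x ∈ GG I n) :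
    ∃ l : ℂ, l ≠ 0 ∧ Fk pw 1 (x * dg pw l⁻¹ - 1) := by
  obtain ⟨l, hl, t, h⟩ := mem_GG.1 hx
  refine ⟨l, hl, fun b b' hb => ?_⟩
  rw [Matrix.sub_apply, dg, Matrix.mul_diagonal] at hb
  by_contra hlt
  have hlt' : (b.2 : ℕ) ≤ b'.2 := by
    have : ¬((b'.2 : ℕ) + 1 ≤ b.2) := hlt
    omega
  apply hb
  by_cases hbb : b = b'
  · subst hbb
    obtain ⟨i, k⟩ := b
    rw [Matrix.one_apply_eq]
    by_cases hk : k = 0
    · subst hk
      rw [h.o]
      simp [pw]
    · rw [h.e i k k hk le_rfl]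
      have h3 : l ^ (k : ℕ) ≠ 0 := pow_ne_zero _ hl
      simp [pw, h3]
  · rw [Matrix.one_apply_ne hbb, sub_zero]
    have h4 : ¬(b.1 = b'.1 ∧ b'.2 ≤ b.2) := by
      rintro ⟨h5, h6⟩
      have h7 : (b'.2 : ℕ) ≤ b.2 := h6
      exact hbb (Prod.ext h5 (Fin.ext (le_antisymm hlt' h7)))
    rw [h.z _ _ h4, zero_mul]

theorem mt_GG (hK : ∀ x ∈ K, IsAlgebraic ℚ x) : Mt K pw (GG I n) :=
  Mt.of_tri hK isSub (fun l hl => ⟨l, hl, 0, 0, dg_eq l⟩) fun _ hx => tri hx

/-- the matrices of the Lie algebra -/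
def lm (τ : I → ℂ) (z : I → Fin (n + 3) → ℂ) : Matrix (I × Fin (n + 3)) (I × Fin (n + 3)) ℂ :=
  Matrix.of fun b b' => if b.1 = b'.1 then (if b'.2 = 0 then z b.1 b.2 else
    if (b.2 : ℕ) = b'.2 + 1 then τ b.1 else 0) else 0

theorem dd_pow {B : Type} [Fintype B] [DecidableEq B] (P : MvPolynomial B ℂ) (x v : B → ℂ) (m : ℕ) :
    dd (P ^ m) x v = m * eval x P ^ (m - 1) * dd P x v := by
  induction m with
  | zero =>
    rw [pow_zero, ← map_one (C (R := ℂ) (σ := B)), dd_C]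
    simp
  | succ m ih =>
    rw [pow_succ, dd_mul, ih, map_pow]
    rcases m with - | m
    · simp
    · simp only [Nat.add_sub_cancel]
      push_cast
      ring

theorem dd_sub {B : Type} [Fintype B] [DecidableEq B] (P Q : MvPolynomial B ℂ) (x v : B → ℂ) :
    dd (P - Q) x v = dd P x v - dd Q x v := by
  rw [sub_eq_add_neg, dd_add, ← neg_one_smul ℂ Q, dd_smul]
  ring

theorem tan {X : Matrix (I × Fin (n + 3)) (I × Fin (n + 3)) ℂ} (hX : fl X ∈ UU pw (GG I n))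
    {p : MvPolynomial ((I × Fin (n + 3)) × (I × Fin (n + 3))) (⊥ : Subfield ℂ)}
    (hp : p ∈ eqs ⊥ I n) : dd (map (algebraMap (⊥ : Subfield ℂ) ℂ) p) (fl 1) (fl X) = 0 := by
  have h1 : Van (GG I n) (map (algebraMap (⊥ : Subfield ℂ) ℂ) p) := fun x hx =>
    ((mem_iff ⊥ x).1 hx).2 p hp
  have h2 : (1 : Matrix (I × Fin (n + 3)) (I × Fin (n + 3)) ℂ) ∈ GG I n :=
    mem_GG.2 ⟨1, one_ne_zero, 0, inG_one⟩
  have h3 := hX.2 _ h1 1 h2
  rwa [um_fl, Matrix.mul_one] at h3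

theorem tan_zero {X : Matrix (I × Fin (n + 3)) (I × Fin (n + 3)) ℂ} (hX : fl X ∈ UU pw (GG I n))
    {b b' : I × Fin (n + 3)} (hb : ¬(b.1 = b'.1 ∧ b'.2 ≤ b.2)) : X b b' = 0 := by
  have h := tan hX (Or.inl ⟨b, b', hb, rfl⟩)
  rw [map_X, dd_X] at h
  exact h

theorem tan_kj {X : Matrix (I × Fin (n + 3)) (I × Fin (n + 3)) ℂ} (hX : fl X ∈ UU pw (GG I n))
    (i : I) {k j : Fin (n + 3)} (hj : j ≠ 0) (hjk : j < k) :
    X (i, k) (i, j) = if (k : ℕ) = j + 1 then X (i, 2) (i, 1) else 0 := by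
  have h := tan hX (Or.inr (Or.inr (Or.inr ⟨i, k, j, hj, hjk.le, rfl⟩)))
  have hjk' : (j : ℕ) < k := hjk
  have e1 : eval (fl (1 : Matrix (I × Fin (n + 3)) (I × Fin (n + 3)) ℂ))
      (MvPolynomial.X ((i, k), (i, j)) : MvPolynomial _ ℂ) = 0 := by
    rw [eval_X]
    exact Matrix.one_apply_ne fun h1 => hjk.ne' (Prod.ext_iff.1 h1).2
  have e2 : eval (fl (1 : Matrix (I × Fin (n + 3)) (I × Fin (n + 3)) ℂ))
      (MvPolynomial.X ((i, 1), (i, 1)) : MvPolynomial _ ℂ) = 1 := by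
    rw [eval_X]
    exact Matrix.one_apply_eq _
  have e3 : eval (fl (1 : Matrix (I × Fin (n + 3)) (I × Fin (n + 3)) ℂ))
      (MvPolynomial.X ((i, 2), (i, 1)) : MvPolynomial _ ℂ) = 0 := by
    rw [eval_X]
    refine Matrix.one_apply_ne fun h1 => ?_
    have h2 := congrArg Fin.val (Prod.ext_iff.1 h1).2
    dsimp only at h2
    rw [one_val, two_val] at h2
    omega
  have e4 : (((((k : ℕ) - j)! : ℕ) : MvPolynomial ((I × Fin (n + 3)) × (I × Fin (n + 3))) ℂ)) =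
      C (((((k : ℕ) - j)! : ℕ)) : ℂ) := by
    rw [map_natCast]
  simp only [map_sub, map_mul, map_pow, map_X, map_natCast] at h
  rw [e4, dd_sub, dd_mul, dd_mul, dd_mul, dd_C, dd_pow, dd_pow, dd_pow, dd_X, dd_X, dd_X, map_mul, map_pow, map_pow,
    map_pow, eval_C, e1, e2, e3] at h
  have h5 : (((k : ℕ) - j)! : ℂ) ≠ 0 := by exact_mod_cast ((k : ℕ) - j).factorial_ne_zero
  split_ifs with hk
  · have h6 : (k : ℕ) - j = 1 := by omega
    rw [h6] at h
    simp at h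
    exact sub_eq_zero.1 h
  · have h6 : (k : ℕ) - j - 1 ≠ 0 := by omega
    have h7 : (k : ℕ) - j ≠ 0 := by omega
    rw [zero_pow h6, zero_pow h7] at h
    simp only [zero_mul, mul_zero, zero_add, add_zero, one_pow, mul_one, one_mul, sub_zero] at h
    exact (mul_eq_zero.1 h).resolve_left h5

/-- the structure of the elements of the Lie algebra -/
theorem eq_lm {X : Matrix (I × Fin (n + 3)) (I × Fin (n + 3)) ℂ} (hX : fl X ∈ UU pw (GG I n)) :
    X = lm (fun i => X (i, 2) (i, 1)) (fun i k => X (i, k) (i, 0)) := by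
  ext ⟨i, k⟩ ⟨i', j⟩
  rw [lm, Matrix.of_apply]
  dsimp only
  split_ifs with h1 h2 h3
  · subst h1
    rw [h2]
  · subst h1
    have hjk : j < k := by
      rw [Fin.lt_def]
      omega
    rw [tan_kj hX i h2 hjk, if_pos h3]
  · subst h1
    by_cases hjk : j < k
    · rw [tan_kj hX i h2 hjk, if_neg h3]
    · by_contra h4
      have h5 := hX.1 (i, k) (i, j) h4
      apply hjk
      rw [Fin.lt_def]
      exact h5
  · exact tan_zero hX fun h4 => h1 h4.1

theorem strict_lm {τ : I → ℂ} {z : I → Fin (n + 3) → ℂ} (hz : ∀ i, z i 0 = 0) :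
    Fk pw 1 (lm τ z) := by
  intro b b' hb
  rw [lm, Matrix.of_apply] at hb
  split_ifs at hb with h1 h2 h3
  · change (b'.2 : ℕ) + 1 ≤ b.2
    rw [h2, Fin.val_zero]
    by_contra h4
    have h5 : b.2 = 0 := by
      rw [Fin.ext_iff, Fin.val_zero]
      omega
    rw [h5] at hb
    exact hb (hz _)
  · exact h3.ge
  · exact absurd rfl hb
  · exact absurd rfl hb

theorem lm_sq {z : I → Fin (n + 3) → ℂ} (hz : ∀ i, z i 0 = 0) (τ : I → ℂ) :
    lm 0 z * lm τ z = 0 := by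
  ext b b'
  rw [Matrix.mul_apply, Matrix.zero_apply]
  refine Finset.sum_eq_zero fun c _ => ?_
  simp only [lm, Matrix.of_apply, Pi.zero_apply]
  by_cases h1 : b.1 = c.1
  · by_cases h2 : c.2 = 0
    · by_cases h3 : c.1 = b'.1
      · by_cases h4 : b'.2 = 0
        · rw [if_pos h3, if_pos h4, h2, hz, mul_zero]
        · have h5 : ¬((c.2 : ℕ) = b'.2 + 1) := by
            rw [h2, Fin.val_zero]
            omega
          rw [if_pos h3, if_neg h4, if_neg h5, mul_zero]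
      · rw [if_neg h3, mul_zero]
    · rw [if_pos h1, if_neg h2, ite_self, zero_mul]
  · rw [if_neg h1, zero_mul]

theorem lm_mem_z {z : I → Fin (n + 3) → ℂ} (hz : ∀ i, z i 0 = 0)
    (hK : ∀ x ∈ K, IsAlgebraic ℚ x) : fl (lm 0 z) ∈ UU pw (GG I n) := by
  refine (mt_GG hK).log_mem (strict_lm hz) ?_
  have h1 : lm 0 z ^ 2 = 0 := by
    rw [sq]
    exact lm_sq hz 0
  rw [IsNilpotent.exp_eq_sum h1, Finset.sum_range_succ, Finset.sum_range_one, pow_zero, pow_one]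
  simp only [Nat.factorial_zero, Nat.factorial_one, Nat.cast_one, inv_one, one_smul]
  refine mem_GG.2 ⟨1, one_ne_zero, 0, ⟨fun b b' hb => ?_, fun i => ?_, fun i k j hj hjk => ?_⟩⟩
  · rw [Matrix.add_apply, inG_one.z b b' hb, zero_add]
    by_contra h2
    have h3 := strict_lm hz b b' h2
    rw [lm, Matrix.of_apply] at h2
    by_cases h4 : b.1 = b'.1
    · exact hb ⟨h4, by
        rw [Fin.le_def]
        exact (Nat.le_succ _).trans h3⟩
    · rw [if_neg h4] at h2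
      exact h2 rfl
  · rw [Matrix.add_apply, inG_one.o, lm, Matrix.of_apply, if_pos rfl, if_pos rfl, hz, add_zero]
  · rw [Matrix.add_apply, inG_one.e i k j hj hjk, lm, Matrix.of_apply, if_pos rfl, if_neg hj]
    simp

theorem lm_add (τ τ' : I → ℂ) (z z' : I → Fin (n + 3) → ℂ) :
    lm (τ + τ') (z + z') = lm τ z + lm τ' z' := by
  ext b b'
  simp only [lm, Matrix.of_apply, Matrix.add_apply, Pi.add_apply]
  split_ifs <;> simp

theorem lm_mem_t (τ : I → ℂ) (hK : ∀ x ∈ K, IsAlgebraic ℚ x) :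
    fl (lm τ (0 : I → Fin (n + 3) → ℂ)) ∈ UU pw (GG I n) := by
  have hM := mt_GG (I := I) (n := n) hK
  have hu : polM 1 τ (0 : I → Fin (n + 3) → ℂ) ∈ GG I n := ⟨1, one_ne_zero, τ, 0, rfl⟩
  obtain ⟨M, hM1, hM2⟩ := exists_log (wt := pw) (u := polM 1 τ (0 : I → Fin (n + 3) → ℂ)) (by
    intro b b' hb
    rw [Matrix.sub_apply] at hb
    by_contra hlt
    have hlt' : (b.2 : ℕ) ≤ b'.2 := by
      have : ¬((b'.2 : ℕ) + 1 ≤ b.2) := hlt
      omega
    apply hb
    have h := inG_polM 1 τ (0 : I → Fin (n + 3) → ℂ)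
    by_cases hbb : b = b'
    · subst hbb
      obtain ⟨i, k⟩ := b
      rw [Matrix.one_apply_eq]
      by_cases hk : k = 0
      · subst hk
        rw [h.o, sub_self]
      · rw [h.e i k k hk le_rfl]
        simp
    · rw [Matrix.one_apply_ne hbb, sub_zero]
      refine h.z _ _ ?_
      rintro ⟨h5, h6⟩
      have h7 : (b'.2 : ℕ) ≤ b.2 := h6
      exact hbb (Prod.ext h5 (Fin.ext (le_antisymm hlt' h7))))
  have h1 : fl M ∈ UU pw (GG I n) := hM.log_mem hM1 (hM2 ▸ hu)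
  have h2 := eq_lm h1
  have h3 : ∀ i, M (i, 2) (i, 1) = τ i := by
    intro i
    have h4 : pw (i, (2 : Fin (n + 3))) = pw (i, (1 : Fin (n + 3))) + 1 := by
      change ((2 : Fin (n + 3)) : ℕ) = ((1 : Fin (n + 3)) : ℕ) + 1
      rw [one_val, two_val]
    rw [← exp_deg_one hM1 h4, hM2, (inG_polM 1 τ _).e i 2 1 (by simp)
      (by rw [Fin.le_def, one_val, two_val]; norm_num), one_val, two_val]
    simp
  have h5 : (fun i => M (i, 2) (i, 1)) = τ := funext h3
  rw [h5] at h2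
  have h6 : ∀ i, (fun (i : I) (k : Fin (n + 3)) => M (i, k) (i, 0)) i 0 = 0 := by
    intro i
    by_contra h7
    have h8 := hM1 (i, 0) (i, 0) h7
    omega
  have h7 := lm_mem_z (K := K) (z := fun (i : I) (k : Fin (n + 3)) => M (i, k) (i, 0)) h6 hK
  have h8 := Submodule.sub_mem _ h1 h7
  have h9 : fl (lm τ (0 : I → Fin (n + 3) → ℂ)) =
      fl M - fl (lm 0 (fun (i : I) (k : Fin (n + 3)) => M (i, k) (i, 0))) := by
    have h10 := lm_add τ 0 0 (fun (i : I) (k : Fin (n + 3)) => M (i, k) (i, 0))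
    rw [add_zero, zero_add, ← h2] at h10
    rw [eq_sub_iff_add_eq, ← fl_add, ← h10]
  rw [h9]
  exact h8

end Pool.Agent.U725.MT.Pol
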