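import Pool.Agent.U725.MT.PolLie

/-!
# The smallest subtorsor which contains the period matrix of a sum of polylogarithm motives
-/

set_option autoImplicit false
set_option linter.unusedSectionVars false

open Matrix MvPolynomial

namespace Pool.Agent.U725.MT.Pol

open Pool.Agent.TH127.PT Pool.Agent.TH119.MX Pool.Agent.TH119.DR Pool.Agent.Y123.ST
  Pool.Agent.U725.OM

open scoped Nat

variable {I : Type} [Fintype I] [DecidableEq I] {n : ℕ} {K : Subfield ℂ}

theorem lm_z_mul {z : I → Fin (n + 3) → ℂ} (τ : I → ℂ) :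
    lm 0 z * lm τ (0 : I → Fin (n + 3) → ℂ) = 0 := by
  ext b b'
  rw [Matrix.mul_apply, Matrix.zero_apply]
  refine Finset.sum_eq_zero fun c _ => ?_
  simp only [lm, Matrix.of_apply, Pi.zero_apply]
  by_cases h1 : b.1 = c.1
  · by_cases h2 : c.2 = 0
    · by_cases h3 : c.1 = b'.1
      · by_cases h4 : b'.2 = 0
        · rw [if_pos h3, if_pos h4, mul_zero]
        · have h5 : ¬((c.2 : ℕ) = b'.2 + 1) := by
            rw [h2, Fin.val_zero]
            omega
          rw [if_pos h3, if_neg h4, if_neg h5, mul_zero]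
      · rw [if_neg h3, mul_zero]
    · rw [if_pos h1, if_neg h2, ite_self, zero_mul]
  · rw [if_neg h1, zero_mul]

theorem lm_one_mul {z z' : I → Fin (n + 3) → ℂ} (h0 : ∀ i, z i 0 = 0) (h1 : ∀ i, z i 1 = 0)
    (hz : ∀ (i : I) (k m : Fin (n + 3)), m ≠ 0 → (k : ℕ) = m + 1 → z' i m = z i k) :
    lm 1 (0 : I → Fin (n + 3) → ℂ) * lm 0 z' = lm 0 z := by
  ext ⟨i, k⟩ ⟨i', j⟩
  rw [Matrix.mul_apply]
  by_cases hj : j = 0
  swap
  · have h2 : lm 0 z (i, k) (i', j) = 0 := by
      simp only [lm, Matrix.of_apply, Pi.zero_apply, if_neg hj, ite_self]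
    rw [h2]
    refine Finset.sum_eq_zero fun c _ => ?_
    simp only [lm, Matrix.of_apply, Pi.zero_apply, if_neg hj, ite_self, mul_zero]
  subst hj
  by_cases hi : i = i'
  swap
  · have h2 : lm 0 z (i, k) (i', 0) = 0 := by
      simp only [lm, Matrix.of_apply, if_neg hi]
    rw [h2]
    refine Finset.sum_eq_zero fun c _ => ?_
    simp only [lm, Matrix.of_apply]
    by_cases h3 : i = c.1
    · rw [if_neg fun h4 => hi (h3.trans h4), mul_zero]
    · rw [if_neg h3, zero_mul]
  subst hi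
  have h2 : lm 0 z (i, k) (i, 0) = z i k := by
    simp only [lm, Matrix.of_apply, if_true]
  rw [h2]
  by_cases hk : ∃ m : Fin (n + 3), m ≠ 0 ∧ (k : ℕ) = m + 1
  · obtain ⟨m, hm, hkm⟩ := hk
    rw [Finset.sum_eq_single (i, m)]
    · simp only [lm, Matrix.of_apply, if_true, if_neg hm, Pi.one_apply, if_pos hkm, one_mul]
      exact hz i k m hm hkm
    · rintro ⟨c, q⟩ _ hc
      simp only [lm, Matrix.of_apply, Pi.one_apply, Pi.zero_apply]
      by_cases h3 : i = c
      · rw [if_pos h3]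
        by_cases h4 : q = 0
        · rw [if_pos h4, zero_mul]
        · have h5 : ¬((k : ℕ) = q + 1) := fun h6 => hc (Prod.ext h3.symm (Fin.ext (by
            dsimp only
            omega)))
          rw [if_neg h4, if_neg h5, zero_mul]
      · rw [if_neg h3, zero_mul]
    · exact fun h3 => absurd (Finset.mem_univ _) h3
  · have h3 : z i k = 0 := by
      by_cases hk0 : k = 0
      · rw [hk0, h0]
      by_cases hk1 : k = 1
      · rw [hk1, h1]
      exfalso
      have e0 : (k : ℕ) ≠ 0 := fun h4 => hk0 (Fin.ext h4)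
      have e1 : (k : ℕ) ≠ 1 := fun h4 => hk1 (Fin.ext (by rw [one_val]; exact h4))
      refine hk ⟨⟨k - 1, by omega⟩, fun h4 => ?_, ?_⟩
      · have h5 := congrArg Fin.val h4
        dsimp only at h5
        rw [Fin.val_zero] at h5
        omega
      · dsimp only
        omega
    rw [h3]
    refine Finset.sum_eq_zero fun c _ => ?_
    simp only [lm, Matrix.of_apply, Pi.one_apply, Pi.zero_apply]
    by_cases h3 : i = c.1
    · rw [if_pos h3]
      by_cases h4 : c.2 = 0
      · rw [if_pos h4, zero_mul]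
      · rw [if_neg h4, if_neg fun h5 => hk ⟨c.2, h4, h5⟩, zero_mul]
    · rw [if_neg h3, zero_mul]

/-- the commutators -/
theorem mem_CC {z : I → Fin (n + 3) → ℂ} (hK : ∀ x ∈ K, IsAlgebraic ℚ x) (h0 : ∀ i, z i 0 = 0)
    (h1 : ∀ i, z i 1 = 0) : fl (lm 0 z) ∈ CC pw (GG I n) := by
  set z' : I → Fin (n + 3) → ℂ := fun i m =>
    if h : m ≠ 0 ∧ (m : ℕ) + 1 < n + 3 then z i ⟨m + 1, h.2⟩ else 0 with hz'
  have e1 : lm 1 (0 : I → Fin (n + 3) → ℂ) * lm 0 z' = lm 0 z := by
    refine lm_one_mul h0 h1 fun i k m hm hkm => ?_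
    rw [hz']
    dsimp only
    have h2 : m ≠ 0 ∧ (m : ℕ) + 1 < n + 3 := ⟨hm, by
      have := k.2
      omega⟩
    rw [dif_pos h2]
    congr 1
    exact Fin.ext hkm.symm
  have e2 : ∀ i, z' i 0 = 0 := by
    intro i
    rw [hz']
    dsimp only
    rw [dif_neg fun h => h.1 rfl]
  have h2 := br_CC (lm_mem_t (K := K) (n := n) (1 : I → ℂ) hK) (lm_mem_z (K := K) e2 hK)
  rw [e1, lm_z_mul, sub_zero] at h2
  exact h2

/-- the generators -/
def gen (j : I ⊕ I) : Matrix (I × Fin (n + 3)) (I × Fin (n + 3)) ℂ :=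
  j.elim (fun i => lm (Pi.single i 1) 0) (fun i => lm 0 (Pi.single i (Pi.single 1 1)))

theorem sum_gen (x : I ⊕ I → ℂ) : ∑ j, x j • gen (n := n) j =
    lm (fun i => x (Sum.inl i)) (fun i k => if k = 1 then x (Sum.inr i) else 0) := by
  rw [Fintype.sum_sum_type]
  ext b b'
  simp only [gen, Sum.elim_inl, Sum.elim_inr, Matrix.add_apply, Matrix.sum_apply,
    Matrix.smul_apply, lm, Matrix.of_apply, Pi.zero_apply, smul_eq_mul]
  by_cases h1 : b.1 = b'.1
  · by_cases h2 : b'.2 = 0
    · simp only [if_pos h1, if_pos h2, mul_zero, Finset.sum_const_zero, zero_add]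
      rw [Finset.sum_eq_single b.1]
      · by_cases h3 : b.2 = 1
        · rw [h3, if_pos rfl]
          simp
        · rw [if_neg h3]
          simp [h3]
      · intro i _ hi
        rw [Pi.single_eq_of_ne hi.symm, Pi.zero_apply, mul_zero]
      · exact fun h3 => absurd (Finset.mem_univ _) h3
    · simp only [if_pos h1, if_neg h2, ite_self, mul_zero, Finset.sum_const_zero, add_zero]
      by_cases h3 : (b.2 : ℕ) = b'.2 + 1
      · simp only [if_pos h3]
        rw [Finset.sum_eq_single b.1]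
        · simp
        · intro i _ hi
          rw [Pi.single_eq_of_ne hi.symm, mul_zero]
        · exact fun h3 => absurd (Finset.mem_univ _) h3
      · simp only [if_neg h3, mul_zero, Finset.sum_const_zero]
  · simp only [if_neg h1, mul_zero, Finset.sum_const_zero, add_zero]

/-- the Lie algebra is generated in degree one -/
theorem span_gen {X : Matrix (I × Fin (n + 3)) (I × Fin (n + 3)) ℂ} (hK : ∀ x ∈ K, IsAlgebraic ℚ x)
    (hX : fl X ∈ UU pw (GG I n)) (x : I ⊕ I → ℂ) (hx1 : ∀ i, x (Sum.inl i) = X (i, 2) (i, 1))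
    (hx2 : ∀ i, x (Sum.inr i) = X (i, 1) (i, 0)) :
    fl (X - ∑ j, x j • gen j) ∈ CC pw (GG I n) := by
  rw [sum_gen]
  have h1 : X - lm (fun i => x (Sum.inl i)) (fun i k => if k = 1 then x (Sum.inr i) else 0) =
      lm 0 (fun i k => X (i, k) (i, 0) - if k = 1 then x (Sum.inr i) else 0) := by
    have h2 := lm_add (fun i => x (Sum.inl i)) 0 (fun (i : I) (k : Fin (n + 3)) => if k = 1 then x (Sum.inr i) else 0)
      (fun i k => X (i, k) (i, 0) - if k = 1 then x (Sum.inr i) else 0)
    rw [sub_eq_iff_eq_add', ← h2]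
    have h3 := eq_lm hX
    have h4 : (fun i => x (Sum.inl i)) + (0 : I → ℂ) = fun i => X (i, 2) (i, 1) := by
      funext i
      rw [Pi.add_apply, Pi.zero_apply, add_zero]
      exact hx1 i
    have h5 : ((fun (i : I) (k : Fin (n + 3)) => if k = 1 then x (Sum.inr i) else 0) +
        fun i k => X (i, k) (i, 0) - if k = 1 then x (Sum.inr i) else 0) =
        fun i k => X (i, k) (i, 0) := by
      funext i k
      simp only [Pi.add_apply]
      ring
    rw [h4, h5]
    exact h3
  rw [h1]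
  refine mem_CC hK (fun i => ?_) fun i => ?_
  · have h2 : (0 : Fin (n + 3)) ≠ 1 := by simp
    rw [if_neg h2, sub_zero]
    by_contra h3
    have h4 := hX.1 (i, 0) (i, 0) h3
    omega
  · rw [if_pos rfl, hx2, sub_self]

theorem gen_deg (j : I ⊕ I) (b b' : I × Fin (n + 3)) (h : gen j b b' ≠ 0) :
    pw b = pw b' + 1 := by
  rcases j with i | i
  · change lm (Pi.single i 1) 0 b b' ≠ 0 at h
    rw [lm, Matrix.of_apply] at h
    split_ifs at h with h1 h2 h3
    · exact absurd rfl h
    · exact h3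
    · exact absurd rfl h
    · exact absurd rfl h
  · change lm 0 (Pi.single i (Pi.single 1 1)) b b' ≠ 0 at h
    rw [lm, Matrix.of_apply] at h
    split_ifs at h with h1 h2 h3
    · by_cases h4 : b.1 = i
      · rw [h4, Pi.single_eq_same] at h
        by_cases h5 : b.2 = 1
        · change (b.2 : ℕ) = (b'.2 : ℕ) + 1
          rw [h5, h2, one_val, Fin.val_zero]
        · rw [Pi.single_eq_of_ne h5] at h
          exact absurd rfl h
      · rw [Pi.single_eq_of_ne h4] at h
        exact absurd rfl h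
    · exact absurd rfl h
    · exact absurd rfl h
    · exact absurd rfl h

theorem gen_mem (j : I ⊕ I) (b b' : I × Fin (n + 3)) : gen j b b' ∈ K := by
  rcases j with i | i
  · change lm (Pi.single i 1) 0 b b' ∈ K
    rw [lm, Matrix.of_apply]
    split_ifs
    · exact K.zero_mem
    · rw [Pi.single_apply]
      split_ifs
      · exact K.one_mem
      · exact K.zero_mem
    · exact K.zero_mem
    · exact K.zero_mem
  · change lm 0 (Pi.single i (Pi.single 1 1)) b b' ∈ K
    rw [lm, Matrix.of_apply]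
    split_ifs
    · by_cases h4 : b.1 = i
      · rw [h4, Pi.single_eq_same, Pi.single_apply]
        split_ifs
        · exact K.one_mem
        · exact K.zero_mem
      · rw [Pi.single_eq_of_ne h4]
        exact K.zero_mem
    · exact K.zero_mem
    · exact K.zero_mem
    · exact K.zero_mem

/-- the logarithm of a period matrix -/
theorem log_pol (hK : ∀ x ∈ K, IsAlgebraic ℚ x) (t : I → ℂ) (y : I → Fin (n + 3) → ℂ) (l : ℂ) :
    ∃ L : Matrix (I × Fin (n + 3)) (I × Fin (n + 3)) ℂ, fl L ∈ UU pw (GG I n) ∧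
      IsNilpotent.exp L * dg pw l = polM l t y ∧ (∀ i, L (i, 2) (i, 1) = t i) ∧
      ∀ i, L (i, 1) (i, 0) = y i 1 := by
  have hM := mt_GG (I := I) (n := n) hK
  have h := inG_polM 1 t y
  obtain ⟨L, hL1, hL2⟩ := exists_log (wt := pw) (u := polM 1 t y) (by
    intro b b' hb
    rw [Matrix.sub_apply] at hb
    by_contra hlt
    have hlt' : (b.2 : ℕ) ≤ b'.2 := by
      have : ¬((b'.2 : ℕ) + 1 ≤ b.2) := hlt
      omega
    apply hb
    by_cases hbb : b = b'
    · subst hbb
      obtain ⟨i, k⟩ := b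
      rw [Matrix.one_apply_eq]
      by_cases hk : k = 0
      · subst hk
        rw [h.o, sub_self]
      · rw [h.e i k k hk le_rfl]
        simp
    · rw [Matrix.one_apply_ne hbb, sub_zero]
      refine h.z _ _ ?_
      rintro ⟨h5, h6⟩
      have h7 : (b'.2 : ℕ) ≤ b.2 := h6
      exact hbb (Prod.ext h5 (Fin.ext (le_antisymm hlt' h7))))
  refine ⟨L, hM.log_mem hL1 ⟨1, one_ne_zero, t, y, hL2⟩, ?_, fun i => ?_, fun i => ?_⟩
  · rw [hL2]
    ext ⟨i, k⟩ ⟨i', j⟩
    rw [dg, Matrix.mul_diagonal]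
    simp only [polM, Matrix.of_apply, pw]
    split_ifs with h1 h2 h3
    · rw [h2, Fin.val_zero, pow_zero, mul_one]
    · rw [h2, Fin.val_zero, pow_zero, mul_one]
    · rw [one_pow]
      ring
    · rw [zero_mul]
  · have h4 : pw (i, (2 : Fin (n + 3))) = pw (i, (1 : Fin (n + 3))) + 1 := by
      change ((2 : Fin (n + 3)) : ℕ) = ((1 : Fin (n + 3)) : ℕ) + 1
      rw [one_val, two_val]
    rw [← exp_deg_one hL1 h4, hL2, h.e i 2 1 (by simp)
      (by rw [Fin.le_def, one_val, two_val]; norm_num), one_val, two_val]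
    simp
  · have h4 : pw (i, (1 : Fin (n + 3))) = pw (i, (0 : Fin (n + 3))) + 1 := by
      change ((1 : Fin (n + 3)) : ℕ) = ((0 : Fin (n + 3)) : ℕ) + 1
      rw [one_val, Fin.val_zero]
    rw [← exp_deg_one hL1 h4, hL2]
    have h5 : (1 : Fin (n + 3)) ≠ 0 := by simp
    simp only [polM, Matrix.of_apply, if_neg h5, if_true, Fin.zero_le, and_self]

/-- **the smallest subtorsor** -/
theorem pol_main (hK : ∀ x ∈ K, IsAlgebraic ℚ x) {t : I → ℂ} {y : I → Fin (n + 3) → ℂ}
    (ht : ∀ i, IsAlgebraic ℚ (Complex.exp (t i))) (hy : ∀ i, IsAlgebraic ℚ (Complex.exp (y i 1)))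
    (hi : ∀ u : I ⊕ I → ℤ,
      ∏ j, Complex.exp (j.elim t (fun i => y i 1)) ^ u j = 1 → u = 0)
    {T : Set (Matrix (I × Fin (n + 3)) (I × Fin (n + 3)) ℂ)} (hT : IsSubtorsor K T)
    (hcT : polM (2 * Real.pi * Complex.I) t y ∈ T) : GG I n ⊆ T := by
  obtain ⟨L, hL, hc, h1, h2⟩ := log_pol hK t y (2 * Real.pi * Complex.I)
  rw [← hc] at hcT
  refine (mt_GG hK).degOne' gen gen_deg (fun j b b' => gen_mem j b b') (fun X hX => ?_) hL
    (fun j => j.elim t (fun i => y i 1)) ?_ hi ?_ hT hcT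
  · exact ⟨fun j => j.elim (fun i => X (i, 2) (i, 1)) fun i => X (i, 1) (i, 0),
      span_gen hK hX _ (fun i => rfl) fun i => rfl⟩
  · rintro (i | i)
    · exact ht i
    · exact hy i
  · exact span_gen hK hL _ (fun i => (h1 i).symm) fun i => (h2 i).symm

end Pool.Agent.U725.MT.Pol
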